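import Pool.Agent.U507.AH.E9

/-!
# The converse: all averages
-/

set_option autoImplicit false

open Complex Filter Topology Set MeasureTheory Metric
open scoped Real

namespace Pool.Agent.U507.AH

open Pool.Agent.U507.GM hiding step_low low_pt low_unif rigid
open Pool.Agent.U507.PC
open Pool.Agent.Y749.Rig (nT)
open Pool.Agent.Y763.AH (PT)

/-- the variance, cut off at small heights -/
noncomputable def V0 (R U0 U : ℝ) : ℝ := if U0 ≤ U then VR R U else 0

lemma V0_meas (R U0 : ℝ) : Measurable (V0 R U0) :=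
  Measurable.ite (measurableSet_le measurable_const measurable_id) (VR_meas R) measurable_const

/-- all continuous averages of the variance converge -/
theorem avg_all (hRH : RiemannHypothesis) {R : ℝ} (hR : 0 < R)
    (hx : Tendsto (fun T => PT R T / nT T) atTop (𝓝 0)) : ∃ C U0 : ℝ, 0 < C ∧ 16 ≤ U0 ∧ 0 ≤ (R ^ 2 - R) / 2 ∧
      (∀ U : ℝ, 0 ≤ V0 R U0 U ∧ V0 R U0 U ≤ C) ∧ ∀ f : ℝ → ℝ, Continuous f → ∀ M : ℝ,
      (∀ x, M ≤ x → f x = 0) →
      Tendsto (fun T => ∫ s in Ioi 0, s * V0 R U0 (Ut T s) * f s) atTop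
        (𝓝 (∫ s in Ioi 0, (R ^ 2 - R) / 2 * s * f s)) := by
  obtain ⟨C, U0, hC, hU0, hb⟩ := VR_bdd hRH hR
  have hv0 : 0 ≤ (R ^ 2 - R) / 2 := by
    refine ge_of_tendsto (avg1 hRH hR hx) ?_
    filter_upwards [eventually_ge_atTop 16, Real.tendsto_sqrt_atTop.eventually_ge_atTop (2 * U0)] with T hT hT2
    refine setIntegral_nonneg measurableSet_Ioc fun s hs => ?_
    have hU := Ut_facts hT hs.1 hs.2
    have := (hb (Ut T s) (by linarith)).1
    have hs0 : 0 < s := hs.1
    positivity
  have hV : ∀ U : ℝ, 0 ≤ V0 R U0 U ∧ V0 R U0 U ≤ C := by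
    intro U
    unfold V0
    split_ifs with h
    · exact hb U h
    · exact ⟨le_rfl, hC.le⟩
  refine ⟨C, U0, hC, hU0, hv0, hV, fun f hf M hM => ?_⟩
  have hexp : ∀ b : ℝ, 0 < b → IntegrableOn (fun s : ℝ => s * Real.exp (-b * s)) (Ioi 0) ∧
      ∫ s in Ioi (0 : ℝ), s * Real.exp (-b * s) = 1 / b ^ 2 := by
    intro b hb'
    have h1 : IntegrableOn (fun s : ℝ => s * Real.exp (-s)) (Ioi 0) :=
      (exp_pow_int 1).congr_fun (fun s _ => by simp) measurableSet_Ioi
    have e : ∀ s : ℝ, s * Real.exp (-b * s) = 1 / b * ((fun s : ℝ => s * Real.exp (-s)) (b * s)) := by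
      intro s
      simp only
      rw [neg_mul]
      field_simp
    constructor
    · have h2 := (integrableOn_Ioi_comp_mul_left_iff (fun s : ℝ => s * Real.exp (-s)) 0 hb').2
        (by rw [mul_zero]; exact h1)
      refine (h2.const_mul (1 / b)).congr (ae_of_all _ fun s => ?_)
      exact (e s).symm
    · simp_rw [e]
      rw [integral_const_mul, integral_comp_mul_left_Ioi (fun s : ℝ => s * Real.exp (-s)) 0 hb', mul_zero, exp_mom,
        smul_eq_mul]
      field_simp
  have hint : ∀ (b T : ℝ), 0 < b → IntegrableOn (fun s => s * V0 R U0 (Ut T s) * Real.exp (-b * s)) (Ioi 0) := by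
    intro b T hb'
    refine Integrable.mono' ((hexp b hb').1.const_mul C) ?_ ?_
    · exact ((measurable_id.mul ((V0_meas R U0).comp (Ut_meas T))).mul
        (by fun_prop : Measurable fun s : ℝ => Real.exp (-b * s))).aestronglyMeasurable
    · refine (ae_restrict_iff' measurableSet_Ioi).2 (Filter.Eventually.of_forall fun s hs => ?_)
      have hs0 : (0 : ℝ) < s := hs
      obtain ⟨b1, b2⟩ := hV (Ut T s)
      rw [Real.norm_eq_abs, abs_of_nonneg (by positivity)]
      calc s * V0 R U0 (Ut T s) * Real.exp (-b * s) ≤ s * C * Real.exp (-b * s) := by gcongr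
        _ = _ := by ring
  -- the first average
  have h1 : Tendsto (fun T => ∫ s in Ioi 0, s * V0 R U0 (Ut T s) * Real.exp (-1 * s)) atTop (𝓝 ((R ^ 2 - R) / 2)) := by
    have t1 : Tendsto (fun T : ℝ => ∫ s in Ioi (0 : ℝ), (Ioi √T).indicator (fun s => s * V0 R U0 (Ut T s) *
        Real.exp (-1 * s)) s) atTop (𝓝 (∫ s in Ioi (0 : ℝ), (0 : ℝ))) := by
      refine tendsto_integral_filter_of_dominated_convergence (fun s => C * (s * Real.exp (-1 * s))) ?_ ?_ ?_ ?_
      · filter_upwards with T
        exact ((hint 1 T one_pos).aestronglyMeasurable).indicator measurableSet_Ioi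
      · filter_upwards with T
        refine (ae_restrict_iff' measurableSet_Ioi).2 (Filter.Eventually.of_forall fun s hs => ?_)
        have hs0 : (0 : ℝ) < s := hs
        obtain ⟨b1, b2⟩ := hV (Ut T s)
        by_cases hin : s ∈ Ioi √T
        · rw [indicator_of_mem hin, Real.norm_eq_abs, abs_of_nonneg (by positivity)]
          calc s * V0 R U0 (Ut T s) * Real.exp (-1 * s) ≤ s * C * Real.exp (-1 * s) := by gcongr
            _ = _ := by ring
        · rw [indicator_of_notMem hin, norm_zero]
          positivity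
      · exact (hexp 1 one_pos).1.const_mul C
      · refine ae_of_all _ fun s => ?_
        refine tendsto_const_nhds.congr' ?_
        filter_upwards [Real.tendsto_sqrt_atTop.eventually_ge_atTop s] with T hT
        rw [indicator_of_notMem]
        exact fun h => absurd h (not_lt.2 hT)
    rw [integral_zero] at t1
    have t2 := (avg1 hRH hR hx).add t1
    rw [add_zero] at t2
    refine t2.congr' ?_
    filter_upwards [eventually_ge_atTop 16, Real.tendsto_sqrt_atTop.eventually_ge_atTop (2 * U0)] with T hT hT2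
    have hq : 0 ≤ √T := Real.sqrt_nonneg T
    have e1 : ∫ s in Ioc 0 √T, Real.exp (-s) * (s * VR R (Ut T s)) =
        ∫ s in Ioc 0 √T, s * V0 R U0 (Ut T s) * Real.exp (-1 * s) := by
      refine setIntegral_congr_fun measurableSet_Ioc fun s hs => ?_
      have hU := Ut_facts hT hs.1 hs.2
      unfold V0
      rw [if_pos (by linarith)]
      rw [neg_one_mul]
      ring
    rw [e1, setIntegral_indicator measurableSet_Ioi, inter_eq_right.2 (Ioi_subset_Ioi hq),
      ← setIntegral_union Ioc_disjoint_Ioi_same measurableSet_Ioi ((hint 1 T one_pos).mono_set Ioc_subset_Ioi_self)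
      ((hint 1 T one_pos).mono_set (Ioi_subset_Ioi hq)), Ioc_union_Ioi_eq_Ioi hq]
  -- scaling
  have hsc : ∀ b : ℝ, 0 < b → Tendsto (fun T => ∫ s in Ioi 0, s * V0 R U0 (Ut T s) * Real.exp (-b * s)) atTop
      (𝓝 (∫ s in Ioi 0, (R ^ 2 - R) / 2 * s * Real.exp (-b * s))) := by
    intro b hb'
    have e1 : ∫ s in Ioi 0, (R ^ 2 - R) / 2 * s * Real.exp (-b * s) = 1 / b ^ 2 * ((R ^ 2 - R) / 2) := by
      have : ∀ s ∈ Ioi (0 : ℝ), (R ^ 2 - R) / 2 * s * Real.exp (-b * s) = (R ^ 2 - R) / 2 * (s * Real.exp (-b * s)) :=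
        fun s _ => by ring
      rw [setIntegral_congr_fun measurableSet_Ioi this, integral_const_mul, (hexp b hb').2]
      ring
    rw [e1]
    have hbT : Tendsto (fun T : ℝ => b * T) atTop atTop := tendsto_id.const_mul_atTop hb'
    refine ((h1.comp hbT).const_mul (1 / b ^ 2)).congr' ?_
    filter_upwards [eventually_gt_atTop 0] with T hT
    simp only [Function.comp]
    have e2 : ∀ s : ℝ, s * V0 R U0 (Ut T s) * Real.exp (-b * s) =
        1 / b * ((fun s : ℝ => s * V0 R U0 (Ut (b * T) s) * Real.exp (-1 * s)) (b * s)) := by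
      intro s
      simp only
      have e3 : Ut (b * T) (b * s) = Ut T s := by
        unfold Ut
        rw [mul_div_mul_left _ _ hb'.ne']
      rw [e3, show (-1 : ℝ) * (b * s) = -b * s by ring]
      field_simp
    simp_rw [e2]
    rw [integral_const_mul, integral_comp_mul_left_Ioi (fun s : ℝ => s * V0 R U0 (Ut (b * T) s) * Real.exp (-1 * s)) 0 hb',
      mul_zero, smul_eq_mul]
    field_simp
  exact lap_conv (l := atTop) (ρ := volume.restrict (Ioi 0)) (w := fun T s => s * V0 R U0 (Ut T s)) (X := fun _ s => s)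
    (ρ₀ := volume.restrict (Ioi 0)) (w₀ := fun s => (R ^ 2 - R) / 2 * s) (X₀ := fun s => s)
    (Eventually.of_forall fun T => ⟨measurable_id.mul ((V0_meas R U0).comp (Ut_meas T)), measurable_id,
      (ae_restrict_iff' measurableSet_Ioi).2 (Filter.Eventually.of_forall fun s hs => by
        have hs0 : (0 : ℝ) < s := hs
        exact ⟨mul_nonneg hs0.le (hV _).1, hs0.le⟩)⟩)
    ⟨by fun_prop, measurable_id, (ae_restrict_iff' measurableSet_Ioi).2 (Filter.Eventually.of_forall fun s hs => by
        have hs0 : (0 : ℝ) < s := hs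
        exact ⟨mul_nonneg hv0 hs0.le, hs0.le⟩)⟩
    (fun n => Eventually.of_forall fun T => hint _ T (kpos n))
    (fun n => by
      have := (hexp _ (kpos n)).1.const_mul ((R ^ 2 - R) / 2)
      refine this.congr (ae_of_all _ fun s => ?_)
      simp only
      ring)
    (fun n => hsc _ (kpos n)) hf hM

end Pool.Agent.U507.AH
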