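import Pool.Agent.U507.AH.E10

/-!
# Comparison of the variances for neighbouring lengths
-/

set_option autoImplicit false

open Complex Filter Topology Set MeasureTheory Metric
open scoped Real

namespace Pool.Agent.U507.AH

open Pool.Agent.U507.GM hiding step_low low_pt low_unif rigid
open Pool.Agent.U507.PC

/-- the integrand -/
noncomputable def ed (δ y : ℝ) : ℝ := Rf (Real.exp (y + δ)) - Rf (Real.exp y)

lemma ed_meas (δ : ℝ) : Measurable (ed δ) := by
  unfold ed
  exact (Rf_meas.comp (by fun_prop)).sub (Rf_meas.comp (by fun_prop))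

lemma ed_int (hRH : RiemannHypothesis) {η : ℝ} (hη : 0 < η) (hη1 : η ≤ 1 / 2) (δ : ℝ) :
    Integrable fun y => Real.exp (-(1 + 2 * η) * y) * ed δ y ^ 2 := by
  have h := ((Ef_sq hRH hη hη1 δ).comp_add_right (δ / 2)).const_mul (Real.exp ((1 / 2 + η) * δ))
  refine h.congr (ae_of_all _ fun y => ?_)
  exact (Wv_eq η δ y).symm

lemma tn_le {R L y : ℝ} (hR : 0 < R) (hL : 0 < L) : tn R (y / L) ≤ R * Real.exp R * Real.exp (-(1 / L) * y) ∨ y < 0 := by
  rcases lt_or_ge y 0 with h | h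
  · exact Or.inr h
  left
  have h0 : 0 ≤ y / L := by positivity
  unfold tn
  have e1 : R * Real.exp R * Real.exp (-(1 / L) * y) = R * Real.exp (R - y / L) := by
    rw [mul_assoc, ← Real.exp_add]
    congr 2
    ring
  rw [e1]
  refine max_le (by positivity) ?_
  rcases le_total (y / L) R with h6 | h6
  · have h7 : 1 ≤ Real.exp (R - y / L) := Real.one_le_exp (by linarith)
    nlinarith
  · have : 0 < R * Real.exp (R - y / L) := by positivity
    linarith

lemma tne_int (hRH : RiemannHypothesis) {R L δ d : ℝ} (hR : 0 < R) (hL : 1 ≤ L) :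
    IntegrableOn (fun y => tn R (y / L) * (Real.exp (-y) * ed δ (y + d) ^ 2)) (Ioi 0) := by
  have hL0 : 0 < L := by linarith
  have h1 := ((ed_int hRH (η := 1 / (2 * L)) (by positivity) (by
    rw [div_le_div_iff₀ (by positivity) (by norm_num)]; linarith) δ).comp_add_right d).const_mul
    (R * Real.exp R * Real.exp ((1 + 2 * (1 / (2 * L))) * d))
  refine Integrable.mono' h1.integrableOn ?_ ?_
  · exact (((tn_cont R).measurable.comp (by fun_prop)).mul
      ((by fun_prop : Measurable fun y : ℝ => Real.exp (-y)).mul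
      (((ed_meas δ).comp (by fun_prop)).pow_const 2))).aestronglyMeasurable
  · refine (ae_restrict_iff' measurableSet_Ioi).2 (Filter.Eventually.of_forall fun y hy => ?_)
    have hy0 : (0 : ℝ) < y := hy
    have ht0 : 0 ≤ tn R (y / L) := le_max_left _ _
    rw [Real.norm_eq_abs, abs_of_nonneg (by positivity)]
    rcases tn_le (y := y) hR hL0 with h | h
    · calc tn R (y / L) * (Real.exp (-y) * ed δ (y + d) ^ 2) ≤
          R * Real.exp R * Real.exp (-(1 / L) * y) * (Real.exp (-y) * ed δ (y + d) ^ 2) := by gcongr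
        _ = R * Real.exp R * ((Real.exp (-(1 / L) * y) * Real.exp (-y)) * ed δ (y + d) ^ 2) := by ring
        _ = R * Real.exp R * ((Real.exp ((1 + 2 * (1 / (2 * L))) * d) * Real.exp (-(1 + 2 * (1 / (2 * L))) * (y + d))) *
            ed δ (y + d) ^ 2) := by
              rw [← Real.exp_add, ← Real.exp_add]
              congr 3
              field_simp
              ring
        _ = _ := by ring
    · linarith

/-- the variance in the logarithmic variable -/
lemma VR_y {R U : ℝ} (hU : 16 ≤ U) : VR R U = U / Real.log U ^ 2 *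
    ∫ y in Ioi 0, tn R (y / Real.log U) * (Real.exp (-y) * ed (dl U 1) y ^ 2) := by
  have hU0 : 0 < U := by linarith
  have hL1 := logT hU
  obtain ⟨L, hL⟩ : ∃ L : ℝ, L = Real.log U := ⟨_, rfl⟩
  rw [← hL] at hL1 ⊢
  have hL0 : 0 < L := by linarith
  have key : ∀ α ∈ Ioi (0 : ℝ), tn R α * vs U α =
      (fun y => U / L * (tn R (y / L) * (Real.exp (-y) * ed (dl U 1) y ^ 2))) (α * L) := by
    intro α hα
    have hα0 : (0 : ℝ) < α := hα
    simp only
    unfold vs Dd ed dl
    have e1 : Real.exp (α * L) = U ^ α := by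
      rw [Real.rpow_def_of_pos hU0, hL, mul_comm α]
    have h1 : 1 ≤ U ^ α := Real.one_le_rpow (by linarith) hα0.le
    have e2 : Real.exp (α * L + Real.log (1 + 1 / (1 * U))) = U ^ α + U ^ α / U := by
      rw [Real.exp_add, e1, Real.exp_log (by positivity)]
      field_simp
    have e3 : Real.exp (-(α * L)) = 1 / U ^ α := by rw [Real.exp_neg, e1, one_div]
    have h2 : 0 < U ^ α / U := by positivity
    rw [e2, e1, e3, mul_div_cancel_right₀ _ hL0.ne', Rf_eq (by linarith), Rf_eq h1, ← hL]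
    field_simp
    ring
  unfold VR
  rw [setIntegral_congr_fun measurableSet_Ioi key,
    integral_comp_mul_right_Ioi (fun y => U / L * (tn R (y / L) * (Real.exp (-y) * ed (dl U 1) y ^ 2))) 0 hL0, zero_mul,
    integral_const_mul, smul_eq_mul]
  field_simp

lemma dl_Ut {T s : ℝ} (hT : 0 < T) (hs : 0 < s) : dl (Ut T s) 1 = s / T := by
  have hδ : 0 < s / T := by positivity
  unfold dl Ut
  have h1 : 0 < Real.exp (s / T) - 1 := by
    have := Real.add_one_lt_exp (x := s / T) hδ.ne'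
    linarith
  rw [one_mul, one_div_one_div, add_sub_cancel, Real.log_exp]

lemma Ut_up {T s : ℝ} (hT : 0 < T) (hs : 0 < s) : s * Ut T s ≤ T := by
  have hδ : 0 < s / T := by positivity
  have h1 := Real.add_one_lt_exp (x := s / T) hδ.ne'
  have h2 : 0 < Real.exp (s / T) - 1 := by linarith
  unfold Ut
  rw [mul_one_div, div_le_iff₀ h2]
  have : T * (s / T) = s := by field_simp
  nlinarith

lemma Ut_low {T s : ℝ} (hT : 2 ≤ T) (hs : 0 < s) (hs2 : s ≤ 2) : T - s ≤ s * Ut T s := by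
  have hT0 : 0 < T := by linarith
  have hδ : 0 < s / T := by positivity
  have h1 := Real.add_one_lt_exp (x := s / T) hδ.ne'
  have h2 : 0 < Real.exp (s / T) - 1 := by linarith
  have h3 := (abs_le.1 (Real.abs_exp_sub_one_sub_id_le (x := s / T) (by
    rw [abs_of_pos hδ, div_le_one hT0]; linarith))).2
  unfold Ut
  rw [mul_one_div, le_div_iff₀ h2]
  have h4 : Real.exp (s / T) - 1 ≤ s / T + (s / T) ^ 2 := by linarith
  rcases le_total T s with h | h
  · have : (T - s) * (Real.exp (s / T) - 1) ≤ 0 := mul_nonpos_of_nonpos_of_nonneg (by linarith) h2.le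
    linarith
  · calc (T - s) * (Real.exp (s / T) - 1) ≤ (T - s) * (s / T + (s / T) ^ 2) := by
          apply mul_le_mul_of_nonneg_left h4
          linarith
      _ = s - s * (s / T) ^ 2 := by field_simp; ring
      _ ≤ s := by
          have : 0 ≤ s * (s / T) ^ 2 := by positivity
          linarith

/-- **the comparison** -/
theorem Mk (hRH : RiemannHypothesis) {R : ℝ} (hR : 0 < R) : ∃ C : ℝ, 0 < C ∧ ∀ θ κ : ℝ, 0 < θ → θ ≤ 1 → 0 < κ → κ ≤ 1 →
    ∀ᶠ T in atTop, ∀ s : ℝ, 1 < s → s ≤ 1 + κ →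
      s * VR R (Ut T s) ≤ (1 + θ) ^ 2 * VR R (Ut T 1) + (1 + 1 / θ) * C * √κ := by
  obtain ⟨CW, L0, hCW, hL0, hW⟩ := Wv_up hRH (c1 := 1 / 2) (by norm_num)
  refine ⟨2 * (R * Real.exp R * Real.exp 2 * CW * (4 * 4096)), by positivity, fun θ κ hθ hθ1 hκ hκ1 => ?_⟩
  have hχ : Tendsto (fun T : ℝ => (T / (T - 1)) * (Real.log T / (Real.log T - 2)) ^ 2) atTop (𝓝 (1 * 1 ^ 2)) := by
    refine Tendsto.mul ?_ (Tendsto.pow ?_ 2)
    · have h1 : Tendsto (fun T : ℝ => 1 + 1 / (T - 1)) atTop (𝓝 (1 + 0)) :=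
        (tendsto_const_nhds.div_atTop (tendsto_atTop_add_const_right _ (-1) tendsto_id)).const_add 1
      rw [add_zero] at h1
      refine h1.congr' ?_
      filter_upwards [eventually_gt_atTop 1] with T hT
      have : T - 1 ≠ 0 := by linarith
      field_simp
      ring
    · have h1 : Tendsto (fun T : ℝ => 1 + 2 / (Real.log T - 2)) atTop (𝓝 (1 + 0)) :=
        (tendsto_const_nhds.div_atTop (tendsto_atTop_add_const_right _ (-2) Real.tendsto_log_atTop)).const_add 1
      rw [add_zero] at h1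
      refine h1.congr' ?_
      filter_upwards [Real.tendsto_log_atTop.eventually_gt_atTop 2] with T hT
      have : Real.log T - 2 ≠ 0 := by linarith
      field_simp
      ring
  rw [one_pow, mul_one] at hχ
  filter_upwards [hχ.eventually (gt_mem_nhds (show 1 < 1 + θ by linarith)), eventually_ge_atTop 64,
    Real.tendsto_log_atTop.eventually_ge_atTop (max L0 6)] with T k1 k2 k3 s hs1 hs2
  have hT0 : 0 < T := by linarith
  have hs0 : 0 < s := by linarith
  have hs22 : s ≤ 2 := by linarith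
  have hLL : L0 ≤ Real.log T := (le_max_left _ _).trans k3
  have hL6 : 6 ≤ Real.log T := (le_max_right _ _).trans k3
  obtain ⟨U1, hU1⟩ : ∃ U1 : ℝ, U1 = Ut T 1 := ⟨_, rfl⟩
  obtain ⟨Us, hUs⟩ : ∃ Us : ℝ, Us = Ut T s := ⟨_, rfl⟩
  have a1 : U1 ≤ T := by
    have := Ut_up hT0 one_pos
    rw [one_mul] at this
    rw [hU1]; exact this
  have a2 : T - 1 ≤ U1 := by
    have := Ut_low (show 2 ≤ T by linarith) one_pos one_le_two
    rw [one_mul] at this
    rw [hU1]; exact this
  have a3 : s * Us ≤ T := by rw [hUs]; exact Ut_up hT0 hs0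
  have a4 : T - s ≤ s * Us := by rw [hUs]; exact Ut_low (by linarith) hs0 hs22
  have hU1p : 0 < U1 := by linarith
  have hUsp : 0 < Us := by
    by_contra hcon
    rw [not_lt] at hcon
    nlinarith
  have hUs16 : 16 ≤ Us := by nlinarith
  have hU116 : 16 ≤ U1 := by linarith
  have hUsU1 : Us ≤ U1 := by
    rw [hUs, hU1]
    unfold Ut
    have h1 : (1 : ℝ) / T ≤ s / T := by gcongr
    have h2 : 0 < Real.exp (1 / T) - 1 := by
      have := Real.add_one_lt_exp (x := 1 / T) (by positivity)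
      have h3 : 0 < 1 / T := by positivity
      linarith
    apply one_div_le_one_div_of_le h2
    have := Real.exp_le_exp.2 h1
    linarith
  obtain ⟨L1, hL1⟩ : ∃ L1 : ℝ, L1 = Real.log U1 := ⟨_, rfl⟩
  obtain ⟨Ls, hLs⟩ : ∃ Ls : ℝ, Ls = Real.log Us := ⟨_, rfl⟩
  have b1 : L1 ≤ Real.log T := by rw [hL1]; exact Real.log_le_log hU1p a1
  have b2 : Ls ≤ L1 := by rw [hL1, hLs]; exact Real.log_le_log hUsp hUsU1
  have b3 : Real.log T - 2 ≤ Ls := by
    have h1 : T / 4 ≤ Us := by nlinarith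
    have h2 : Real.log (T / 4) ≤ Ls := by rw [hLs]; exact Real.log_le_log (by positivity) h1
    rw [Real.log_div hT0.ne' (by norm_num)] at h2
    have h3 : Real.log 4 ≤ 2 := by
      rw [show (4 : ℝ) = 2 ^ 2 by norm_num, Real.log_pow]
      have := Real.log_two_lt_d9
      push_cast
      linarith
    linarith
  have hLsp : 4 ≤ Ls := by linarith
  have hL1p : 4 ≤ L1 := by linarith
  have hLs0 : 0 < Ls := by linarith
  have hL10 : 0 < L1 := by linarith
  -- the functions
  obtain ⟨h, hh⟩ : ∃ h : ℝ, h = 1 / T := ⟨_, rfl⟩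
  obtain ⟨σ, hσ⟩ : ∃ σ : ℝ, σ = (s - 1) / T := ⟨_, rfl⟩
  have hh0 : 0 < h := by rw [hh]; positivity
  have hσ0 : 0 < σ := by
    rw [hσ]
    have : 0 < s - 1 := by linarith
    positivity
  have d1 : dl U1 1 = h := by rw [hU1, dl_Ut hT0 one_pos, hh]
  have ds : dl Us 1 = σ + h := by rw [hUs, dl_Ut hT0 hs0, hh, hσ]; ring
  have hsplit : ∀ y : ℝ, ed (σ + h) y = ed h y + ed σ (y + h) := by
    intro y
    unfold ed
    rw [show y + h + σ = y + (σ + h) by ring]
    ring
  have v1 := VR_y (R := R) hU116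
  have v2 := VR_y (R := R) hUs16
  rw [← hL1, d1] at v1
  rw [← hLs, ds] at v2
  obtain ⟨I1, hI1⟩ : ∃ I1 : ℝ, I1 = ∫ y in Ioi 0, tn R (y / L1) * (Real.exp (-y) * ed h y ^ 2) := ⟨_, rfl⟩
  obtain ⟨I2, hI2⟩ : ∃ I2 : ℝ, I2 = ∫ y in Ioi 0, tn R (y / L1) * (Real.exp (-y) * ed σ (y + h) ^ 2) := ⟨_, rfl⟩
  rw [← hI1] at v1
  have i0 : ∀ {δ L : ℝ}, 1 ≤ L → IntegrableOn (fun y => tn R (y / L) * (Real.exp (-y) * ed δ y ^ 2)) (Ioi 0) := by
    intro δ L hL
    have := tne_int hRH (R := R) (L := L) (δ := δ) (d := 0) hR hL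
    simpa using this
  have i1 := i0 (δ := h) (L := L1) (by linarith)
  have i2 := tne_int hRH (R := R) (L := L1) (δ := σ) (d := h) hR (by linarith)
  have i3 := i0 (δ := σ + h) (L := Ls) (by linarith)
  have m1 : ∫ y in Ioi 0, tn R (y / Ls) * (Real.exp (-y) * ed (σ + h) y ^ 2) ≤ (1 + θ) * I1 + (1 + 1 / θ) * I2 := by
    rw [hI1, hI2, ← integral_const_mul, ← integral_const_mul, ← integral_add (i1.const_mul _) (i2.const_mul _)]
    refine setIntegral_mono_on i3 ((i1.const_mul _).add (i2.const_mul _)) measurableSet_Ioi fun y hy => ?_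
    have hy0 : (0 : ℝ) < y := hy
    have t0 : tn R (y / Ls) ≤ tn R (y / L1) := by
      unfold tn
      apply max_le_max le_rfl
      have : y / L1 ≤ y / Ls := by gcongr
      linarith
    have t1 : 0 ≤ tn R (y / L1) := le_max_left _ _
    have t2 := sq_split (a := ed h y) (b := ed σ (y + h)) hθ
    rw [← hsplit] at t2
    calc tn R (y / Ls) * (Real.exp (-y) * ed (σ + h) y ^ 2) ≤
        tn R (y / L1) * (Real.exp (-y) * ((1 + θ) * ed h y ^ 2 + (1 + 1 / θ) * ed σ (y + h) ^ 2)) := by gcongr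
      _ = _ := by ring
  -- the bound for `I2`
  have m2 : I2 ≤ R * Real.exp R * Real.exp 2 * Wv (1 / (2 * L1)) σ := by
    obtain ⟨η, hη⟩ : ∃ η : ℝ, η = 1 / (2 * L1) := ⟨_, rfl⟩
    have hη0 : 0 < η := by rw [hη]; positivity
    have hη1 : η ≤ 1 / 2 := by
      rw [hη, div_le_div_iff₀ (by positivity) (by norm_num)]; linarith
    have j1 := (ed_int hRH hη0 hη1 σ)
    have j2 := (j1.comp_add_right h)
    have e0 : ∀ y : ℝ, Real.exp (-(1 / L1) * y) * Real.exp (-y) =
        Real.exp ((1 + 2 * η) * h) * Real.exp (-(1 + 2 * η) * (y + h)) := by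
      intro y
      rw [← Real.exp_add, ← Real.exp_add, hη]
      congr 1
      field_simp
      ring
    have j3 : I2 ≤ ∫ y in Ioi 0, R * Real.exp R * Real.exp ((1 + 2 * η) * h) *
        (Real.exp (-(1 + 2 * η) * (y + h)) * ed σ (y + h) ^ 2) := by
      rw [hI2]
      refine setIntegral_mono_on i2 (j2.integrableOn.const_mul _) measurableSet_Ioi fun y hy => ?_
      have hy0 : (0 : ℝ) < y := hy
      rcases tn_le (y := y) hR hL10 with q | q
      · calc tn R (y / L1) * (Real.exp (-y) * ed σ (y + h) ^ 2) ≤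
            R * Real.exp R * Real.exp (-(1 / L1) * y) * (Real.exp (-y) * ed σ (y + h) ^ 2) := by gcongr
          _ = R * Real.exp R * ((Real.exp (-(1 / L1) * y) * Real.exp (-y)) * ed σ (y + h) ^ 2) := by ring
          _ = _ := by rw [e0]; ring
      · linarith
    rw [integral_const_mul, shift_Ioi (fun y => Real.exp (-(1 + 2 * η) * y) * ed σ y ^ 2) 0 h, zero_add] at j3
    have j4 : ∫ y in Ioi h, Real.exp (-(1 + 2 * η) * y) * ed σ y ^ 2 ≤ Wv η σ := by
      unfold Wv
      exact setIntegral_mono_set j1.integrableOn (ae_of_all _ fun y => by positivity)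
        (Ioi_subset_Ioi hh0.le).eventuallyLE
    have j5 : Real.exp ((1 + 2 * η) * h) ≤ Real.exp 2 := by
      apply Real.exp_le_exp.2
      have : h ≤ 1 := by rw [hh, div_le_one hT0]; linarith
      nlinarith
    rw [← hη]
    have j6 : 0 ≤ Wv η σ := Wv_nonneg _ _
    calc I2 ≤ R * Real.exp R * Real.exp ((1 + 2 * η) * h) * ∫ y in Ioi h, Real.exp (-(1 + 2 * η) * y) * ed σ y ^ 2 := j3
      _ ≤ R * Real.exp R * Real.exp ((1 + 2 * η) * h) * Wv η σ := by gcongr
      _ ≤ _ := by gcongr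
  -- the bound for `Wv`
  obtain ⟨x, hx⟩ : ∃ x : ℝ, x = s - 1 := ⟨_, rfl⟩
  have hx0 : 0 < x := by linarith
  have hxκ : x ≤ κ := by linarith
  have hx1 : x ≤ 1 := by linarith
  have hlx : Real.log x ≤ 0 := Real.log_nonpos hx0.le hx1
  have m3 : Wv (1 / (2 * L1)) σ ≤ CW * (σ * (2 * L1 * (1 + |Real.log x|)) ^ 2) := by
    obtain ⟨L2, hL2⟩ : ∃ L2 : ℝ, L2 = -Real.log σ := ⟨_, rfl⟩
    have e1 : L2 = Real.log T + |Real.log x| := by
      rw [hL2, hσ, ← hx, Real.log_div hx0.ne' hT0.ne', abs_of_nonpos hlx]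
      ring
    have hax := abs_nonneg (Real.log x)
    have h1 := hW L2 σ (1 / (2 * L1)) (by linarith) hσ0 (by rw [hL2]; simp) (by
      rw [div_mul_eq_mul_div, one_mul, le_div_iff₀ (by positivity)]
      linarith) (by rw [div_le_div_iff₀ (by positivity) (by norm_num)]; linarith)
    have h2 : L2 ≤ 2 * L1 * (1 + |Real.log x|) := by
      rw [e1]
      nlinarith
    have h3 : 0 ≤ L2 := by rw [e1]; linarith
    refine h1.trans ?_
    gcongr
  have m4 : U1 / L1 ^ 2 * I2 ≤ R * Real.exp R * Real.exp 2 * CW * (4 * 4096) * √κ := by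
    have h1 : U1 * σ ≤ x := by
      rw [hσ, ← hx, ← mul_div_assoc, div_le_iff₀ hT0]
      nlinarith
    have h2 : x * (1 + |Real.log x|) ^ 2 ≤ 4096 * √κ := by
      have h3 := four_le hx0 hx1
      have h4 : (1 + |Real.log x|) ^ 2 ≤ (1 + |Real.log x|) ^ 4 :=
        pow_le_pow_right₀ (by linarith [abs_nonneg (Real.log x)]) (by norm_num)
      calc x * (1 + |Real.log x|) ^ 2 ≤ x * (1 + |Real.log x|) ^ 4 := by gcongr
        _ ≤ 4096 * √x := h3
        _ ≤ _ := by gcongr
    calc U1 / L1 ^ 2 * I2 ≤ U1 / L1 ^ 2 * (R * Real.exp R * Real.exp 2 * (CW * (σ * (2 * L1 * (1 + |Real.log x|)) ^ 2))) := by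
          gcongr
          exact m2.trans (by gcongr)
      _ = R * Real.exp R * Real.exp 2 * CW * 4 * ((U1 * σ) * (1 + |Real.log x|) ^ 2) := by field_simp; ring
      _ ≤ R * Real.exp R * Real.exp 2 * CW * 4 * (x * (1 + |Real.log x|) ^ 2) := by gcongr
      _ ≤ R * Real.exp R * Real.exp 2 * CW * 4 * (4096 * √κ) := by gcongr
      _ = _ := by ring
  -- the factor
  have m5 : s * Us / Ls ^ 2 ≤ (1 + θ) * (U1 / L1 ^ 2) := by
    have h1 : s * Us / Ls ^ 2 ≤ (T / (T - 1)) * (Real.log T / (Real.log T - 2)) ^ 2 * (U1 / L1 ^ 2) := by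
      have h2 : (T / (T - 1)) * (Real.log T / (Real.log T - 2)) ^ 2 * (U1 / L1 ^ 2) =
          T * (U1 / (T - 1)) * ((Real.log T / L1) ^ 2 / (Real.log T - 2) ^ 2) := by
        field_simp
      rw [h2]
      have h3 : 1 ≤ U1 / (T - 1) := by rw [one_le_div (by linarith)]; exact a2
      have h4 : 1 ≤ Real.log T / L1 := by rw [one_le_div hL10]; exact b1
      have h5 : 0 < Real.log T - 2 := by linarith
      calc s * Us / Ls ^ 2 ≤ T / (Real.log T - 2) ^ 2 := by gcongr
        _ = T * 1 * (1 ^ 2 / (Real.log T - 2) ^ 2) := by ring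
        _ ≤ _ := by gcongr
    refine h1.trans ?_
    gcongr
  have hI1n : 0 ≤ I1 := by
    rw [hI1]
    exact setIntegral_nonneg measurableSet_Ioi fun y _ => mul_nonneg (le_max_left _ _) (by positivity)
  have hI2n : 0 ≤ I2 := by
    rw [hI2]
    exact setIntegral_nonneg measurableSet_Ioi fun y _ => mul_nonneg (le_max_left _ _) (by positivity)
  rw [← hU1, ← hUs, v1, v2]
  have hθ' : 0 < 1 + 1 / θ := by positivity
  calc s * (Us / Ls ^ 2 * ∫ y in Ioi 0, tn R (y / Ls) * (Real.exp (-y) * ed (σ + h) y ^ 2)) ≤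
      s * (Us / Ls ^ 2 * ((1 + θ) * I1 + (1 + 1 / θ) * I2)) := by gcongr
    _ = s * Us / Ls ^ 2 * ((1 + θ) * I1 + (1 + 1 / θ) * I2) := by ring
    _ ≤ (1 + θ) * (U1 / L1 ^ 2) * ((1 + θ) * I1 + (1 + 1 / θ) * I2) := by
        have : 0 ≤ (1 + θ) * I1 + (1 + 1 / θ) * I2 := by positivity
        gcongr
    _ = (1 + θ) ^ 2 * (U1 / L1 ^ 2 * I1) + (1 + θ) * ((1 + 1 / θ) * (U1 / L1 ^ 2 * I2)) := by ring
    _ ≤ (1 + θ) ^ 2 * (U1 / L1 ^ 2 * I1) + 2 * ((1 + 1 / θ) * (R * Real.exp R * Real.exp 2 * CW * (4 * 4096) * √κ)) := by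
        have h1 : 1 + θ ≤ 2 := by linarith
        have h2 : 0 ≤ U1 / L1 ^ 2 * I2 := by positivity
        gcongr
    _ = _ := by ring

end Pool.Agent.U507.AH
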