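import Pool.Agent.U507.AH.E11

/-!
# The converse
-/

set_option autoImplicit false

open Complex Filter Topology Set MeasureTheory Metric
open scoped Real

namespace Pool.Agent.U507.AH

open Pool.Agent.U507.GM hiding step_low low_pt low_unif rigid
open Pool.Agent.U507.PC
open Pool.Agent.Y749.Rig (nT)
open Pool.Agent.Y763.AH (PT)

/-- a bump -/
noncomputable def bp (a b s : ℝ) : ℝ := max 0 (min (s - a) (b - s))

lemma bp_cont (a b : ℝ) : Continuous (bp a b) := by unfold bp; fun_prop

lemma bp_nonneg (a b s : ℝ) : 0 ≤ bp a b s := le_max_left _ _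

lemma bp_out {a b s : ℝ} (h : s ≤ a ∨ b ≤ s) : bp a b s = 0 := by
  unfold bp
  apply max_eq_left
  rcases h with h | h
  · exact (min_le_left _ _).trans (by linarith)
  · exact (min_le_right _ _).trans (by linarith)

lemma bp_int {a b : ℝ} (ha : 0 < a) (hab : a < b) : IntegrableOn (bp a b) (Ioi 0) ∧ 0 < ∫ s in Ioi 0, bp a b s := by
  have hi : Integrable (bp a b) := by
    refine (bp_cont a b).integrable_of_hasCompactSupport ?_
    refine HasCompactSupport.of_support_subset_isCompact (isCompact_Icc (a := a) (b := b)) ?_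
    intro x hx
    by_contra hcon
    apply hx
    rw [mem_Icc, not_and_or, not_le, not_le] at hcon
    exact bp_out (hcon.imp le_of_lt le_of_lt)
  refine ⟨hi.integrableOn, ?_⟩
  obtain ⟨c, hc⟩ : ∃ c : ℝ, c = (3 * a + b) / 4 := ⟨_, rfl⟩
  obtain ⟨d, hd⟩ : ∃ d : ℝ, d = (a + 3 * b) / 4 := ⟨_, rfl⟩
  have h1 : ∫ s in Icc c d, ((b - a) / 4 : ℝ) ≤ ∫ s in Icc c d, bp a b s := by
    refine setIntegral_mono_on (integrableOn_const (by rw [Real.volume_Icc]; exact ENNReal.ofReal_ne_top))
      hi.integrableOn measurableSet_Icc fun s hs => ?_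
    have h2 := hs.1
    have h3 := hs.2
    unfold bp
    refine le_max_of_le_right (le_min ?_ ?_) <;> linarith
  rw [setIntegral_const, Real.volume_real_Icc, smul_eq_mul, max_eq_left (by linarith)] at h1
  have h2 : ∫ s in Icc c d, bp a b s ≤ ∫ s in Ioi 0, bp a b s := by
    refine setIntegral_mono_set hi.integrableOn (ae_of_all _ fun s => bp_nonneg a b s) ?_
    refine HasSubset.Subset.eventuallyLE fun s hs => ?_
    have h2 := hs.1
    have : 0 < s := by linarith
    exact this
  have h3 : 0 < (d - c) * ((b - a) / 4) := by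
    have : d - c = (b - a) / 2 := by rw [hc, hd]; ring
    rw [this]
    have : 0 < b - a := by linarith
    positivity
  linarith

/-- **the converse**: a small sum over the pairs gives minimal variance -/
theorem a_to_c (hRH : RiemannHypothesis) {R : ℝ} (hR : 0 < R)
    (hx : Tendsto (fun T => PT R T / nT T) atTop (𝓝 0)) : Tendsto (fun T => VR R T) atTop (𝓝 ((R ^ 2 - R) / 2)) := by
  obtain ⟨C, U0, hC, hU0, hv, hV, havg⟩ := avg_all hRH hR hx
  obtain ⟨CM, hCM, hM⟩ := Mk hRH hR
  obtain ⟨v, hvd⟩ : ∃ v : ℝ, v = (R ^ 2 - R) / 2 := ⟨_, rfl⟩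
  rw [← hvd] at hv ⊢
  simp only [← hvd] at havg
  -- both inequalities
  have hbig : ∀ᶠ T : ℝ in atTop, ∀ s : ℝ, 0 < s → s ≤ 2 → V0 R U0 (Ut T s) = VR R (Ut T s) := by
    filter_upwards [Real.tendsto_sqrt_atTop.eventually_ge_atTop (2 * U0 + 2), eventually_ge_atTop 16] with T h1 h2 s hs hs2
    have := Ut_facts h2 hs (by linarith)
    unfold V0
    rw [if_pos (by linarith)]
  have key : ∀ δ : ℝ, 0 < δ → δ ≤ 1 → ∀ᶠ T in atTop, |VR R (Ut T 1) - v| ≤ δ * (3 * C + 3 * v + 8) := by
    intro δ hδ hδ1
    -- choice of `κ`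
    obtain ⟨κ, hκ0, hκ1, hκ2⟩ : ∃ κ : ℝ, 0 < κ ∧ κ ≤ 1 ∧ (1 + 1 / δ) * CM * √κ ≤ δ := by
      obtain ⟨q, hq⟩ : ∃ q : ℝ, q = min 1 (δ / ((1 + 1 / δ) * CM)) := ⟨_, rfl⟩
      have hq0 : 0 < q := by rw [hq]; exact lt_min one_pos (by positivity)
      have hq1 : q ≤ 1 := by rw [hq]; exact min_le_left _ _
      refine ⟨q ^ 2, by positivity, by nlinarith, ?_⟩
      rw [Real.sqrt_sq hq0.le]
      have : q ≤ δ / ((1 + 1 / δ) * CM) := by rw [hq]; exact min_le_right _ _
      rw [le_div_iff₀ (by positivity)] at this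
      linarith
    obtain ⟨D, hD⟩ : ∃ D : ℝ, D = (1 + 1 / δ) * CM * √κ := ⟨_, rfl⟩
    have hMk := hM δ κ hδ hδ1 hκ0 hκ1
    rw [← hD] at hMk hκ2
    have hD0 : 0 ≤ D := by rw [hD]; positivity
    -- first bump
    obtain ⟨i1, p1⟩ := bp_int (a := 1) (b := 1 + κ) one_pos (by linarith)
    obtain ⟨i2, p2⟩ := bp_int (a := 1 - κ / 2) (b := 1) (by linarith) (by linarith)
    have g1 := havg (bp 1 (1 + κ)) (bp_cont _ _) (1 + κ) fun x hx => bp_out (Or.inr hx)
    have g2 := havg (bp (1 - κ / 2) 1) (bp_cont _ _) 1 fun x hx => bp_out (Or.inr hx)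
    obtain ⟨H1, hH1⟩ : ∃ H1 : ℝ, H1 = ∫ s in Ioi 0, bp 1 (1 + κ) s := ⟨_, rfl⟩
    obtain ⟨H2, hH2⟩ : ∃ H2 : ℝ, H2 = ∫ s in Ioi 0, bp (1 - κ / 2) 1 s := ⟨_, rfl⟩
    rw [← hH1] at p1
    rw [← hH2] at p2
    -- integrability
    have hint : ∀ a b : ℝ, 0 < a → a < b → b ≤ 2 → ∀ T : ℝ,
        IntegrableOn (fun s => s * V0 R U0 (Ut T s) * bp a b s) (Ioi 0) := by
      intro a b ha hab hb2 T
      refine Integrable.mono' ((bp_int ha hab).1.const_mul (2 * C)) ?_ ?_
      · exact ((measurable_id.mul ((V0_meas R U0).comp (Ut_meas T))).mul (bp_cont a b).measurable).aestronglyMeasurable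
      · refine (ae_restrict_iff' measurableSet_Ioi).2 (Filter.Eventually.of_forall fun s hs => ?_)
        have hs0 : (0 : ℝ) < s := hs
        obtain ⟨b1, b2⟩ := hV (Ut T s)
        have b3 := bp_nonneg a b s
        rw [Real.norm_eq_abs, abs_of_nonneg (by positivity)]
        rcases le_total b s with h | h
        · rw [bp_out (Or.inr h), mul_zero, mul_zero]
        · have : s ≤ 2 := by linarith
          gcongr
    have l1 : v * H1 ≤ ∫ s in Ioi 0, v * s * bp 1 (1 + κ) s := by
      rw [hH1, ← integral_const_mul]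
      have hi : IntegrableOn (fun s => v * s * bp 1 (1 + κ) s) (Ioi 0) := by
        refine Integrable.mono' (i1.const_mul (2 * v)) ?_ ?_
        · exact (((by fun_prop : Measurable fun s : ℝ => v * s)).mul (bp_cont _ _).measurable).aestronglyMeasurable
        · refine (ae_restrict_iff' measurableSet_Ioi).2 (Filter.Eventually.of_forall fun s hs => ?_)
          have hs0 : (0 : ℝ) < s := hs
          have b3 := bp_nonneg 1 (1 + κ) s
          rw [Real.norm_eq_abs, abs_of_nonneg (by positivity)]
          rcases le_total (1 + κ) s with h | h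
          · rw [bp_out (Or.inr h), mul_zero, mul_zero]
          · have : v * s ≤ 2 * v := by nlinarith
            gcongr
      refine setIntegral_mono_on (i1.const_mul _) hi measurableSet_Ioi fun s hs => ?_
      have b3 := bp_nonneg 1 (1 + κ) s
      rcases le_total s 1 with h | h
      · rw [bp_out (Or.inl h), mul_zero, mul_zero]
      · have : v ≤ v * s := by nlinarith
        gcongr
    have l2 : ∫ s in Ioi 0, v * s * bp (1 - κ / 2) 1 s ≤ v * H2 := by
      rw [hH2, ← integral_const_mul]
      refine integral_mono_of_nonneg ?_ (i2.const_mul _) ?_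
      · refine (ae_restrict_iff' measurableSet_Ioi).2 (Filter.Eventually.of_forall fun s hs => ?_)
        have hs0 : (0 : ℝ) < s := hs
        have b3 := bp_nonneg (1 - κ / 2) 1 s
        simp only [Pi.zero_apply]
        positivity
      · refine (ae_restrict_iff' measurableSet_Ioi).2 (Filter.Eventually.of_forall fun s hs => ?_)
        have hs0 : (0 : ℝ) < s := hs
        have b3 := bp_nonneg (1 - κ / 2) 1 s
        simp only
        rcases le_total 1 s with h | h
        · rw [bp_out (Or.inr h), mul_zero, mul_zero]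
        · have : v * s ≤ v := by nlinarith
          gcongr
    obtain ⟨T1, hT1⟩ := eventually_atTop.1 hMk
    filter_upwards [g1.eventually (lt_mem_nhds (show (∫ s in Ioi 0, v * s * bp 1 (1 + κ) s) - δ * H1 <
        ∫ s in Ioi 0, v * s * bp 1 (1 + κ) s by have : 0 < δ * H1 := by positivity
                                                linarith)),
      g2.eventually (gt_mem_nhds (show (∫ s in Ioi 0, v * s * bp (1 - κ / 2) 1 s) <
        (∫ s in Ioi 0, v * s * bp (1 - κ / 2) 1 s) + δ * H2 by have : 0 < δ * H2 := by positivity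
                                                               linarith)),
      hMk, eventually_ge_atTop (max T1 16), hbig] with T k1 k2 k3 k4 k5
    have t1 : T1 ≤ T := (le_max_left _ _).trans k4
    have t2 : 16 ≤ T := (le_max_right _ _).trans k4
    have hT0 : 0 < T := by linarith
    obtain ⟨f, hf⟩ : ∃ f : ℝ, f = VR R (Ut T 1) := ⟨_, rfl⟩
    rw [← hf] at k3 ⊢
    have hfC : 0 ≤ f ∧ f ≤ C := by
      have := hV (Ut T 1)
      rw [k5 1 one_pos one_le_two, ← hf] at this
      exact this
    -- lower bound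
    have u1 : ∫ s in Ioi 0, s * V0 R U0 (Ut T s) * bp 1 (1 + κ) s ≤ ((1 + δ) ^ 2 * f + D) * H1 := by
      rw [hH1, ← integral_const_mul]
      refine setIntegral_mono_on (hint 1 (1 + κ) one_pos (by linarith) (by linarith) T) (i1.const_mul _) measurableSet_Ioi
        fun s hs => ?_
      have b3 := bp_nonneg 1 (1 + κ) s
      rcases le_or_gt s 1 with h | h
      · rw [bp_out (Or.inl h), mul_zero, mul_zero]
      rcases le_total (1 + κ) s with h' | h'
      · rw [bp_out (Or.inr h'), mul_zero, mul_zero]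
      · rw [k5 s (by linarith) (by linarith)]
        have := k3 s h h'
        gcongr
    -- upper bound
    have u2 : f * H2 ≤ (1 + δ) ^ 2 * (∫ s in Ioi 0, s * V0 R U0 (Ut T s) * bp (1 - κ / 2) 1 s) + D * H2 := by
      rw [hH2, ← integral_const_mul, ← integral_const_mul, ← integral_const_mul]
      have j1 := hint (1 - κ / 2) 1 (by linarith) (by linarith) one_le_two T
      rw [← integral_add (j1.const_mul _) (i2.const_mul _)]
      refine setIntegral_mono_on (i2.const_mul _) ((j1.const_mul _).add (i2.const_mul _)) measurableSet_Ioi fun s hs => ?_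
      have b3 := bp_nonneg (1 - κ / 2) 1 s
      rcases le_or_gt s (1 - κ / 2) with h | h
      · rw [bp_out (Or.inl h), mul_zero, mul_zero, mul_zero, mul_zero, add_zero]
      rcases le_or_gt 1 s with h' | h'
      · rw [bp_out (Or.inr h'), mul_zero, mul_zero, mul_zero, mul_zero, add_zero]
      · have hs0 : 0 < s := by linarith
        rw [k5 s hs0 (by linarith)]
        have hs1 : 1 < 1 / s := by rw [lt_div_iff₀ hs0]; linarith
        have hs2 : 1 / s ≤ 1 + κ := by
          rw [div_le_iff₀ hs0]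
          nlinarith
        have hTs : T1 ≤ T / s := by
          refine t1.trans ?_
          rw [le_div_iff₀ hs0]
          nlinarith
        have h3 := hT1 (T / s) hTs (1 / s) hs1 hs2
        have e1 : Ut (T / s) (1 / s) = Ut T 1 := by
          unfold Ut
          congr 3
          field_simp
        have e2 : Ut (T / s) 1 = Ut T s := by
          unfold Ut
          congr 3
          field_simp
        rw [e1, e2, ← hf] at h3
        have h4 : f ≤ (1 + δ) ^ 2 * (s * VR R (Ut T s)) + D := by
          have h5 : s * (1 / s * f) ≤ s * ((1 + δ) ^ 2 * VR R (Ut T s) + D) := by gcongr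
          have h6 : s * (1 / s * f) = f := by field_simp
          rw [h6] at h5
          have h7 : s * D ≤ D := by nlinarith
          nlinarith
        calc f * bp (1 - κ / 2) 1 s ≤ ((1 + δ) ^ 2 * (s * VR R (Ut T s)) + D) * bp (1 - κ / 2) 1 s := by gcongr
          _ = _ := by ring
    have w1' : v * H1 ≤ ((1 + δ) ^ 2 * f + D + δ) * H1 := by
      have : ((1 + δ) ^ 2 * f + D + δ) * H1 = ((1 + δ) ^ 2 * f + D) * H1 + δ * H1 := by ring
      linarith
    have w1'' : v ≤ (1 + δ) ^ 2 * f + D + δ := le_of_mul_le_mul_right w1' p1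
    have w2' : f * H2 ≤ ((1 + δ) ^ 2 * (v + δ) + D) * H2 := by
      have h1 : (1 + δ) ^ 2 * (∫ s in Ioi 0, s * V0 R U0 (Ut T s) * bp (1 - κ / 2) 1 s) ≤ (1 + δ) ^ 2 * (v * H2 + δ * H2) := by
        gcongr
        linarith
      have : ((1 + δ) ^ 2 * (v + δ) + D) * H2 = (1 + δ) ^ 2 * (v * H2 + δ * H2) + D * H2 := by ring
      linarith
    have w2'' : f ≤ (1 + δ) ^ 2 * (v + δ) + D := le_of_mul_le_mul_right w2' p2
    have hq : (1 + δ) ^ 2 ≤ 1 + 3 * δ := by nlinarith
    have m1 : (1 + δ) ^ 2 * f ≤ (1 + 3 * δ) * f := mul_le_mul_of_nonneg_right hq hfC.1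
    have m2 : (1 + δ) ^ 2 * (v + δ) ≤ (1 + 3 * δ) * (v + δ) := mul_le_mul_of_nonneg_right hq (by linarith)
    have m3 : δ * f ≤ δ * C := by gcongr; exact hfC.2
    have m4 : 0 ≤ δ * v := by positivity
    have m5 : 0 ≤ δ * C := by positivity
    have m6 : δ * δ ≤ δ := by nlinarith
    rw [abs_le]
    constructor
    · nlinarith
    · nlinarith
  have hlim : Tendsto (fun T => VR R (Ut T 1)) atTop (𝓝 v) := by
    rw [Metric.tendsto_nhds]
    intro ε hε
    obtain ⟨δ, hδ⟩ : ∃ δ : ℝ, δ = min 1 (ε / (2 * (3 * C + 3 * v + 8))) := ⟨_, rfl⟩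
    have hδ0 : 0 < δ := by rw [hδ]; exact lt_min one_pos (by positivity)
    have hδ1 : δ ≤ 1 := by rw [hδ]; exact min_le_left _ _
    have hδ2 : δ * (3 * C + 3 * v + 8) ≤ ε / 2 := by
      have : δ ≤ ε / (2 * (3 * C + 3 * v + 8)) := by rw [hδ]; exact min_le_right _ _
      rw [le_div_iff₀ (by positivity)] at this
      linarith
    filter_upwards [key δ hδ0 hδ1] with T hT
    rw [Real.dist_eq]
    linarith
  -- all heights
  have hinv : Tendsto (fun T : ℝ => 1 / Real.log (1 + 1 / T)) atTop atTop := by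
    refine tendsto_atTop_mono' _ ?_ tendsto_id
    filter_upwards [eventually_gt_atTop 0] with T hT
    have h1 : 0 < 1 / T := by positivity
    have h2 : 0 < Real.log (1 + 1 / T) := Real.log_pos (by linarith)
    have h3 : Real.log (1 + 1 / T) ≤ 1 / T := by
      have := Real.log_le_sub_one_of_pos (show 0 < 1 + 1 / T by positivity)
      linarith
    simp only [id]
    rw [le_div_iff₀ h2]
    calc T * Real.log (1 + 1 / T) ≤ T * (1 / T) := by gcongr
      _ = 1 := by field_simp
  refine (hlim.comp hinv).congr' ?_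
  filter_upwards [eventually_gt_atTop 0] with T hT
  simp only [Function.comp]
  congr 1
  unfold Ut
  have h1 : 0 < 1 / T := by positivity
  rw [one_div_one_div, Real.exp_log (by linarith), add_sub_cancel_left, one_div_one_div]

end Pool.Agent.U507.AH
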