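import Pool.Agent.U507.AH.E12

/-!
# The lower bound for the variance, local version
-/

set_option autoImplicit false

open Complex Filter Topology Set MeasureTheory Metric
open scoped Real

namespace Pool.Agent.U507.AH

open Pool.Agent.U507.GM hiding step_low low_pt low_unif rigid
open Pool.Agent.U507.PC
open Pool.Agent.Y749.Rig (ZZ mm mm_nonneg mem_ZZ Fr Fr_cont Fr_nonneg Fr_even nT nT_pos tr tr_int tr_cont)
open Pool.Agent.Y763.AH (PT PT_nonneg S_eq NZ_lim)

lemma tail_ex {e : ℝ} (he : 0 < e) : ∃ K : ℝ, 1 ≤ K ∧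
    ∫ s in Ioi 0, (Icc (1 / K) K)ᶜ.indicator (fun s : ℝ => s * Real.exp (-s)) s ≤ e := by
  have hsi : IntegrableOn (fun s : ℝ => s * Real.exp (-s)) (Ioi 0) :=
    (exp_pow_int 1).congr_fun (fun s _ => by simp) measurableSet_Ioi
  have h : Tendsto (fun K : ℝ => ∫ s in Ioi (0 : ℝ), (Icc (1 / K) K)ᶜ.indicator (fun s : ℝ => s * Real.exp (-s)) s) atTop
      (𝓝 (∫ s in Ioi (0 : ℝ), (0 : ℝ))) := by
    refine tendsto_integral_filter_of_dominated_convergence (fun s : ℝ => s * Real.exp (-s)) ?_ ?_ hsi ?_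
    · exact Eventually.of_forall fun K => (hsi.indicator measurableSet_Icc.compl).aestronglyMeasurable
    · refine Eventually.of_forall fun K => ?_
      refine (ae_restrict_iff' measurableSet_Ioi).2 (Filter.Eventually.of_forall fun s hs => ?_)
      have hs0 : (0 : ℝ) < s := hs
      by_cases hin : s ∈ (Icc (1 / K) K)ᶜ
      · rw [indicator_of_mem hin, Real.norm_eq_abs, abs_of_nonneg (by positivity)]
      · rw [indicator_of_notMem hin, norm_zero]; positivity
    · refine (ae_restrict_iff' measurableSet_Ioi).2 (Filter.Eventually.of_forall fun s hs => ?_)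
      have hs0 : (0 : ℝ) < s := hs
      refine tendsto_const_nhds.congr' ?_
      filter_upwards [eventually_ge_atTop s, eventually_ge_atTop (1 / s), eventually_gt_atTop 0] with K h1 h2 h3
      rw [indicator_of_notMem]
      rw [notMem_compl_iff]
      refine ⟨?_, h1⟩
      rw [div_le_iff₀ h3]
      rw [div_le_iff₀ hs0] at h2
      linarith
  rw [integral_zero] at h
  obtain ⟨K, h1, h2⟩ := ((h.eventually (gt_mem_nhds he)).and (eventually_ge_atTop 1)).exists
  exact ⟨K, h2, h1.le⟩

lemma Ut_half {T s : ℝ} (hT : 0 < T) (hs : 0 < s) (hsT : s ≤ T) : T ≤ 2 * s * Ut T s := by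
  have hδ : 0 < s / T := by positivity
  have h1 := Real.add_one_lt_exp (x := s / T) hδ.ne'
  have h2 : 0 < Real.exp (s / T) - 1 := by linarith
  have hx1 : s / T ≤ 1 := by rw [div_le_one hT]; exact hsT
  have h3 := (abs_le.1 (Real.abs_exp_sub_one_sub_id_le (x := s / T) (by rw [abs_of_pos hδ]; exact hx1))).2
  unfold Ut
  rw [mul_one_div, le_div_iff₀ h2]
  have h4 : Real.exp (s / T) - 1 ≤ 2 * (s / T) := by nlinarith
  calc T * (Real.exp (s / T) - 1) ≤ T * (2 * (s / T)) := by gcongr
    _ = 2 * s := by field_simp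

/-- **the lower bound for the variance** -/
theorem Kl (hRH : RiemannHypothesis) {R A ε η : ℝ} (hR : 0 < R) {u : ℕ → ℝ} (hu : Tendsto u atTop atTop)
    (hA : ∀ K : ℝ, 1 ≤ K → ∀ᶠ n in atTop, ∀ T ∈ Icc (u n / K) (K * u n), VR R T ≤ A)
    (hx : ∀ n, ∀ κ ∈ Icc 1 (1 + η), ε ≤ PT R (κ * u n) / nT (κ * u n)) :
    (R ^ 2 - R) / 2 + 4 / π * (R ^ 2 * ε / 2) * ∫ t in Icc 1 (1 + η), w1 t * t ≤ A := by
  obtain ⟨C, hC, happ⟩ := approx_all hRH hR
  have hπ := Real.pi_pos
  have hπ3 := Real.pi_gt_three
  obtain ⟨w2, w3⟩ := w1t_int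
  obtain ⟨CV, TV, hCV, hTV, hVb⟩ := VR_bdd hRH hR
  have hA0 : 0 ≤ A := by
    obtain ⟨n, h1, h2⟩ := ((hA 1 le_rfl).and (hu.eventually_ge_atTop 2)).exists
    exact (VR_nonneg h2).trans (h1 (u n) ⟨by simp, by simp⟩)
  obtain ⟨X, hX⟩ : ∃ X : ℝ, X = (R ^ 2 - R) / 2 + 4 / π * (R ^ 2 * ε / 2) * ∫ t in Icc 1 (1 + η), w1 t * t := ⟨_, rfl⟩
  rw [← hX]
  suffices hs : X - A ≤ 0 by linarith
  refine lin_small (b := 3 * C + 5) (by positivity) fun e he he1 => ?_
  obtain ⟨p, hp1, hp2⟩ := happ e he
  obtain ⟨q1, q2, q3⟩ := EEp hRH p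
  obtain ⟨C', T', hC', hT', hdom⟩ := GGp_dom hRH p
  have heC : 0 < e * C := by positivity
  -- the primes
  have hP : ∀ᶠ n in atTop, ∫ s in Ioc 0 √(u n), Real.exp (-s) * (s * LVp p (Ut (u n) s)) ≤ A + e * C + e := by
    obtain ⟨U0, hU0⟩ := eventually_atTop.1 hp2
    obtain ⟨K, hK1, hK⟩ := tail_ex (show 0 < e / CV by positivity)
    have hsi : IntegrableOn (fun s : ℝ => s * Real.exp (-s)) (Ioi 0) :=
      (exp_pow_int 1).congr_fun (fun s _ => by simp) measurableSet_Ioi
    have hii : IntegrableOn ((Icc (1 / K) K)ᶜ.indicator fun s : ℝ => s * Real.exp (-s)) (Ioi 0) :=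
      hsi.indicator measurableSet_Icc.compl
    filter_upwards [hu.eventually q2, hu.eventually (Real.tendsto_sqrt_atTop.eventually_ge_atTop (2 * max U0 TV)),
      hu.eventually_ge_atTop (max 16 K), hA (2 * K) (by linarith)] with n k1 k2 k3 k4
    have k16 : 16 ≤ u n := (le_max_left _ _).trans k3
    have kK : K ≤ u n := (le_max_right _ _).trans k3
    have hT0 : 0 < u n := by linarith
    have hK0 : 0 < K := by linarith
    calc ∫ s in Ioc 0 √(u n), Real.exp (-s) * (s * LVp p (Ut (u n) s)) ≤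
          ∫ s in Ioc 0 √(u n), ((A + e * C) * (s * Real.exp (-s)) +
            CV * ((Icc (1 / K) K)ᶜ.indicator (fun s : ℝ => s * Real.exp (-s)) s)) := by
          refine setIntegral_mono_on k1 (((hsi.mono_set Ioc_subset_Ioi_self).const_mul _).add
            ((hii.mono_set Ioc_subset_Ioi_self).const_mul _)) measurableSet_Ioc fun s hs => ?_
          have hU := Ut_facts k16 hs.1 hs.2
          have hs0 : 0 < s := hs.1
          have hUU : max U0 TV ≤ Ut (u n) s := by linarith
          have a2 := (hU0 (Ut (u n) s) ((le_max_left _ _).trans hUU)).1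
          have a3 := (abs_le.1 a2).1
          by_cases hin : s ∈ Icc (1 / K) K
          · rw [indicator_of_notMem (notMem_compl_iff.2 hin), mul_zero, add_zero]
            have hmem : Ut (u n) s ∈ Icc (u n / (2 * K)) (2 * K * u n) := by
              have h1 : 1 / K ≤ s := hin.1
              have h2 : s ≤ K := hin.2
              rw [div_le_iff₀ hK0] at h1
              have h3 := Ut_up hT0 hs0
              have h4 := Ut_half hT0 hs0 (h2.trans kK)
              constructor
              · rw [div_le_iff₀ (by positivity)]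
                nlinarith
              · have h5 : 0 < Ut (u n) s := by
                  by_contra hcon
                  rw [not_lt] at hcon
                  nlinarith
                nlinarith
            have a4 := k4 _ hmem
            have a5 : LVp p (Ut (u n) s) ≤ A + e * C := by linarith
            calc Real.exp (-s) * (s * LVp p (Ut (u n) s)) ≤ Real.exp (-s) * (s * (A + e * C)) := by gcongr
              _ = _ := by ring
          · rw [indicator_of_mem (show s ∈ (Icc (1 / K) K)ᶜ from hin)]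
            have a4 := (hVb (Ut (u n) s) ((le_max_right _ _).trans hUU)).2
            have a5 : LVp p (Ut (u n) s) ≤ A + e * C + CV := by linarith
            calc Real.exp (-s) * (s * LVp p (Ut (u n) s)) ≤ Real.exp (-s) * (s * (A + e * C + CV)) := by gcongr
              _ = _ := by ring
      _ ≤ ∫ s in Ioi 0, ((A + e * C) * (s * Real.exp (-s)) +
            CV * ((Icc (1 / K) K)ᶜ.indicator (fun s : ℝ => s * Real.exp (-s)) s)) := by
          refine setIntegral_mono_set ((hsi.const_mul _).add (hii.const_mul _)) ?_ Ioc_subset_Ioi_self.eventuallyLE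
          refine (ae_restrict_iff' measurableSet_Ioi).2 (Filter.Eventually.of_forall fun s hs => ?_)
          have hs0 : (0 : ℝ) < s := hs
          have h1 : 0 ≤ (Icc (1 / K) K)ᶜ.indicator (fun s : ℝ => s * Real.exp (-s)) s := by
            by_cases hin : s ∈ (Icc (1 / K) K)ᶜ
            · rw [indicator_of_mem hin]; positivity
            · rw [indicator_of_notMem hin]
          simp only [Pi.zero_apply]
          positivity
      _ = (A + e * C) + CV * ∫ s in Ioi 0, (Icc (1 / K) K)ᶜ.indicator (fun s : ℝ => s * Real.exp (-s)) s := by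
          rw [integral_add (hsi.const_mul _) (hii.const_mul _), integral_const_mul, integral_const_mul, exp_mom, mul_one]
      _ ≤ (A + e * C) + CV * (e / CV) := by gcongr
      _ = _ := by field_simp
  -- the zeros
  obtain ⟨h, hh⟩ : ∃ h : ℝ → ℝ, h = fun t => t / 2 * (R ^ 2 / 2 - 2 * (e * C)) +
      (Icc 1 (1 + η)).indicator (fun t => R ^ 2 * ε / 2 * t) t := ⟨_, rfl⟩
  have hlow : ∀ t : ℝ, 0 < t → ∀ᶠ n in atTop, h t ≤ GGp p (u n) t := by
    intro t ht
    have htT : Tendsto (fun T : ℝ => t * T) atTop atTop := tendsto_id.const_mul_atTop ht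
    have h1 := (GGp_LF hRH p ht).comp hu
    have h2 := (NZ_lim.comp htT).comp hu
    filter_upwards [h1.eventually (lt_mem_nhds (show -(t / 2 * (e * C / 2)) < 0 by
        have : 0 < t / 2 * (e * C / 2) := by positivity
        linarith)),
      h2.eventually (lt_mem_nhds (show 1 - e * C / R ^ 2 < 1 by
        have : 0 < e * C / R ^ 2 := by positivity
        linarith)),
      hu.eventually (htT.eventually hp2), (htT.comp hu).eventually_ge_atTop 10] with n k1 k2 k3 k4
    simp only [Function.comp] at k1 k2 k4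
    have k5 := (abs_le.1 k3.2).2
    rw [FR_eq hRH hR k4] at k5
    have k6 : R ^ 2 / 2 - e * C / 2 ≤ R ^ 2 / 2 * ((SG.NZ (t * u n) : ℝ) / nT (t * u n)) := by
      have e1 : R ^ 2 / 2 - e * C / 2 = R ^ 2 / 2 * (1 - e * C / R ^ 2) := by field_simp
      rw [e1]
      exact mul_le_mul_of_nonneg_left k2.le (by positivity)
    have hnT : 0 < nT (t * u n) := nT_pos (by linarith)
    have hPT : 0 ≤ PT R (t * u n) / nT (t * u n) := div_nonneg (PT_nonneg hR _) hnT.le
    rw [hh]
    simp only
    by_cases hin : t ∈ Icc 1 (1 + η)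
    · rw [indicator_of_mem hin]
      have k7 := hx n t hin
      have k8 : R ^ 2 * ε ≤ R ^ 2 * (PT R (t * u n) / nT (t * u n)) := by gcongr
      have k9 : R ^ 2 / 2 - e * C / 2 + R ^ 2 * ε - e * C ≤ LFp p (t * u n) := by linarith
      have k10 := mul_le_mul_of_nonneg_left k9 (show 0 ≤ t / 2 by positivity)
      nlinarith
    · rw [indicator_of_notMem hin]
      have k8 : 0 ≤ R ^ 2 * (PT R (t * u n) / nT (t * u n)) := by positivity
      have k9 : R ^ 2 / 2 - e * C / 2 - e * C ≤ LFp p (t * u n) := by linarith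
      have k10 := mul_le_mul_of_nonneg_left k9 (show 0 ≤ t / 2 by positivity)
      nlinarith
  have w4 : IntegrableOn (fun t => w1 t * t) (Icc 1 (1 + η)) := w2.mono_set fun t ht => by
    have : (1 : ℝ) ≤ t := ht.1
    exact lt_of_lt_of_le one_pos this
  have hsub : Ioi (0 : ℝ) ∩ Icc 1 (1 + η) = Icc 1 (1 + η) := inter_eq_right.2 fun t ht => by
    have : (1 : ℝ) ≤ t := ht.1
    exact lt_of_lt_of_le one_pos this
  have hwh : IntegrableOn (fun t => w1 t * h t) (Ioi 0) ∧ ∫ t in Ioi 0, w1 t * h t =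
      (R ^ 2 / 2 - 2 * (e * C)) / 2 * (π / 2) + R ^ 2 * ε / 2 * ∫ t in Icc 1 (1 + η), w1 t * t := by
    have e1 : ∀ t : ℝ, w1 t * h t = (R ^ 2 / 2 - 2 * (e * C)) / 2 * (w1 t * t) +
        R ^ 2 * ε / 2 * ((Icc 1 (1 + η)).indicator (fun t => w1 t * t) t) := by
      intro t
      rw [hh]
      simp only
      by_cases hin : t ∈ Icc 1 (1 + η)
      · rw [indicator_of_mem hin, indicator_of_mem hin]; ring
      · rw [indicator_of_notMem hin, indicator_of_notMem hin]; ring
    have i2 : IntegrableOn ((Icc 1 (1 + η)).indicator (fun t => w1 t * t)) (Ioi 0) :=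
      ((integrable_indicator_iff measurableSet_Icc).2 w4).integrableOn
    simp_rw [e1]
    refine ⟨(w2.const_mul _).add (i2.const_mul _), ?_⟩
    rw [integral_add (w2.const_mul _) (i2.const_mul _), integral_const_mul, integral_const_mul, w3,
      setIntegral_indicator measurableSet_Icc, hsub]
  have hmain : Tendsto (fun n => ∫ t in Ioi (0 : ℝ), max 0 (w1 t * h t - w1 t * GGp p (u n) t)) atTop
      (𝓝 (∫ t in Ioi (0 : ℝ), (0 : ℝ))) := by
    refine tendsto_integral_filter_of_dominated_convergence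
      (fun t => |w1 t * h t| + C' * (w1 t * (t * (1 + |Real.log t|) ^ 4))) ?_ ?_ ?_ ?_
    · filter_upwards [hu.eventually q1] with n h1
      exact (continuous_const.max continuous_id).comp_aestronglyMeasurable
        (hwh.1.sub h1).aestronglyMeasurable
    · filter_upwards [hu.eventually_ge_atTop T'] with n hn
      refine (ae_restrict_iff' measurableSet_Ioi).2 (Filter.Eventually.of_forall fun t ht => ?_)
      have ht0 : (0 : ℝ) < t := ht
      have hw := w1_nonneg ht0.le
      have h1 := hdom (u n) t hn ht0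
      rw [Real.norm_eq_abs, abs_of_nonneg (le_max_left _ _)]
      have h2 : |w1 t * GGp p (u n) t| ≤ C' * (w1 t * (t * (1 + |Real.log t|) ^ 4)) := by
        rw [abs_mul, abs_of_nonneg hw]
        calc w1 t * |GGp p (u n) t| ≤ w1 t * (C' * (t * (1 + |Real.log t|) ^ 4)) := by gcongr
          _ = _ := by ring
      have h3 := neg_abs_le (w1 t * GGp p (u n) t)
      have h4 := le_abs_self (w1 t * h t)
      have h5 := abs_nonneg (w1 t * h t)
      have h6 := abs_nonneg (w1 t * GGp p (u n) t)
      exact max_le (by linarith) (by linarith)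
    · exact hwh.1.abs.add (dom_int.const_mul C')
    · refine (ae_restrict_iff' measurableSet_Ioi).2 (Filter.Eventually.of_forall fun t ht => ?_)
      have ht0 : (0 : ℝ) < t := ht
      have hw := w1_nonneg ht0.le
      refine tendsto_const_nhds.congr' ?_
      filter_upwards [hlow t ht0] with n hn
      rw [max_eq_left]
      have := mul_le_mul_of_nonneg_left hn hw
      linarith
  rw [integral_zero] at hmain
  -- conclusion
  obtain ⟨n, k1, k2, k3, k4⟩ := ((hmain.eventually (gt_mem_nhds he)).and (hP.and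
    (((q3.comp hu).eventually (lt_mem_nhds (show -e < 0 by linarith))).and (hu.eventually q1)))).exists
  simp only [Function.comp] at k3
  have h1 : (∫ t in Ioi 0, w1 t * h t) - ∫ t in Ioi 0, w1 t * GGp p (u n) t ≤
      ∫ t in Ioi (0 : ℝ), max 0 (w1 t * h t - w1 t * GGp p (u n) t) := by
    rw [← integral_sub hwh.1 k4]
    refine integral_mono (hwh.1.sub k4) ?_ fun t => le_max_right _ _
    refine Integrable.mono' (hwh.1.sub k4).abs ((continuous_const.max continuous_id).comp_aestronglyMeasurable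
        (hwh.1.sub k4).aestronglyMeasurable) (ae_of_all _ fun t => ?_)
    rw [Real.norm_eq_abs, abs_of_nonneg (le_max_left _ _)]
    exact max_le (abs_nonneg _) (le_abs_self _)
  rw [hwh.2] at h1
  obtain ⟨I, hI⟩ : ∃ I : ℝ, I = ∫ t in Icc 1 (1 + η), w1 t * t := ⟨_, rfl⟩
  obtain ⟨G, hG⟩ : ∃ G : ℝ, G = ∫ t in Ioi 0, w1 t * GGp p (u n) t := ⟨_, rfl⟩
  rw [← hI, ← hG] at h1
  rw [← hG] at k3
  have h2 : (R ^ 2 / 2 - 2 * (e * C)) / 2 * (π / 2) + R ^ 2 * ε / 2 * I - e ≤ G := by linarith
  have h3 : 4 / π * ((R ^ 2 / 2 - 2 * (e * C)) / 2 * (π / 2) + R ^ 2 * ε / 2 * I - e) ≤ 4 / π * G := by gcongr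
  have h4 : 4 / π * ((R ^ 2 / 2 - 2 * (e * C)) / 2 * (π / 2) + R ^ 2 * ε / 2 * I - e) =
      R ^ 2 / 2 - 2 * (e * C) + 4 / π * (R ^ 2 * ε / 2) * I - 4 / π * e := by
    field_simp
    ring
  have h5 : 4 / π * e ≤ 2 * e := by
    have : 4 / π ≤ 2 := by rw [div_le_iff₀ hπ]; linarith
    gcongr
  have h6 := (abs_le.1 hp1).1
  rw [hX, ← hI]
  rw [h4] at h3
  nlinarith

end Pool.Agent.U507.AH
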