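import Pool.Agent.U507.AH.E13

/-!
# The converse along sequences
-/

set_option autoImplicit false

open Complex Filter Topology Set MeasureTheory Metric
open scoped Real

namespace Pool.Agent.U507.AH

open Pool.Agent.U507.GM hiding step_low low_pt low_unif rigid
open Pool.Agent.U507.PC
open Pool.Agent.Y749.Rig (ZZ mm mm_nonneg mem_ZZ Fr Fr_cont Fr_nonneg Fr_even nT nT_pos tr tr_int tr_cont)
open Pool.Agent.Y763.AH (PT PT_nonneg S_eq NZ_lim)

/-- the averages converge -/
theorem avg1l (hRH : RiemannHypothesis) {R : ℝ} (hR : 0 < R) {l : Filter ℝ} [l.IsCountablyGenerated] (hl : l ≤ atTop)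
    (hx : ∀ t : ℝ, 0 < t → Tendsto (fun T => PT R (t * T) / nT (t * T)) l (𝓝 0)) :
    Tendsto (fun T => ∫ s in Ioc 0 √T, Real.exp (-s) * (s * VR R (Ut T s))) l (𝓝 ((R ^ 2 - R) / 2)) := by
  obtain ⟨C, hC, happ⟩ := approx_all hRH hR
  obtain ⟨CV, TV, hCV, hTV, hVb⟩ := VR_bdd hRH hR
  have hπ := Real.pi_pos
  have hπ3 := Real.pi_gt_three
  have hπ4 := Real.pi_le_four
  obtain ⟨w2, w3⟩ := w1t_int
  have hFR : ∀ t : ℝ, 0 < t → Tendsto (fun T => FR R (t * T)) l (𝓝 (R ^ 2 / 2)) := by
    intro t ht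
    have htT : Tendsto (fun T : ℝ => t * T) atTop atTop := tendsto_id.const_mul_atTop ht
    have h1 := (((NZ_lim.comp htT).mono_left hl).const_mul (R ^ 2 / 2)).add ((hx t ht).const_mul (R ^ 2))
    rw [mul_one, mul_zero, add_zero] at h1
    refine h1.congr' ?_
    filter_upwards [hl (htT.eventually_ge_atTop 10)] with T hT
    exact (FR_eq hRH hR hT).symm
  have hsi : IntegrableOn (fun s : ℝ => s * Real.exp (-s)) (Ioi 0) :=
    (exp_pow_int 1).congr_fun (fun s _ => by simp) measurableSet_Ioi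
  have key : ∀ e : ℝ, 0 < e → e ≤ 1 → ∀ᶠ T in l,
      |(∫ s in Ioc 0 √T, Real.exp (-s) * (s * VR R (Ut T s))) - (R ^ 2 - R) / 2| ≤ e * (4 * C + 6) := by
    intro e he he1
    obtain ⟨p, hp1, hp2⟩ := happ e he
    obtain ⟨q1, q2, q3⟩ := EEp hRH p
    obtain ⟨C', T', hC', hT', hdom⟩ := GGp_dom hRH p
    have heC : 0 < e * C := by positivity
    -- the primes
    have hP : ∀ᶠ T in atTop, |(∫ s in Ioc 0 √T, Real.exp (-s) * (s * VR R (Ut T s))) -
        ∫ s in Ioc 0 √T, Real.exp (-s) * (s * LVp p (Ut T s))| ≤ e * C := by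
      obtain ⟨U0, hU0⟩ := eventually_atTop.1 hp2
      filter_upwards [q2, Real.tendsto_sqrt_atTop.eventually_ge_atTop (2 * max U0 TV), eventually_ge_atTop 16] with T k1 k2 k3
      have hU : ∀ s ∈ Ioc 0 √T, max U0 TV ≤ Ut T s := fun s hs => by
        have := Ut_facts k3 hs.1 hs.2
        linarith
      have k4 : IntegrableOn (fun s => Real.exp (-s) * (s * VR R (Ut T s))) (Ioc 0 √T) := by
        refine Integrable.mono' ((hsi.mono_set Ioc_subset_Ioi_self).const_mul CV) ?_ ?_
        · exact ((by fun_prop : Measurable fun s : ℝ => Real.exp (-s)).mul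
            (measurable_id.mul ((VR_meas R).comp (Ut_meas T)))).aestronglyMeasurable
        · refine (ae_restrict_iff' measurableSet_Ioc).2 (Filter.Eventually.of_forall fun s hs => ?_)
          have hs0 : (0 : ℝ) < s := hs.1
          obtain ⟨b1, b2⟩ := hVb (Ut T s) ((le_max_right _ _).trans (hU s hs))
          rw [Real.norm_eq_abs, abs_of_nonneg (by positivity)]
          calc Real.exp (-s) * (s * VR R (Ut T s)) ≤ Real.exp (-s) * (s * CV) := by gcongr
            _ = _ := by ring
      rw [← integral_sub k4 k1]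
      refine abs_integral_le_integral_abs.trans ?_
      calc ∫ s in Ioc 0 √T, |Real.exp (-s) * (s * VR R (Ut T s)) - Real.exp (-s) * (s * LVp p (Ut T s))| ≤
            ∫ s in Ioc 0 √T, (e * C) * (s * Real.exp (-s)) := by
            refine setIntegral_mono_on (k4.sub k1).abs ((hsi.mono_set Ioc_subset_Ioi_self).const_mul _)
              measurableSet_Ioc fun s hs => ?_
            have hs0 : (0 : ℝ) < s := hs.1
            have h1 := (hU0 (Ut T s) ((le_max_left _ _).trans (hU s hs))).1
            rw [← mul_sub, ← mul_sub, abs_mul, abs_mul, abs_of_pos (Real.exp_pos _), abs_of_pos hs0]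
            calc Real.exp (-s) * (s * |VR R (Ut T s) - LVp p (Ut T s)|) ≤ Real.exp (-s) * (s * (e * C)) := by gcongr
              _ = _ := by ring
        _ = (e * C) * ∫ s in Ioc 0 √T, s * Real.exp (-s) := integral_const_mul _ _
        _ ≤ (e * C) * ∫ s in Ioi 0, s * Real.exp (-s) := by
            refine mul_le_mul_of_nonneg_left ?_ (by positivity)
            refine setIntegral_mono_set hsi ?_ Ioc_subset_Ioi_self.eventuallyLE
            refine (ae_restrict_iff' measurableSet_Ioi).2 (Filter.Eventually.of_forall fun s hs => ?_)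
            have hs0 : (0 : ℝ) < s := hs
            simp only [Pi.zero_apply]
            positivity
        _ = e * C := by rw [exp_mom, mul_one]
    -- the zeros
    have hlow : ∀ t : ℝ, 0 < t → ∀ᶠ T in l, |GGp p T t - t * (R ^ 2 / 4)| ≤ t * (e * C) := by
      intro t ht
      have htT : Tendsto (fun T : ℝ => t * T) atTop atTop := tendsto_id.const_mul_atTop ht
      have h1 := ((GGp_LF hRH p ht).mono_left hl).eventually (Metric.ball_mem_nhds _ (show 0 < t * (e * C) / 4 by positivity))
      have h2 := (hFR t ht).eventually (Metric.ball_mem_nhds _ (show 0 < e * C / 2 by positivity))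
      filter_upwards [h1, h2, hl (htT.eventually hp2)] with T k1 k2 k3
      rw [Real.dist_eq, sub_zero] at k1
      rw [Real.dist_eq] at k2
      have k4 := abs_lt.1 k1
      have k5 := abs_lt.1 k2
      have k6 := abs_le.1 k3.2
      have a1 : LFp p (t * T) ≤ R ^ 2 / 2 + 3 / 2 * (e * C) := by linarith [k5.2, k6.1]
      have a2 : R ^ 2 / 2 - 3 / 2 * (e * C) ≤ LFp p (t * T) := by linarith [k5.1, k6.2]
      have a3 := mul_le_mul_of_nonneg_left a1 (show 0 ≤ t / 2 by positivity)
      have a4 := mul_le_mul_of_nonneg_left a2 (show 0 ≤ t / 2 by positivity)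
      rw [abs_le]
      constructor <;> nlinarith [k4.1, k4.2]
    have hmain : Tendsto (fun T => ∫ t in Ioi (0 : ℝ), max 0 (|w1 t * GGp p T t - w1 t * t * (R ^ 2 / 4)| -
        (e * C) * (w1 t * t))) l (𝓝 (∫ t in Ioi (0 : ℝ), (0 : ℝ))) := by
      refine tendsto_integral_filter_of_dominated_convergence
        (fun t => C' * (w1 t * (t * (1 + |Real.log t|) ^ 4)) + R ^ 2 / 4 * (w1 t * t)) ?_ ?_ ?_ ?_
      · filter_upwards [hl q1] with T h1
        exact (continuous_const.max continuous_id).comp_aestronglyMeasurable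
          (((h1.sub (w2.mul_const (R ^ 2 / 4))).abs.sub (w2.const_mul (e * C))).aestronglyMeasurable)
      · filter_upwards [hl (eventually_ge_atTop T')] with T hT
        refine (ae_restrict_iff' measurableSet_Ioi).2 (Filter.Eventually.of_forall fun t ht => ?_)
        have ht0 : (0 : ℝ) < t := ht
        have hw := w1_nonneg ht0.le
        have h1 := hdom T t hT ht0
        rw [Real.norm_eq_abs, abs_of_nonneg (le_max_left _ _)]
        have h2 : |w1 t * GGp p T t| ≤ C' * (w1 t * (t * (1 + |Real.log t|) ^ 4)) := by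
          rw [abs_mul, abs_of_nonneg hw]
          calc w1 t * |GGp p T t| ≤ w1 t * (C' * (t * (1 + |Real.log t|) ^ 4)) := by gcongr
            _ = _ := by ring
        have h3 : 0 ≤ w1 t * t * (R ^ 2 / 4) := by positivity
        have h4 := abs_sub (w1 t * GGp p T t) (w1 t * t * (R ^ 2 / 4))
        rw [abs_of_nonneg h3] at h4
        have h5 : 0 ≤ (e * C) * (w1 t * t) := by positivity
        have h6 := abs_nonneg (w1 t * GGp p T t)
        exact max_le (by linarith) (by linarith)
      · exact (dom_int.const_mul C').add (w2.const_mul (R ^ 2 / 4))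
      · refine (ae_restrict_iff' measurableSet_Ioi).2 (Filter.Eventually.of_forall fun t ht => ?_)
        have ht0 : (0 : ℝ) < t := ht
        have hw := w1_nonneg ht0.le
        refine tendsto_const_nhds.congr' ?_
        filter_upwards [hlow t ht0] with T hT
        rw [max_eq_left]
        have e1 : w1 t * GGp p T t - w1 t * t * (R ^ 2 / 4) = w1 t * (GGp p T t - t * (R ^ 2 / 4)) := by ring
        rw [e1, abs_mul, abs_of_nonneg hw]
        have := mul_le_mul_of_nonneg_left hT hw
        linarith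
    rw [integral_zero] at hmain
    filter_upwards [hmain.eventually (gt_mem_nhds he), hl hP, (q3.mono_left hl).eventually (Metric.ball_mem_nhds _ he),
      hl q1] with T k1 k2 k3 k4
    rw [Real.dist_eq, sub_zero] at k3
    have i1 : IntegrableOn (fun t => w1 t * GGp p T t - w1 t * t * (R ^ 2 / 4)) (Ioi 0) := k4.sub (w2.mul_const _)
    have i2 : IntegrableOn (fun t => (e * C) * (w1 t * t)) (Ioi 0) := w2.const_mul _
    have i3 : IntegrableOn (fun t => max 0 (|w1 t * GGp p T t - w1 t * t * (R ^ 2 / 4)| - (e * C) * (w1 t * t))) (Ioi 0) := by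
      refine Integrable.mono' (i1.abs.sub i2).abs ((continuous_const.max continuous_id).comp_aestronglyMeasurable
        (i1.abs.sub i2).aestronglyMeasurable) (ae_of_all _ fun t => ?_)
      rw [Real.norm_eq_abs, abs_of_nonneg (le_max_left _ _)]
      exact max_le (abs_nonneg _) (le_abs_self _)
    have h1 : |∫ t in Ioi 0, (w1 t * GGp p T t - w1 t * t * (R ^ 2 / 4))| ≤ e + (e * C) * (π / 2) := by
      refine abs_integral_le_integral_abs.trans ?_
      calc ∫ t in Ioi 0, |w1 t * GGp p T t - w1 t * t * (R ^ 2 / 4)| ≤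
          ∫ t in Ioi 0, (max 0 (|w1 t * GGp p T t - w1 t * t * (R ^ 2 / 4)| - (e * C) * (w1 t * t)) +
            (e * C) * (w1 t * t)) := by
            refine integral_mono i1.abs (i3.add i2) fun t => ?_
            simp only
            linarith [le_max_right 0 (|w1 t * GGp p T t - w1 t * t * (R ^ 2 / 4)| - (e * C) * (w1 t * t))]
        _ = (∫ t in Ioi 0, max 0 (|w1 t * GGp p T t - w1 t * t * (R ^ 2 / 4)| - (e * C) * (w1 t * t))) +
            (e * C) * (π / 2) := by rw [integral_add i3 i2, integral_const_mul, w3]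
        _ ≤ _ := by linarith
    rw [integral_sub k4 (w2.mul_const _), integral_mul_const, w3] at h1
    obtain ⟨G, hG⟩ : ∃ G : ℝ, G = ∫ t in Ioi 0, w1 t * GGp p T t := ⟨_, rfl⟩
    obtain ⟨A, hA⟩ : ∃ A : ℝ, A = ∫ s in Ioc 0 √T, Real.exp (-s) * (s * VR R (Ut T s)) := ⟨_, rfl⟩
    obtain ⟨B, hB⟩ : ∃ B : ℝ, B = ∫ s in Ioc 0 √T, Real.exp (-s) * (s * LVp p (Ut T s)) := ⟨_, rfl⟩
    rw [← hG] at h1 k3
    rw [← hB] at k2 k3
    rw [← hA] at k2 ⊢
    have h2 : |4 / π * G - R ^ 2 / 2| ≤ 2 * e + 2 * (e * C) := by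
      have e1 : 4 / π * G - R ^ 2 / 2 = 4 / π * (G - π / 2 * (R ^ 2 / 4)) := by field_simp
      rw [e1, abs_mul, abs_of_pos (by positivity)]
      calc 4 / π * |G - π / 2 * (R ^ 2 / 4)| ≤ 4 / π * (e + e * C * (π / 2)) := by gcongr
        _ = 4 / π * e + 2 * (e * C) := by field_simp; ring
        _ ≤ _ := by
            have : 4 / π ≤ 2 := by rw [div_le_iff₀ hπ]; linarith
            have : 4 / π * e ≤ 2 * e := by gcongr
            linarith
    have a1 := abs_le.1 h2
    have a2 := abs_le.1 k2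
    have a3 := abs_lt.1 k3
    have a4 := abs_le.1 hp1
    rw [abs_le]
    constructor
    · nlinarith [a1.1, a2.1, a3.1, a4.1, a4.2]
    · nlinarith [a1.2, a2.2, a3.2, a4.1, a4.2]
  rw [Metric.tendsto_nhds]
  intro ε hε
  obtain ⟨e, he⟩ : ∃ e : ℝ, e = min 1 (ε / (2 * (4 * C + 6))) := ⟨_, rfl⟩
  have he0 : 0 < e := by rw [he]; exact lt_min one_pos (by positivity)
  have he1 : e ≤ 1 := by rw [he]; exact min_le_left _ _
  have he2 : e * (4 * C + 6) ≤ ε / 2 := by
    have : e ≤ ε / (2 * (4 * C + 6)) := by rw [he]; exact min_le_right _ _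
    rw [le_div_iff₀ (by positivity)] at this
    linarith
  filter_upwards [key e he0 he1] with T hT
  rw [Real.dist_eq]
  linarith

/-- all continuous averages of the variance converge -/
theorem avg_alll (hRH : RiemannHypothesis) {R : ℝ} (hR : 1 ≤ R) {l : Filter ℝ} [l.IsCountablyGenerated] (hl : l ≤ atTop)
    (hx : ∀ t : ℝ, 0 < t → Tendsto (fun T => PT R (t * T) / nT (t * T)) l (𝓝 0)) : ∃ C U0 : ℝ, 0 < C ∧ 16 ≤ U0 ∧ 0 ≤ (R ^ 2 - R) / 2 ∧
      (∀ U : ℝ, 0 ≤ V0 R U0 U ∧ V0 R U0 U ≤ C) ∧ ∀ f : ℝ → ℝ, Continuous f → ∀ M : ℝ,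
      (∀ x, M ≤ x → f x = 0) →
      Tendsto (fun T => ∫ s in Ioi 0, s * V0 R U0 (Ut T s) * f s) l
        (𝓝 (∫ s in Ioi 0, (R ^ 2 - R) / 2 * s * f s)) := by
  have hR0 : 0 < R := by linarith
  obtain ⟨C, U0, hC, hU0, hb⟩ := VR_bdd hRH hR0
  have hv0 : 0 ≤ (R ^ 2 - R) / 2 := by nlinarith
  have hV : ∀ U : ℝ, 0 ≤ V0 R U0 U ∧ V0 R U0 U ≤ C := by
    intro U
    unfold V0
    split_ifs with h
    · exact hb U h
    · exact ⟨le_rfl, hC.le⟩
  refine ⟨C, U0, hC, hU0, hv0, hV, fun f hf M hM => ?_⟩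
  have hexp : ∀ b : ℝ, 0 < b → IntegrableOn (fun s : ℝ => s * Real.exp (-b * s)) (Ioi 0) ∧
      ∫ s in Ioi (0 : ℝ), s * Real.exp (-b * s) = 1 / b ^ 2 := by
    intro b hb'
    have h1 : IntegrableOn (fun s : ℝ => s * Real.exp (-s)) (Ioi 0) :=
      (exp_pow_int 1).congr_fun (fun s _ => by simp) measurableSet_Ioi
    have e : ∀ s : ℝ, s * Real.exp (-b * s) = 1 / b * ((fun s : ℝ => s * Real.exp (-s)) (b * s)) := by
      intro s
      simp only
      rw [neg_mul]
      field_simp
    constructor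
    · have h2 := (integrableOn_Ioi_comp_mul_left_iff (fun s : ℝ => s * Real.exp (-s)) 0 hb').2
        (by rw [mul_zero]; exact h1)
      refine (h2.const_mul (1 / b)).congr (ae_of_all _ fun s => ?_)
      exact (e s).symm
    · simp_rw [e]
      rw [integral_const_mul, integral_comp_mul_left_Ioi (fun s : ℝ => s * Real.exp (-s)) 0 hb', mul_zero, exp_mom,
        smul_eq_mul]
      field_simp
  have hint : ∀ (b T : ℝ), 0 < b → IntegrableOn (fun s => s * V0 R U0 (Ut T s) * Real.exp (-b * s)) (Ioi 0) := by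
    intro b T hb'
    refine Integrable.mono' ((hexp b hb').1.const_mul C) ?_ ?_
    · exact ((measurable_id.mul ((V0_meas R U0).comp (Ut_meas T))).mul
        (by fun_prop : Measurable fun s : ℝ => Real.exp (-b * s))).aestronglyMeasurable
    · refine (ae_restrict_iff' measurableSet_Ioi).2 (Filter.Eventually.of_forall fun s hs => ?_)
      have hs0 : (0 : ℝ) < s := hs
      obtain ⟨b1, b2⟩ := hV (Ut T s)
      rw [Real.norm_eq_abs, abs_of_nonneg (by positivity)]
      calc s * V0 R U0 (Ut T s) * Real.exp (-b * s) ≤ s * C * Real.exp (-b * s) := by gcongr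
        _ = _ := by ring
  -- the first average
  have h1 : ∀ (l' : Filter ℝ) [l'.IsCountablyGenerated], l' ≤ atTop →
      (∀ t : ℝ, 0 < t → Tendsto (fun T => PT R (t * T) / nT (t * T)) l' (𝓝 0)) →
      Tendsto (fun T => ∫ s in Ioi 0, s * V0 R U0 (Ut T s) * Real.exp (-1 * s)) l' (𝓝 ((R ^ 2 - R) / 2)) := by
    intro l' _ hl' hx'
    have t1 : Tendsto (fun T : ℝ => ∫ s in Ioi (0 : ℝ), (Ioi √T).indicator (fun s => s * V0 R U0 (Ut T s) *
        Real.exp (-1 * s)) s) l' (𝓝 (∫ s in Ioi (0 : ℝ), (0 : ℝ))) := by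
      refine tendsto_integral_filter_of_dominated_convergence (fun s => C * (s * Real.exp (-1 * s))) ?_ ?_ ?_ ?_
      · filter_upwards with T
        exact ((hint 1 T one_pos).aestronglyMeasurable).indicator measurableSet_Ioi
      · filter_upwards with T
        refine (ae_restrict_iff' measurableSet_Ioi).2 (Filter.Eventually.of_forall fun s hs => ?_)
        have hs0 : (0 : ℝ) < s := hs
        obtain ⟨b1, b2⟩ := hV (Ut T s)
        by_cases hin : s ∈ Ioi √T
        · rw [indicator_of_mem hin, Real.norm_eq_abs, abs_of_nonneg (by positivity)]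
          calc s * V0 R U0 (Ut T s) * Real.exp (-1 * s) ≤ s * C * Real.exp (-1 * s) := by gcongr
            _ = _ := by ring
        · rw [indicator_of_notMem hin, norm_zero]
          positivity
      · exact (hexp 1 one_pos).1.const_mul C
      · refine ae_of_all _ fun s => ?_
        refine tendsto_const_nhds.congr' ?_
        filter_upwards [hl' (Real.tendsto_sqrt_atTop.eventually_ge_atTop s)] with T hT
        rw [indicator_of_notMem]
        exact fun h => absurd h (not_lt.2 hT)
    rw [integral_zero] at t1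
    have t2 := (avg1l hRH hR0 hl' hx').add t1
    rw [add_zero] at t2
    refine t2.congr' ?_
    filter_upwards [hl' (eventually_ge_atTop 16), hl' (Real.tendsto_sqrt_atTop.eventually_ge_atTop (2 * U0))] with T hT hT2
    have hq : 0 ≤ √T := Real.sqrt_nonneg T
    have e1 : ∫ s in Ioc 0 √T, Real.exp (-s) * (s * VR R (Ut T s)) =
        ∫ s in Ioc 0 √T, s * V0 R U0 (Ut T s) * Real.exp (-1 * s) := by
      refine setIntegral_congr_fun measurableSet_Ioc fun s hs => ?_
      have hU := Ut_facts hT hs.1 hs.2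
      unfold V0
      rw [if_pos (by linarith)]
      rw [neg_one_mul]
      ring
    rw [e1, setIntegral_indicator measurableSet_Ioi, inter_eq_right.2 (Ioi_subset_Ioi hq),
      ← setIntegral_union Ioc_disjoint_Ioi_same measurableSet_Ioi ((hint 1 T one_pos).mono_set Ioc_subset_Ioi_self)
      ((hint 1 T one_pos).mono_set (Ioi_subset_Ioi hq)), Ioc_union_Ioi_eq_Ioi hq]
  -- scaling
  have hsc : ∀ b : ℝ, 0 < b → Tendsto (fun T => ∫ s in Ioi 0, s * V0 R U0 (Ut T s) * Real.exp (-b * s)) l
      (𝓝 (∫ s in Ioi 0, (R ^ 2 - R) / 2 * s * Real.exp (-b * s))) := by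
    intro b hb'
    have e1 : ∫ s in Ioi 0, (R ^ 2 - R) / 2 * s * Real.exp (-b * s) = 1 / b ^ 2 * ((R ^ 2 - R) / 2) := by
      have : ∀ s ∈ Ioi (0 : ℝ), (R ^ 2 - R) / 2 * s * Real.exp (-b * s) = (R ^ 2 - R) / 2 * (s * Real.exp (-b * s)) :=
        fun s _ => by ring
      rw [setIntegral_congr_fun measurableSet_Ioi this, integral_const_mul, (hexp b hb').2]
      ring
    rw [e1]
    have hbT : Tendsto (fun T : ℝ => b * T) atTop atTop := tendsto_id.const_mul_atTop hb'
    have h2 := h1 (map (fun T => b * T) l) (hbT.mono_left hl) (fun t ht => by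
      rw [tendsto_map'_iff]
      refine (hx (t * b) (mul_pos ht hb')).congr fun T => ?_
      simp only [Function.comp]
      rw [mul_assoc])
    rw [tendsto_map'_iff] at h2
    refine (h2.const_mul (1 / b ^ 2)).congr' ?_
    filter_upwards [hl (eventually_gt_atTop 0)] with T hT
    simp only [Function.comp]
    have e2 : ∀ s : ℝ, s * V0 R U0 (Ut T s) * Real.exp (-b * s) =
        1 / b * ((fun s : ℝ => s * V0 R U0 (Ut (b * T) s) * Real.exp (-1 * s)) (b * s)) := by
      intro s
      simp only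
      have e3 : Ut (b * T) (b * s) = Ut T s := by
        unfold Ut
        rw [mul_div_mul_left _ _ hb'.ne']
      rw [e3, show (-1 : ℝ) * (b * s) = -b * s by ring]
      field_simp
    simp_rw [e2]
    rw [integral_const_mul, integral_comp_mul_left_Ioi (fun s : ℝ => s * V0 R U0 (Ut (b * T) s) * Real.exp (-1 * s)) 0 hb',
      mul_zero, smul_eq_mul]
    field_simp
  exact lap_conv (l := l) (ρ := volume.restrict (Ioi 0)) (w := fun T s => s * V0 R U0 (Ut T s)) (X := fun _ s => s)
    (ρ₀ := volume.restrict (Ioi 0)) (w₀ := fun s => (R ^ 2 - R) / 2 * s) (X₀ := fun s => s)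
    (Eventually.of_forall fun T => ⟨measurable_id.mul ((V0_meas R U0).comp (Ut_meas T)), measurable_id,
      (ae_restrict_iff' measurableSet_Ioi).2 (Filter.Eventually.of_forall fun s hs => by
        have hs0 : (0 : ℝ) < s := hs
        exact ⟨mul_nonneg hs0.le (hV _).1, hs0.le⟩)⟩)
    ⟨by fun_prop, measurable_id, (ae_restrict_iff' measurableSet_Ioi).2 (Filter.Eventually.of_forall fun s hs => by
        have hs0 : (0 : ℝ) < s := hs
        exact ⟨mul_nonneg hv0 hs0.le, hs0.le⟩)⟩
    (fun n => Eventually.of_forall fun T => hint _ T (kpos n))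
    (fun n => by
      have := (hexp _ (kpos n)).1.const_mul ((R ^ 2 - R) / 2)
      refine this.congr (ae_of_all _ fun s => ?_)
      simp only
      ring)
    (fun n => hsc _ (kpos n)) hf hM

/-- **the converse**: a small sum over the pairs gives minimal variance -/
theorem a_to_cl (hRH : RiemannHypothesis) {R : ℝ} (hR : 1 ≤ R) {l : Filter ℝ} [l.IsCountablyGenerated] (hl : l ≤ atTop)
    (hx : ∀ t : ℝ, 0 < t → Tendsto (fun T => PT R (t * T) / nT (t * T)) l (𝓝 0)) :
    Tendsto (fun T => VR R (Ut T 1)) l (𝓝 ((R ^ 2 - R) / 2)) := by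
  have hR0 : 0 < R := by linarith
  obtain ⟨C, U0, hC, hU0, hv, hV, havg⟩ := avg_alll hRH hR hl hx
  obtain ⟨CM, hCM, hM⟩ := Mk hRH hR0
  obtain ⟨v, hvd⟩ : ∃ v : ℝ, v = (R ^ 2 - R) / 2 := ⟨_, rfl⟩
  rw [← hvd] at hv ⊢
  simp only [← hvd] at havg
  -- both inequalities
  have hbig : ∀ᶠ T : ℝ in atTop, ∀ s : ℝ, 0 < s → s ≤ 2 → V0 R U0 (Ut T s) = VR R (Ut T s) := by
    filter_upwards [Real.tendsto_sqrt_atTop.eventually_ge_atTop (2 * U0 + 2), eventually_ge_atTop 16] with T h1 h2 s hs hs2
    have := Ut_facts h2 hs (by linarith)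
    unfold V0
    rw [if_pos (by linarith)]
  have key : ∀ δ : ℝ, 0 < δ → δ ≤ 1 → ∀ᶠ T in l, |VR R (Ut T 1) - v| ≤ δ * (3 * C + 3 * v + 8) := by
    intro δ hδ hδ1
    -- choice of `κ`
    obtain ⟨κ, hκ0, hκ1, hκ2⟩ : ∃ κ : ℝ, 0 < κ ∧ κ ≤ 1 ∧ (1 + 1 / δ) * CM * √κ ≤ δ := by
      obtain ⟨q, hq⟩ : ∃ q : ℝ, q = min 1 (δ / ((1 + 1 / δ) * CM)) := ⟨_, rfl⟩
      have hq0 : 0 < q := by rw [hq]; exact lt_min one_pos (by positivity)
      have hq1 : q ≤ 1 := by rw [hq]; exact min_le_left _ _
      refine ⟨q ^ 2, by positivity, by nlinarith, ?_⟩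
      rw [Real.sqrt_sq hq0.le]
      have : q ≤ δ / ((1 + 1 / δ) * CM) := by rw [hq]; exact min_le_right _ _
      rw [le_div_iff₀ (by positivity)] at this
      linarith
    obtain ⟨D, hD⟩ : ∃ D : ℝ, D = (1 + 1 / δ) * CM * √κ := ⟨_, rfl⟩
    have hMk := hM δ κ hδ hδ1 hκ0 hκ1
    rw [← hD] at hMk hκ2
    have hD0 : 0 ≤ D := by rw [hD]; positivity
    -- first bump
    obtain ⟨i1, p1⟩ := bp_int (a := 1) (b := 1 + κ) one_pos (by linarith)
    obtain ⟨i2, p2⟩ := bp_int (a := 1 - κ / 2) (b := 1) (by linarith) (by linarith)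
    have g1 := havg (bp 1 (1 + κ)) (bp_cont _ _) (1 + κ) fun x hx => bp_out (Or.inr hx)
    have g2 := havg (bp (1 - κ / 2) 1) (bp_cont _ _) 1 fun x hx => bp_out (Or.inr hx)
    obtain ⟨H1, hH1⟩ : ∃ H1 : ℝ, H1 = ∫ s in Ioi 0, bp 1 (1 + κ) s := ⟨_, rfl⟩
    obtain ⟨H2, hH2⟩ : ∃ H2 : ℝ, H2 = ∫ s in Ioi 0, bp (1 - κ / 2) 1 s := ⟨_, rfl⟩
    rw [← hH1] at p1
    rw [← hH2] at p2
    -- integrability
    have hint : ∀ a b : ℝ, 0 < a → a < b → b ≤ 2 → ∀ T : ℝ,
        IntegrableOn (fun s => s * V0 R U0 (Ut T s) * bp a b s) (Ioi 0) := by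
      intro a b ha hab hb2 T
      refine Integrable.mono' ((bp_int ha hab).1.const_mul (2 * C)) ?_ ?_
      · exact ((measurable_id.mul ((V0_meas R U0).comp (Ut_meas T))).mul (bp_cont a b).measurable).aestronglyMeasurable
      · refine (ae_restrict_iff' measurableSet_Ioi).2 (Filter.Eventually.of_forall fun s hs => ?_)
        have hs0 : (0 : ℝ) < s := hs
        obtain ⟨b1, b2⟩ := hV (Ut T s)
        have b3 := bp_nonneg a b s
        rw [Real.norm_eq_abs, abs_of_nonneg (by positivity)]
        rcases le_total b s with h | h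
        · rw [bp_out (Or.inr h), mul_zero, mul_zero]
        · have : s ≤ 2 := by linarith
          gcongr
    have l1 : v * H1 ≤ ∫ s in Ioi 0, v * s * bp 1 (1 + κ) s := by
      rw [hH1, ← integral_const_mul]
      have hi : IntegrableOn (fun s => v * s * bp 1 (1 + κ) s) (Ioi 0) := by
        refine Integrable.mono' (i1.const_mul (2 * v)) ?_ ?_
        · exact (((by fun_prop : Measurable fun s : ℝ => v * s)).mul (bp_cont _ _).measurable).aestronglyMeasurable
        · refine (ae_restrict_iff' measurableSet_Ioi).2 (Filter.Eventually.of_forall fun s hs => ?_)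
          have hs0 : (0 : ℝ) < s := hs
          have b3 := bp_nonneg 1 (1 + κ) s
          rw [Real.norm_eq_abs, abs_of_nonneg (by positivity)]
          rcases le_total (1 + κ) s with h | h
          · rw [bp_out (Or.inr h), mul_zero, mul_zero]
          · have : v * s ≤ 2 * v := by nlinarith
            gcongr
      refine setIntegral_mono_on (i1.const_mul _) hi measurableSet_Ioi fun s hs => ?_
      have b3 := bp_nonneg 1 (1 + κ) s
      rcases le_total s 1 with h | h
      · rw [bp_out (Or.inl h), mul_zero, mul_zero]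
      · have : v ≤ v * s := by nlinarith
        gcongr
    have l2 : ∫ s in Ioi 0, v * s * bp (1 - κ / 2) 1 s ≤ v * H2 := by
      rw [hH2, ← integral_const_mul]
      refine integral_mono_of_nonneg ?_ (i2.const_mul _) ?_
      · refine (ae_restrict_iff' measurableSet_Ioi).2 (Filter.Eventually.of_forall fun s hs => ?_)
        have hs0 : (0 : ℝ) < s := hs
        have b3 := bp_nonneg (1 - κ / 2) 1 s
        simp only [Pi.zero_apply]
        positivity
      · refine (ae_restrict_iff' measurableSet_Ioi).2 (Filter.Eventually.of_forall fun s hs => ?_)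
        have hs0 : (0 : ℝ) < s := hs
        have b3 := bp_nonneg (1 - κ / 2) 1 s
        simp only
        rcases le_total 1 s with h | h
        · rw [bp_out (Or.inr h), mul_zero, mul_zero]
        · have : v * s ≤ v := by nlinarith
          gcongr
    obtain ⟨T1, hT1⟩ := eventually_atTop.1 hMk
    filter_upwards [g1.eventually (lt_mem_nhds (show (∫ s in Ioi 0, v * s * bp 1 (1 + κ) s) - δ * H1 <
        ∫ s in Ioi 0, v * s * bp 1 (1 + κ) s by have : 0 < δ * H1 := by positivity
                                                linarith)),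
      g2.eventually (gt_mem_nhds (show (∫ s in Ioi 0, v * s * bp (1 - κ / 2) 1 s) <
        (∫ s in Ioi 0, v * s * bp (1 - κ / 2) 1 s) + δ * H2 by have : 0 < δ * H2 := by positivity
                                                               linarith)),
      hl hMk, hl (eventually_ge_atTop (max T1 16)), hl hbig] with T k1 k2 k3 k4 k5
    have t1 : T1 ≤ T := (le_max_left _ _).trans k4
    have t2 : 16 ≤ T := (le_max_right _ _).trans k4
    have hT0 : 0 < T := by linarith
    obtain ⟨f, hf⟩ : ∃ f : ℝ, f = VR R (Ut T 1) := ⟨_, rfl⟩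
    rw [← hf] at k3 ⊢
    have hfC : 0 ≤ f ∧ f ≤ C := by
      have := hV (Ut T 1)
      rw [k5 1 one_pos one_le_two, ← hf] at this
      exact this
    -- lower bound
    have u1 : ∫ s in Ioi 0, s * V0 R U0 (Ut T s) * bp 1 (1 + κ) s ≤ ((1 + δ) ^ 2 * f + D) * H1 := by
      rw [hH1, ← integral_const_mul]
      refine setIntegral_mono_on (hint 1 (1 + κ) one_pos (by linarith) (by linarith) T) (i1.const_mul _) measurableSet_Ioi
        fun s hs => ?_
      have b3 := bp_nonneg 1 (1 + κ) s
      rcases le_or_gt s 1 with h | h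
      · rw [bp_out (Or.inl h), mul_zero, mul_zero]
      rcases le_total (1 + κ) s with h' | h'
      · rw [bp_out (Or.inr h'), mul_zero, mul_zero]
      · rw [k5 s (by linarith) (by linarith)]
        have := k3 s h h'
        gcongr
    -- upper bound
    have u2 : f * H2 ≤ (1 + δ) ^ 2 * (∫ s in Ioi 0, s * V0 R U0 (Ut T s) * bp (1 - κ / 2) 1 s) + D * H2 := by
      rw [hH2, ← integral_const_mul, ← integral_const_mul, ← integral_const_mul]
      have j1 := hint (1 - κ / 2) 1 (by linarith) (by linarith) one_le_two T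
      rw [← integral_add (j1.const_mul _) (i2.const_mul _)]
      refine setIntegral_mono_on (i2.const_mul _) ((j1.const_mul _).add (i2.const_mul _)) measurableSet_Ioi fun s hs => ?_
      have b3 := bp_nonneg (1 - κ / 2) 1 s
      rcases le_or_gt s (1 - κ / 2) with h | h
      · rw [bp_out (Or.inl h), mul_zero, mul_zero, mul_zero, mul_zero, add_zero]
      rcases le_or_gt 1 s with h' | h'
      · rw [bp_out (Or.inr h'), mul_zero, mul_zero, mul_zero, mul_zero, add_zero]
      · have hs0 : 0 < s := by linarith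
        rw [k5 s hs0 (by linarith)]
        have hs1 : 1 < 1 / s := by rw [lt_div_iff₀ hs0]; linarith
        have hs2 : 1 / s ≤ 1 + κ := by
          rw [div_le_iff₀ hs0]
          nlinarith
        have hTs : T1 ≤ T / s := by
          refine t1.trans ?_
          rw [le_div_iff₀ hs0]
          nlinarith
        have h3 := hT1 (T / s) hTs (1 / s) hs1 hs2
        have e1 : Ut (T / s) (1 / s) = Ut T 1 := by
          unfold Ut
          congr 3
          field_simp
        have e2 : Ut (T / s) 1 = Ut T s := by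
          unfold Ut
          congr 3
          field_simp
        rw [e1, e2, ← hf] at h3
        have h4 : f ≤ (1 + δ) ^ 2 * (s * VR R (Ut T s)) + D := by
          have h5 : s * (1 / s * f) ≤ s * ((1 + δ) ^ 2 * VR R (Ut T s) + D) := by gcongr
          have h6 : s * (1 / s * f) = f := by field_simp
          rw [h6] at h5
          have h7 : s * D ≤ D := by nlinarith
          nlinarith
        calc f * bp (1 - κ / 2) 1 s ≤ ((1 + δ) ^ 2 * (s * VR R (Ut T s)) + D) * bp (1 - κ / 2) 1 s := by gcongr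
          _ = _ := by ring
    have w1' : v * H1 ≤ ((1 + δ) ^ 2 * f + D + δ) * H1 := by
      have : ((1 + δ) ^ 2 * f + D + δ) * H1 = ((1 + δ) ^ 2 * f + D) * H1 + δ * H1 := by ring
      linarith
    have w1'' : v ≤ (1 + δ) ^ 2 * f + D + δ := le_of_mul_le_mul_right w1' p1
    have w2' : f * H2 ≤ ((1 + δ) ^ 2 * (v + δ) + D) * H2 := by
      have h1 : (1 + δ) ^ 2 * (∫ s in Ioi 0, s * V0 R U0 (Ut T s) * bp (1 - κ / 2) 1 s) ≤ (1 + δ) ^ 2 * (v * H2 + δ * H2) := by
        gcongr
        linarith
      have : ((1 + δ) ^ 2 * (v + δ) + D) * H2 = (1 + δ) ^ 2 * (v * H2 + δ * H2) + D * H2 := by ring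
      linarith
    have w2'' : f ≤ (1 + δ) ^ 2 * (v + δ) + D := le_of_mul_le_mul_right w2' p2
    have hq : (1 + δ) ^ 2 ≤ 1 + 3 * δ := by nlinarith
    have m1 : (1 + δ) ^ 2 * f ≤ (1 + 3 * δ) * f := mul_le_mul_of_nonneg_right hq hfC.1
    have m2 : (1 + δ) ^ 2 * (v + δ) ≤ (1 + 3 * δ) * (v + δ) := mul_le_mul_of_nonneg_right hq (by linarith)
    have m3 : δ * f ≤ δ * C := by gcongr; exact hfC.2
    have m4 : 0 ≤ δ * v := by positivity
    have m5 : 0 ≤ δ * C := by positivity
    have m6 : δ * δ ≤ δ := by nlinarith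
    rw [abs_le]
    constructor
    · nlinarith
    · nlinarith
  rw [Metric.tendsto_nhds]
  intro ε hε
  obtain ⟨δ, hδ⟩ : ∃ δ : ℝ, δ = min 1 (ε / (2 * (3 * C + 3 * v + 8))) := ⟨_, rfl⟩
  have hδ0 : 0 < δ := by rw [hδ]; exact lt_min one_pos (by positivity)
  have hδ1 : δ ≤ 1 := by rw [hδ]; exact min_le_left _ _
  have hδ2 : δ * (3 * C + 3 * v + 8) ≤ ε / 2 := by
    have : δ ≤ ε / (2 * (3 * C + 3 * v + 8)) := by rw [hδ]; exact min_le_right _ _
    rw [le_div_iff₀ (by positivity)] at this
    linarith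
  filter_upwards [key δ hδ0 hδ1] with T hT
  rw [Real.dist_eq]
  linarith

end Pool.Agent.U507.AH
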