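import Pool.Agent.U507.AH.E14

/-!
# Statements at a single large height
-/

set_option autoImplicit false

open Complex Filter Topology Set MeasureTheory Metric
open scoped Real

namespace Pool.Agent.U507.AH

open Pool.Agent.U507.GM hiding step_low low_pt low_unif rigid
open Pool.Agent.U507.PC
open Pool.Agent.Y749.Rig (nT nT_pos)
open Pool.Agent.Y763.AH (PT PT_nonneg PT_iff NZ_lim BT D1 nT_atTop)

lemma nT_scale {t : ℝ} (ht : 0 < t) : Tendsto (fun T => nT (t * T) / nT T) atTop (𝓝 t) := by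
  have h1 : Tendsto (fun T : ℝ => t * (Real.log t / Real.log T + 1)) atTop (𝓝 (t * (0 + 1))) :=
    ((tendsto_const_nhds.div_atTop Real.tendsto_log_atTop).add_const 1).const_mul t
  rw [zero_add, mul_one] at h1
  refine h1.congr' ?_
  filter_upwards [eventually_gt_atTop 1] with T hT
  have hlog : 0 < Real.log T := Real.log_pos hT
  have hT0 : 0 < T := by linarith
  unfold nT
  rw [Real.log_mul ht.ne' hT0.ne']
  field_simp

lemma NZ_scale {t : ℝ} (ht : 0 < t) : Tendsto (fun T => (SG.NZ (t * T) : ℝ) / nT T) atTop (𝓝 t) := by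
  have htT : Tendsto (fun T : ℝ => t * T) atTop atTop := tendsto_id.const_mul_atTop ht
  have h := (NZ_lim.comp htT).mul (nT_scale ht)
  rw [one_mul] at h
  refine h.congr' ?_
  filter_upwards [htT.eventually_ge_atTop 10] with T hT
  have := (nT_pos hT).ne'
  simp only [Function.comp]
  field_simp

lemma nT_mono {a b : ℝ} (ha : 10 ≤ a) (hab : a ≤ b) : nT a ≤ nT b := by
  unfold nT
  have h1 : 0 ≤ Real.log a := Real.log_nonneg (by linarith)
  have h2 : Real.log a ≤ Real.log b := Real.log_le_log (by linarith) hab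
  have h3 : 0 ≤ b := by linarith
  gcongr

lemma BT_mono {R ε ε' T T' : ℝ} (h : ε' ≤ ε) (hT : T ≤ T') : (BT R ε T).card ≤ (BT R ε' T').card := by
  classical
  refine Finset.card_le_card fun n hn => ?_
  unfold BT Pool.Agent.Y763.AH.Bad at hn ⊢
  rw [Finset.mem_filter, Finset.mem_Ioc] at hn ⊢
  exact ⟨⟨hn.1.1, hn.1.2.trans (SG.NZ_mono hT)⟩, fun k hk => h.trans (hn.2 k hk)⟩

/-- a lower bound in every long interval of heights -/
theorem loc_low (hRH : RiemannHypothesis) {R δ : ℝ} (hR : 0 < R) (hδ : 0 < δ) : ∃ K T0 : ℝ, 1 ≤ K ∧ ∀ T : ℝ, T0 ≤ T →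
    ∃ T' ∈ Icc (T / K) (K * T), (R ^ 2 - R) / 2 - δ < VR R T' := by
  by_contra hcon
  push Not at hcon
  choose u hu1 hu2 using fun n : ℕ => hcon ((n : ℝ) + 1) ((n : ℝ) + 10) (by
    have : (0 : ℝ) ≤ n := Nat.cast_nonneg n
    linarith)
  have hu : Tendsto u atTop atTop := tendsto_atTop_mono hu1
    (tendsto_atTop_add_const_right _ _ tendsto_natCast_atTop_atTop)
  have h := Kl hRH (η := 0) (ε := 0) (A := (R ^ 2 - R) / 2 - δ) hR hu (fun K hK => by
    filter_upwards [tendsto_natCast_atTop_atTop.eventually_ge_atTop K] with n hn T hT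
    have hn1 : K ≤ (n : ℝ) + 1 := by
      have h2 : K ≤ (n : ℝ) := hn
      linarith
    have hup : 0 < u n := by
      have := hu1 n
      have h2 : (0 : ℝ) ≤ n := Nat.cast_nonneg n
      linarith
    have hK0 : 0 < K := by linarith
    refine hu2 n T ⟨le_trans ?_ hT.1, hT.2.trans ?_⟩
    · gcongr
    · gcongr) (fun n κ hκ => by
      have h1 : 1 ≤ κ := hκ.1
      have h2 : (0 : ℝ) ≤ n := Nat.cast_nonneg n
      have h3 := hu1 n
      exact div_nonneg (PT_nonneg hR _) (nT_pos (by nlinarith)).le)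
  simp only [add_zero, Icc_self, zero_div, mul_zero, zero_mul] at h
  linarith

/-- minimal variance around `T` gives spacings near the lattice up to `T` -/
theorem loc_ba (hRH : RiemannHypothesis) {R ε : ℝ} (hR : 0 < R) (hε : 0 < ε) : ∃ δ K T0 : ℝ, 0 < δ ∧ 1 ≤ K ∧
    ∀ T : ℝ, T0 ≤ T → (∀ T' ∈ Icc (T / K) (K * T), VR R T' ≤ (R ^ 2 - R) / 2 + δ) →
      ((BT R ε T).card : ℝ) / SG.NZ T ≤ ε := by
  have hπ := Real.pi_pos
  by_contra hcon
  push Not at hcon
  choose w hw1 hw2 hw3 using fun n : ℕ => hcon (1 / ((n : ℝ) + 1)) ((n : ℝ) + 1) ((n : ℝ) + 16) (by positivity) (by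
    have : (0 : ℝ) ≤ n := Nat.cast_nonneg n
    linarith)
  have hw : Tendsto w atTop atTop := tendsto_atTop_mono hw1
    (tendsto_atTop_add_const_right _ _ tendsto_natCast_atTop_atTop)
  obtain ⟨c, hc, hD⟩ := D1 hR hε (show 0 < ε / 16 by positivity)
  obtain ⟨T0, hT0⟩ := eventually_atTop.1 hD
  obtain ⟨m0, hm0⟩ := eventually_atTop.1 ((hw.eventually_ge_atTop T0).and
    (hw.eventually (NZ_lim.eventually (lt_mem_nhds (show (1 / 2 : ℝ) < 1 by norm_num)))))
  obtain ⟨x, hx⟩ : ∃ x : ℝ, x = c * (ε / 16) := ⟨_, rfl⟩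
  have hx0 : 0 < x := by rw [hx]; positivity
  have hu : Tendsto (fun n => w (n + m0)) atTop atTop := hw.comp (tendsto_add_atTop_nat m0)
  have hpair : ∀ n, ∀ κ ∈ Icc (1 : ℝ) (1 + 1), x ≤ PT R (κ * w (n + m0)) / nT (κ * w (n + m0)) := by
    intro n κ hκ
    obtain ⟨T, hT⟩ : ∃ T : ℝ, T = w (n + m0) := ⟨_, rfl⟩
    have h1 := hm0 (n + m0) (by omega)
    have h2 := hw3 (n + m0)
    have h3 := hw1 (n + m0)
    rw [← hT] at h1 h2 h3 ⊢
    have hT16 : 16 ≤ T := by
      have : (0 : ℝ) ≤ ((n + m0 : ℕ) : ℝ) := Nat.cast_nonneg _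
      linarith
    have hκ1 : 1 ≤ κ := hκ.1
    have hκ2 : κ ≤ 2 := by linarith [hκ.2]
    have hTκ : T ≤ κ * T := by nlinarith
    have hn1 : 0 < nT (κ * T) := nT_pos (by linarith)
    have hn2 : 0 < nT T := nT_pos (by linarith)
    have h4 := hT0 (κ * T) (h1.1.trans hTκ)
    have h5 : nT (κ * T) ≤ 4 * nT T := by
      have hlog : 0 < Real.log T := Real.log_pos (by linarith)
      have h5 : Real.log (κ * T) ≤ 2 * Real.log T := by
        have h6 : Real.log (κ * T) ≤ Real.log (T * T) := Real.log_le_log (by positivity) (by nlinarith)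
        have e : Real.log (T * T) = 2 * Real.log T := by
          rw [Real.log_mul (by positivity) (by positivity)]
          ring
        linarith
      unfold nT
      rw [← mul_div_assoc]
      apply div_le_div_of_nonneg_right _ (by positivity)
      have h7 : 0 ≤ Real.log (κ * T) := Real.log_nonneg (by linarith)
      calc κ * T * Real.log (κ * T) ≤ 2 * T * (2 * Real.log T) := by gcongr
        _ = _ := by ring
    have hNZ : nT T / 2 < SG.NZ T := by
      have := h1.2
      rw [lt_div_iff₀ hn2] at this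
      linarith
    have hNZ0 : (0 : ℝ) < SG.NZ T := by linarith
    have h6 : ε * SG.NZ T < ((BT R ε T).card : ℝ) := by rwa [lt_div_iff₀ hNZ0] at h2
    have h7 : ((BT R ε T).card : ℝ) ≤ (BT R ε (κ * T)).card := by exact_mod_cast BT_mono le_rfl hTκ
    have h8 : ε / 8 ≤ ((BT R ε (κ * T)).card : ℝ) / nT (κ * T) := by
      rw [le_div_iff₀ hn1]
      have h9 : ε / 8 * nT (κ * T) ≤ ε / 8 * (4 * nT T) := by gcongr
      have h10 : ε * (nT T / 2) < ε * SG.NZ T := by gcongr
      nlinarith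
    rw [hx]
    refine le_trans ?_ h4
    apply mul_le_mul_of_nonneg_left _ hc.le
    linarith
  have hI := I_pos
  obtain ⟨I, hId⟩ : ∃ I : ℝ, I = ∫ t in Icc (1 : ℝ) (1 + 1), w1 t * t := ⟨_, rfl⟩
  have h1 : ∀ δ : ℝ, 0 < δ → (R ^ 2 - R) / 2 + 4 / π * (R ^ 2 * x / 2) * I ≤ (R ^ 2 - R) / 2 + δ := by
    intro δ hδ
    rw [hId]
    refine Kl hRH hR hu (fun K hK => ?_) hpair
    filter_upwards [tendsto_natCast_atTop_atTop.eventually_ge_atTop K,
      tendsto_natCast_atTop_atTop.eventually_ge_atTop (1 / δ)] with n hn hnδ T hT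
    have h2 : K ≤ (n : ℝ) := hn
    have h3 : 1 / δ ≤ (n : ℝ) := hnδ
    have hc1 : (n : ℝ) ≤ ((n + m0 : ℕ) : ℝ) := by exact_mod_cast Nat.le_add_right n m0
    have hK0 : 0 < K := by linarith
    have hup : 0 < w (n + m0) := by
      have := hw1 (n + m0)
      have h4 : (0 : ℝ) ≤ ((n + m0 : ℕ) : ℝ) := Nat.cast_nonneg _
      linarith
    have h5 := hw2 (n + m0) T ⟨le_trans (by gcongr; linarith) hT.1, hT.2.trans (by gcongr; linarith)⟩
    refine h5.trans ?_
    have h6 : 1 / (((n + m0 : ℕ) : ℝ) + 1) ≤ δ := by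
      rw [div_le_iff₀ (by positivity)]
      rw [div_le_iff₀ hδ] at h3
      nlinarith
    linarith
  rw [← hId] at hI
  have h3 : 0 < 4 / π * (R ^ 2 * x / 2) * I := by positivity
  have h4 := h1 (4 / π * (R ^ 2 * x / 2) * I / 2) (by positivity)
  linarith

/-- spacings near the lattice up to a multiple of `T` give minimal variance at `T` -/
theorem loc_ac (hRH : RiemannHypothesis) {R δ : ℝ} (hR : 1 ≤ R) (hδ : 0 < δ) : ∃ ε κ T0 : ℝ, 0 < ε ∧ 1 ≤ κ ∧
    ∀ T : ℝ, T0 ≤ T → ((BT R ε (κ * T)).card : ℝ) / SG.NZ (κ * T) ≤ ε → |VR R T - (R ^ 2 - R) / 2| ≤ δ := by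
  have hR0 : 0 < R := by linarith
  by_contra hcon
  push Not at hcon
  -- the heights
  have hsc : ∀ n : ℕ, ∃ T1 : ℝ, (n : ℝ) + 16 ≤ T1 ∧ ∀ T : ℝ, T1 ≤ T →
      (SG.NZ (((n : ℝ) + 1) * T) : ℝ) ≤ 2 * ((n : ℝ) + 1) * nT T := by
    intro n
    have hp : (0 : ℝ) < (n : ℝ) + 1 := by positivity
    obtain ⟨T1, hT1⟩ := eventually_atTop.1 ((NZ_scale hp).eventually (gt_mem_nhds
      (show (n : ℝ) + 1 < 2 * ((n : ℝ) + 1) by linarith)))
    refine ⟨max T1 ((n : ℝ) + 16), le_max_right _ _, fun T hT => ?_⟩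
    have h1 := hT1 T ((le_max_left _ _).trans hT)
    have h2 : (n : ℝ) + 16 ≤ T := (le_max_right _ _).trans hT
    have hn2 : 0 < nT T := nT_pos (by linarith)
    rw [div_lt_iff₀ hn2] at h1
    exact h1.le
  choose T1 hT1a hT1b using hsc
  choose w hw1 hw2 hw3 using fun n : ℕ => hcon (1 / ((n : ℝ) + 1) ^ 2) ((n : ℝ) + 1) (T1 n) (by positivity) (by
    have : (0 : ℝ) ≤ n := Nat.cast_nonneg n
    linarith)
  have hw16 : ∀ n : ℕ, (n : ℝ) + 16 ≤ w n := fun n => (hT1a n).trans (hw1 n)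
  have hw : Tendsto w atTop atTop := tendsto_atTop_mono hw16
    (tendsto_atTop_add_const_right _ _ tendsto_natCast_atTop_atTop)
  obtain ⟨u, hu⟩ : ∃ u : ℕ → ℝ, u = fun n => 1 / Real.log (1 + 1 / w n) := ⟨_, rfl⟩
  have hub : ∀ n, w n ≤ u n ∧ u n ≤ 2 * w n := by
    intro n
    have hwn : 16 ≤ w n := by
      have : (0 : ℝ) ≤ n := Nat.cast_nonneg n
      linarith [hw16 n]
    have hw0 : 0 < w n := by linarith
    have h1 : 0 < 1 / w n := by positivity
    have h2 : 0 < Real.log (1 + 1 / w n) := Real.log_pos (by linarith)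
    have h3 : Real.log (1 + 1 / w n) ≤ 1 / w n := by
      have := Real.log_le_sub_one_of_pos (show 0 < 1 + 1 / w n by positivity)
      linarith
    have h4 : 1 / (2 * w n) ≤ Real.log (1 + 1 / w n) := by
      have h5 := Real.one_sub_inv_le_log_of_pos (show 0 < 1 + 1 / w n by positivity)
      refine le_trans ?_ h5
      have h6 : 1 - (1 + 1 / w n)⁻¹ = 1 / (w n + 1) := by field_simp; ring
      rw [h6]
      apply one_div_le_one_div_of_le (by positivity)
      linarith
    rw [hu]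
    simp only
    constructor
    · rw [le_div_iff₀ h2]
      calc w n * Real.log (1 + 1 / w n) ≤ w n * (1 / w n) := by gcongr
        _ = 1 := by field_simp
    · rw [div_le_iff₀ h2]
      calc (1 : ℝ) = 2 * w n * (1 / (2 * w n)) := by field_simp
        _ ≤ _ := by gcongr
  have hut : Tendsto u atTop atTop := tendsto_atTop_mono (fun n => (hub n).1) hw
  have hUt : ∀ n, Ut (u n) 1 = w n := by
    intro n
    have hw0 : 0 < w n := by
      have : (0 : ℝ) ≤ n := Nat.cast_nonneg n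
      linarith [hw16 n]
    have h1 : 0 < 1 / w n := by positivity
    rw [hu]
    unfold Ut
    simp only
    rw [one_div_one_div, Real.exp_log (by linarith), add_sub_cancel_left, one_div_one_div]
  -- the pair sums tend to zero
  have hx : ∀ t : ℝ, 0 < t → Tendsto (fun T => PT R (t * T) / nT (t * T)) (map u atTop) (𝓝 0) := by
    intro t ht
    have htu : Tendsto (fun n => t * u n) atTop atTop := hut.const_mul_atTop ht
    have hl : map (fun n => t * u n) atTop ≤ (atTop : Filter ℝ) := htu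
    have h1 : Tendsto (fun T => PT R T / nT T) (map (fun n => t * u n) atTop) (𝓝 0) := by
      rw [PT_iff hRH hR0 hl]
      intro ε hε
      rw [tendsto_map'_iff]
      have hN := (NZ_scale ht).comp hut
      have hlim : Tendsto (fun n : ℕ => 2 / ((n : ℝ) + 1) * ((SG.NZ (t * u n) : ℝ) / nT (u n))⁻¹) atTop (𝓝 (0 * t⁻¹)) := by
        refine Tendsto.mul ?_ (hN.inv₀ ht.ne')
        exact tendsto_const_nhds.div_atTop (tendsto_atTop_add_const_right _ _ tendsto_natCast_atTop_atTop)
      rw [zero_mul] at hlim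
      refine squeeze_zero' (Eventually.of_forall fun n => by simp only [Function.comp]; positivity) ?_ hlim
      filter_upwards [tendsto_natCast_atTop_atTop.eventually_ge_atTop (2 * t),
        tendsto_natCast_atTop_atTop.eventually_ge_atTop (1 / ε),
        hN.eventually (lt_mem_nhds (show t / 2 < t by linarith))] with n hn1 hn2 hn3
      have k1 : 2 * t ≤ (n : ℝ) := hn1
      have k2 : 1 / ε ≤ (n : ℝ) := hn2
      have hn0 : (0 : ℝ) ≤ n := Nat.cast_nonneg n
      have hwn : 16 ≤ w n := by linarith [hw16 n]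
      have hun : 16 ≤ u n := hwn.trans (hub n).1
      have hnu : 0 < nT (u n) := nT_pos (by linarith)
      have hnw : 0 < nT (w n) := nT_pos (by linarith)
      simp only [Function.comp] at hn3 ⊢
      rw [lt_div_iff₀ hnu] at hn3
      have hNZ0 : (0 : ℝ) < SG.NZ (t * u n) := lt_of_le_of_lt (by positivity) hn3
      have hκ : t * u n ≤ ((n : ℝ) + 1) * w n := by
        have := (hub n).2
        nlinarith
      have hε2 : 1 / ((n : ℝ) + 1) ^ 2 ≤ ε := by
        rw [div_le_iff₀ (by positivity)]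
        rw [div_le_iff₀ hε] at k2
        nlinarith
      have c1 : ((BT R ε (t * u n)).card : ℝ) ≤ (BT R (1 / ((n : ℝ) + 1) ^ 2) (((n : ℝ) + 1) * w n)).card := by
        exact_mod_cast BT_mono hε2 hκ
      have hNZ1 : (0 : ℝ) < SG.NZ (((n : ℝ) + 1) * w n) := by
        have : (SG.NZ (t * u n) : ℝ) ≤ SG.NZ (((n : ℝ) + 1) * w n) := by exact_mod_cast SG.NZ_mono hκ
        linarith
      have c2 := hw2 n
      rw [div_le_iff₀ hNZ1] at c2
      have c3 := hT1b n (w n) (hw1 n)
      have c4 : nT (w n) ≤ nT (u n) := nT_mono (by linarith) (hub n).1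
      have c5 : ((BT R ε (t * u n)).card : ℝ) ≤ 2 / ((n : ℝ) + 1) * nT (u n) := by
        calc ((BT R ε (t * u n)).card : ℝ) ≤ 1 / ((n : ℝ) + 1) ^ 2 * SG.NZ (((n : ℝ) + 1) * w n) := c1.trans c2
          _ ≤ 1 / ((n : ℝ) + 1) ^ 2 * (2 * ((n : ℝ) + 1) * nT (u n)) := by
              gcongr
              exact c3.trans (by gcongr)
          _ = _ := by field_simp
      rw [inv_div, ← mul_div_assoc]
      gcongr
    rw [tendsto_map'_iff] at h1 ⊢
    exact h1
  have hfin := a_to_cl hRH hR (l := map u atTop) hut hx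
  rw [tendsto_map'_iff] at hfin
  have h1 := (Metric.tendsto_nhds.1 hfin δ hδ).exists
  obtain ⟨n, hn⟩ := h1
  simp only [Function.comp] at hn
  rw [hUt n, Real.dist_eq] at hn
  have := hw3 n
  linarith

end Pool.Agent.U507.AH
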