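import Pool.Agent.U507.AH.E12
import Pool.Agent.U507.PC.CV

/-!
# The characterisation of the minimal variance
-/

set_option autoImplicit false

open Complex Filter Topology Set MeasureTheory Metric
open scoped Real

namespace Pool.Agent.U507.AH

open Pool.Agent.U507.GM hiding step_low low_pt low_unif rigid
open Pool.Agent.U507.PC
open Pool.Agent.Y749.Rig (nT nT_pos)
open Pool.Agent.Y763.AH (PT BT PT_iff NZ_lim)

/-- the variance as an integral over the primes -/
lemma VR_eq {R T : ℝ} (hR : 0 < R) (hT : 1 < T) : VR R T = T / Real.log T ^ 2 * ∫ x in (1 : ℝ)..(T ^ R),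
    (R - Real.log x / Real.log T) * (Chebyshev.psi (x + x / T) - Chebyshev.psi x - x / T) ^ 2 / x ^ 2 := by
  have hT0 : 0 < T := by linarith
  have hlog : 0 < Real.log T := Real.log_pos hT
  have h1 : VR R T = ∫ α in Ioc 0 R, (R - α) * vs T α := by
    unfold VR
    have e : ∀ α ∈ Ioi (0 : ℝ), tn R α * vs T α = (Ioc 0 R).indicator (fun α => (R - α) * vs T α) α := by
      intro α hα
      by_cases h : α ≤ R
      · rw [indicator_of_mem (show α ∈ Ioc 0 R from ⟨hα, h⟩), tn, max_eq_right (by linarith)]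
      · rw [indicator_of_notMem (fun h' => h h'.2), tn, max_eq_left (by linarith [not_le.1 h]), zero_mul]
    rw [setIntegral_congr_fun measurableSet_Ioi e, setIntegral_indicator measurableSet_Ioc,
      inter_eq_right.2 fun x hx => hx.1]
  have hle : (1 : ℝ) ≤ T ^ R := Real.one_le_rpow hT.le hR.le
  have him := image_pow (a := 0) (b := R) hT
  rw [Real.rpow_zero] at him
  rw [h1, intervalIntegral.integral_of_le hle, ← him,
    integral_image_eq_integral_abs_deriv_smul (f' := fun α => T ^ α * Real.log T) measurableSet_Ioc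
      (fun α _ => (Real.hasStrictDerivAt_const_rpow hT0 α).hasDerivAt.hasDerivWithinAt)
      (fun α _ β _ h => (Real.rpow_right_inj hT0 hT.ne').1 h), ← integral_const_mul]
  refine setIntegral_congr_fun measurableSet_Ioc fun α _ => ?_
  have hX : 0 < T ^ α := Real.rpow_pos_of_pos hT0 α
  simp only [smul_eq_mul]
  rw [abs_of_pos (by positivity), vs, Dd, Real.log_rpow hT0, mul_div_cancel_right₀ _ hlog.ne']
  field_simp

/-- **the characterisation** -/
theorem main (hRH : RiemannHypothesis) {R : ℝ} (hR : 0 < R) :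
    (∀ ε : ℝ, 0 < ε → ∃ᶠ T : ℝ in atTop, (R ^ 2 - R) / 2 - ε < VR R T) ∧
    ((∀ ε : ℝ, 0 < ε → Tendsto (fun T => ((BT R ε T).card : ℝ) / SG.NZ T) atTop (𝓝 0)) →
      Tendsto (VR R) atTop (𝓝 ((R ^ 2 - R) / 2))) ∧
    ((∀ ε : ℝ, 0 < ε → ∀ᶠ T : ℝ in atTop, VR R T < (R ^ 2 - R) / 2 + ε) →
      ∀ ε : ℝ, 0 < ε → Tendsto (fun T => ((BT R ε T).card : ℝ) / SG.NZ T) atTop (𝓝 0)) := by
  refine ⟨fun ε hε hcon => ?_, fun h => ?_, fun h ε hε => ?_⟩
  · have h1 := lower hRH hR (A := (R ^ 2 - R) / 2 - ε) (by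
      filter_upwards [hcon] with T hT
      exact not_lt.1 hT)
    linarith
  · exact a_to_c hRH hR ((PT_iff hRH hR le_rfl).2 h)
  · exact b_to_a hRH hR (fun δ hδ => (h δ hδ).mono fun T hT => hT.le) hε

end Pool.Agent.U507.AH
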