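import Pool.Agent.U507.AH.E15
import Pool.Agent.U507.AH.Fin
import Pool.Agent.U507.PC.RHp

/-!
# The Riemann hypothesis from upper bounds for the variance near a sequence of heights
-/

set_option autoImplicit false

open Complex Filter Topology Set MeasureTheory Metric
open scoped Real ENNReal

namespace Pool.Agent.U507.AH

open Pool.Agent.U507.GM hiding step_low low_pt low_unif rigid
open Pool.Agent.U507.PC
open Pool.Agent.Y763.AH (BT Bad)

/-- **bounded means near a sequence of heights imply the Riemann hypothesis** -/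
theorem rh_of_window (h : ∀ a : ℝ, 1 ≤ a → ∃ K : ℝ, ∃ᶠ T in atTop, ∀ t ∈ Icc T (4 * T / 3), Mt t a (a + 1) ≤ K) :
    RiemannHypothesis := by
  by_contra hcon
  rw [Pool.Agent.W190.rh_free] at hcon
  push Not at hcon
  obtain ⟨s, hs1, hs0⟩ := hcon
  have hs2 : s.re < 1 := by
    by_contra h1
    exact riemannZeta_ne_zero_of_one_le_re (not_lt.1 h1) hs0
  obtain ⟨θ, hθ⟩ : ∃ θ : ℝ, θ = (1 / 2 + s.re) / 2 := ⟨_, rfl⟩
  have hθ1 : 1 / 2 < θ := by rw [hθ]; linarith
  have hθ2 : θ < s.re := by rw [hθ]; linarith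
  have hθ3 : 0 < 2 * θ - 1 := by linarith
  obtain ⟨a, ha⟩ : ∃ a : ℝ, a = 2 / (2 * θ - 1) := ⟨_, rfl⟩
  have ha2 : 2 ≤ a := by
    rw [ha, le_div_iff₀ hθ3]
    linarith
  obtain ⟨X1, hX1, hlarge⟩ := dd_large (A := a + 1 / 2) hθ1 ⟨s, hs0, hθ2⟩ (by linarith)
  obtain ⟨K, h1⟩ := h a (by linarith)
  -- choice of `T`
  have hgrow : Tendsto (fun T : ℝ => Real.log T ^ 2 / T) atTop (𝓝 0) := by
    have := (isLittleO_log_rpow_atTop (r := 1 / 2) (by norm_num)).tendsto_div_nhds_zero
    have h2 := this.pow 2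
    rw [zero_pow (by norm_num)] at h2
    refine h2.congr' ?_
    filter_upwards [eventually_gt_atTop 0] with T hT
    rw [div_pow, ← Real.rpow_natCast (T ^ (1 / 2 : ℝ)), ← Real.rpow_mul hT.le]
    norm_num
  have hg2 := (hgrow.const_mul (2 * (|K| + 1))).eventually_lt_const (show 2 * (|K| + 1) * 0 < 1 by norm_num)
  have hg3 := (tendsto_rpow_atTop (show (0 : ℝ) < 1 / 2 by norm_num)).eventually_ge_atTop ((4 / 3) ^ a)
  obtain ⟨T, hTw, ⟨hTa, hTb⟩, hTc⟩ := (h1.and_eventually ((hg2.and hg3).and (eventually_ge_atTop (max X1 16)))).exists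
  have hTX1 : X1 ≤ T := (le_max_left _ _).trans hTc
  have hT16 : 16 ≤ T := (le_max_right _ _).trans hTc
  have hTp : 0 < T := by linarith
  have hlog : 0 < Real.log T := Real.log_pos (by linarith)
  obtain ⟨X, hX⟩ : ∃ X : ℝ, X = T ^ (a + 1 / 2) := ⟨_, rfl⟩
  have hTX : T ≤ X := by
    rw [hX]
    calc T = T ^ (1 : ℝ) := (Real.rpow_one T).symm
      _ ≤ T ^ (a + 1 / 2) := Real.rpow_le_rpow_of_exponent_le (by linarith) (by linarith)
  have hXp : 0 < X := by linarith
  have hHX : X / T = X ^ (1 - 1 / (a + 1 / 2)) := by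
    rw [Real.rpow_sub hXp, Real.rpow_one]
    congr 1
    rw [hX, ← Real.rpow_mul hTp.le, mul_one_div_cancel (by linarith), Real.rpow_one]
  have hXθ : T ^ 2 ≤ X ^ (2 * θ - 1) := by
    rw [hX, ← Real.rpow_mul hTp.le, ← Real.rpow_natCast]
    apply Real.rpow_le_rpow_of_exponent_le (by linarith)
    have : a * (2 * θ - 1) = 2 := by rw [ha]; field_simp
    push_cast
    nlinarith
  -- the double integral
  obtain ⟨Lw, hLw⟩ : ∃ Lw : ℝ≥0∞, Lw = ∫⁻ H in Ioc (33 * X / (40 * T)) (X / T),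
      ∫⁻ y in Ioc X (X + 1 / 10 * X), ENNReal.ofReal (Dd y H ^ 2) := ⟨_, rfl⟩
  have hlow : ENNReal.ofReal ((X / T) ^ 3 * X ^ (2 * θ - 1)) ≤ Lw := by
    have h2 : ∀ H ∈ Ioc (33 * X / (40 * T)) (X / T), ENNReal.ofReal (10 * (33 * X / (40 * T)) ^ 2 * X ^ (2 * θ - 1)) ≤
        ∫⁻ y in Ioc X (X + 1 / 10 * X), ENNReal.ofReal (Dd y H ^ 2) := by
      intro H hH
      have hH0 : 0 < H := lt_trans (by positivity) hH.1
      have h3 := hlarge X H (hTX1.trans hTX) hH0 (by rw [← hHX]; exact hH.2)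
      have h4 := Dd_sq_ii H X (X + 1 / 10 * X)
      rw [intervalIntegrable_iff, uIoc_of_le (by linarith)] at h4
      rw [intervalIntegral.integral_of_le (by linarith)] at h3
      rw [← ofReal_integral_eq_lintegral_ofReal h4 (ae_of_all _ fun y => sq_nonneg _)]
      apply ENNReal.ofReal_le_ofReal
      refine le_trans ?_ h3
      have := hH.1
      gcongr
    calc ENNReal.ofReal ((X / T) ^ 3 * X ^ (2 * θ - 1)) ≤
          ENNReal.ofReal (10 * (33 * X / (40 * T)) ^ 2 * X ^ (2 * θ - 1)) * volume (Ioc (33 * X / (40 * T)) (X / T)) := by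
          rw [Real.volume_Ioc, ← ENNReal.ofReal_mul (by positivity)]
          apply ENNReal.ofReal_le_ofReal
          have e : 10 * (33 * X / (40 * T)) ^ 2 * X ^ (2 * θ - 1) * (X / T - 33 * X / (40 * T)) =
              (10 * (33 / 40) ^ 2 * (7 / 40)) * ((X / T) ^ 3 * X ^ (2 * θ - 1)) := by
            field_simp
            ring
          rw [e]
          apply le_mul_of_one_le_left (by positivity)
          norm_num
      _ = ∫⁻ H in Ioc (33 * X / (40 * T)) (X / T), ENNReal.ofReal (10 * (33 * X / (40 * T)) ^ 2 * X ^ (2 * θ - 1)) := by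
          rw [setLIntegral_const]
      _ ≤ _ := by
          rw [hLw]
          exact setLIntegral_mono' measurableSet_Ioc h2
  have hup : Lw ≤ ENNReal.ofReal (T / 3 * (2 * X ^ 3 / T ^ 2 * (Real.log (4 * T / 3) ^ 2 / T * |K|))) := by
    have hmeas : Measurable fun p : ℝ × ℝ => ENNReal.ofReal (Dd p.2 p.1 ^ 2) :=
      ((Dd_meas2.comp measurable_swap).pow_const 2).ennreal_ofReal
    rw [hLw, lintegral_lintegral_swap hmeas.aemeasurable]
    have hm2 : Measurable fun p : ℝ × ℝ => ENNReal.ofReal (p.1 / p.2 ^ 2) * ENNReal.ofReal (Dd p.1 (p.1 / p.2) ^ 2) :=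
      (by fun_prop : Measurable fun p : ℝ × ℝ => p.1 / p.2 ^ 2).ennreal_ofReal.mul
        ((Dd_meas2.comp (measurable_fst.prodMk (measurable_fst.div measurable_snd))).pow_const 2).ennreal_ofReal
    calc ∫⁻ y in Ioc X (X + 1 / 10 * X), ∫⁻ H in Ioc (33 * X / (40 * T)) (X / T), ENNReal.ofReal (Dd y H ^ 2) ≤
          ∫⁻ y in Ioc X (X + 1 / 10 * X), ∫⁻ t in Icc T (4 * T / 3),
            ENNReal.ofReal (y / t ^ 2) * ENNReal.ofReal (Dd y (y / t) ^ 2) :=
          setLIntegral_mono' measurableSet_Ioc fun y hy => cv_H hXp hTp hy.1.le hy.2 (fun H => ENNReal.ofReal (Dd y H ^ 2))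
      _ = ∫⁻ t in Icc T (4 * T / 3), ∫⁻ y in Ioc X (X + 1 / 10 * X),
            ENNReal.ofReal (y / t ^ 2) * ENNReal.ofReal (Dd y (y / t) ^ 2) :=
          lintegral_lintegral_swap hm2.aemeasurable
      _ ≤ ∫⁻ t in Icc T (4 * T / 3), ENNReal.ofReal (2 * X ^ 3 / T ^ 2 * (Real.log (4 * T / 3) ^ 2 / T * |K|)) := by
          refine setLIntegral_mono' measurableSet_Icc fun t ht => ?_
          have ht0 : 0 < t := hTp.trans_le ht.1
          have ht1 : 1 < t := by linarith [ht.1]
          have hlt : 0 < Real.log t := Real.log_pos ht1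
          have q1 : t ^ a ≤ X := by
            calc t ^ a ≤ (4 * T / 3) ^ a := Real.rpow_le_rpow ht0.le ht.2 (by linarith)
              _ = (4 / 3) ^ a * T ^ a := by
                  rw [← Real.mul_rpow (by norm_num) hTp.le]
                  congr 1
                  ring
              _ ≤ T ^ ((1 : ℝ) / 2) * T ^ a := by gcongr
              _ = X := by
                  rw [hX, ← Real.rpow_add hTp]
                  congr 1
                  ring
          have q2 : X + 1 / 10 * X ≤ t ^ (a + 1) := by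
            have e : T ^ (a + 1) = X * T ^ ((1 : ℝ) / 2) := by
              rw [hX, ← Real.rpow_add hTp]
              congr 1
              ring
            have e2 : (2 : ℝ) ≤ T ^ ((1 : ℝ) / 2) := by
              rw [← Real.sqrt_eq_rpow]
              exact Real.le_sqrt_of_sq_le (by linarith)
            calc X + 1 / 10 * X ≤ X * 2 := by linarith
              _ ≤ X * T ^ ((1 : ℝ) / 2) := by gcongr
              _ = T ^ (a + 1) := e.symm
              _ ≤ t ^ (a + 1) := Real.rpow_le_rpow hTp.le ht.1 (by linarith)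
          have q3 : 1 ≤ t ^ a := Real.one_le_rpow ht1.le (by linarith)
          have hsub : Ioc X (X + 1 / 10 * X) ⊆ Ioc (t ^ a) (t ^ (a + 1)) := fun y hy => ⟨lt_of_le_of_lt q1 hy.1, hy.2.trans q2⟩
          have hle : t ^ a ≤ t ^ (a + 1) := Real.rpow_le_rpow_of_exponent_le ht1.le (by linarith)
          have hM := hTw t ht
          unfold Mt at hM
          rw [intervalIntegral.integral_of_le hle] at hM
          have hM2 : ∫ x in Ioc (t ^ a) (t ^ (a + 1)), Dd x (x / t) ^ 2 / x ^ 2 ≤ Real.log (4 * T / 3) ^ 2 / T * |K| := by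
            have h5 : t / Real.log t ^ 2 * ∫ x in Ioc (t ^ a) (t ^ (a + 1)), Dd x (x / t) ^ 2 / x ^ 2 ≤ |K| :=
              hM.trans (le_abs_self K)
            rw [div_mul_eq_mul_div, div_le_iff₀ (by positivity)] at h5
            have h6 : ∫ x in Ioc (t ^ a) (t ^ (a + 1)), Dd x (x / t) ^ 2 / x ^ 2 ≤ |K| * Real.log t ^ 2 / t := by
              rw [le_div_iff₀ ht0]
              linarith
            refine h6.trans ?_
            have h7 : Real.log t ≤ Real.log (4 * T / 3) := Real.log_le_log ht0 ht.2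
            calc |K| * Real.log t ^ 2 / t = Real.log t ^ 2 / t * |K| := by ring
              _ ≤ _ := by
                  have := ht.1
                  gcongr
          calc ∫⁻ y in Ioc X (X + 1 / 10 * X), ENNReal.ofReal (y / t ^ 2) * ENNReal.ofReal (Dd y (y / t) ^ 2) ≤
                ∫⁻ y in Ioc X (X + 1 / 10 * X), ENNReal.ofReal (2 * X ^ 3 / T ^ 2) * ENNReal.ofReal (Dd y (y / t) ^ 2 / y ^ 2) := by
                refine setLIntegral_mono' measurableSet_Ioc fun y hy => ?_
                have hy0 : 0 < y := hXp.trans hy.1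
                rw [← ENNReal.ofReal_mul (by positivity), ← ENNReal.ofReal_mul (by positivity)]
                apply ENNReal.ofReal_le_ofReal
                have h8 : y ^ 3 ≤ 2 * X ^ 3 := by
                  have h9 : y ^ 3 ≤ (X + 1 / 10 * X) ^ 3 := pow_le_pow_left₀ hy0.le hy.2 3
                  have h10 : (X + 1 / 10 * X) ^ 3 = (11 / 10) ^ 3 * X ^ 3 := by ring
                  rw [h10] at h9
                  refine h9.trans ?_
                  gcongr
                  norm_num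
                have h9 : y ^ 3 / t ^ 2 ≤ 2 * X ^ 3 / T ^ 2 := by
                  have := ht.1
                  gcongr
                calc y / t ^ 2 * Dd y (y / t) ^ 2 = y ^ 3 / t ^ 2 * (Dd y (y / t) ^ 2 / y ^ 2) := by
                      field_simp
                  _ ≤ _ := by gcongr
            _ = ENNReal.ofReal (2 * X ^ 3 / T ^ 2) * ∫⁻ y in Ioc X (X + 1 / 10 * X), ENNReal.ofReal (Dd y (y / t) ^ 2 / y ^ 2) := by
                rw [lintegral_const_mul]
                exact (((Dd_meas2.comp (measurable_id.prodMk (measurable_id.div_const t))).pow_const 2).div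
                  (by fun_prop)).ennreal_ofReal
            _ ≤ ENNReal.ofReal (2 * X ^ 3 / T ^ 2) * ∫⁻ y in Ioc (t ^ a) (t ^ (a + 1)), ENNReal.ofReal (Dd y (y / t) ^ 2 / y ^ 2) := by
                gcongr
            _ = ENNReal.ofReal (2 * X ^ 3 / T ^ 2) * ENNReal.ofReal (∫ y in Ioc (t ^ a) (t ^ (a + 1)), Dd y (y / t) ^ 2 / y ^ 2) := by
                rw [ofReal_integral_eq_lintegral_ofReal (Pool.Agent.U507.PC.D_int ht1.le q3) (ae_of_all _ fun y => by positivity)]
            _ ≤ ENNReal.ofReal (2 * X ^ 3 / T ^ 2) * ENNReal.ofReal (Real.log (4 * T / 3) ^ 2 / T * |K|) := by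
                gcongr
            _ = _ := by rw [← ENNReal.ofReal_mul (by positivity)]
      _ = _ := by
          rw [setLIntegral_const, Real.volume_Icc, ← ENNReal.ofReal_mul (by positivity)]
          congr 1
          ring
  have hfin := hlow.trans hup
  rw [ENNReal.ofReal_le_ofReal_iff (by positivity)] at hfin
  have hl43 : Real.log (4 * T / 3) ≤ 3 / 2 * Real.log T := by
    have h2 : Real.log (4 * T / 3) = Real.log (4 / 3) + Real.log T := by
      rw [← Real.log_mul (by norm_num) hTp.ne']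
      congr 1
      ring
    have h3 : Real.log (4 / 3) ≤ 1 / 3 := by
      have := Real.log_le_sub_one_of_pos (x := 4 / 3) (by norm_num)
      linarith
    have h4 : 1 ≤ Real.log T := by
      rw [Real.le_log_iff_exp_le hTp]
      have := Real.exp_one_lt_d9
      linarith
    linarith
  have hl43' : 0 ≤ Real.log (4 * T / 3) := Real.log_nonneg (by linarith)
  have h5 : Real.log (4 * T / 3) ^ 2 ≤ 9 / 4 * Real.log T ^ 2 := by
    calc Real.log (4 * T / 3) ^ 2 ≤ (3 / 2 * Real.log T) ^ 2 := pow_le_pow_left₀ hl43' hl43 2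
      _ = _ := by ring
  have h6 : (X / T) ^ 3 * T ^ 2 ≤ T / 3 * (2 * X ^ 3 / T ^ 2 * (9 / 4 * Real.log T ^ 2 / T * |K|)) := by
    calc (X / T) ^ 3 * T ^ 2 ≤ (X / T) ^ 3 * X ^ (2 * θ - 1) := by gcongr
      _ ≤ _ := hfin
      _ ≤ _ := by gcongr
  have e1 : (X / T) ^ 3 * T ^ 2 = (X ^ 3 / T ^ 2) * T := by field_simp
  have e2 : T / 3 * (2 * X ^ 3 / T ^ 2 * (9 / 4 * Real.log T ^ 2 / T * |K|)) =
      (X ^ 3 / T ^ 2) * (3 / 2 * |K| * Real.log T ^ 2) := by field_simp; ring
  rw [e1, e2] at h6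
  have h7 : T ≤ 3 / 2 * |K| * Real.log T ^ 2 := le_of_mul_le_mul_left h6 (by positivity)
  rw [mul_div_assoc'] at hTa
  rw [div_lt_one hTp] at hTa
  have hK := abs_nonneg K
  nlinarith [sq_nonneg (Real.log T)]


lemma tn_vs_nonneg {R T : ℝ} (hT : 2 ≤ T) (α : ℝ) : 0 ≤ tn R α * vs T α :=
  mul_nonneg (le_max_left _ _) (vs_nonneg hT α)

lemma tn_vs_int {R T : ℝ} (hR : 0 < R) (hT : 16 ≤ T) : IntegrableOn (fun α => tn R α * vs T α) (Ioi 0) := by
  have h1 : IntegrableOn (fun α => tn R α * vs T α) (Ioc 0 R) := by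
    have h := (vs_ii hT le_rfl hR.le).continuousOn_mul (tn_cont R).continuousOn
    rwa [intervalIntegrable_iff, uIoc_of_le hR.le] at h
  have h2 : IntegrableOn (fun α => tn R α * vs T α) (Ioi R) := by
    refine (integrableOn_zero).congr_fun (fun α hα => ?_) measurableSet_Ioi
    simp only
    rw [tn, max_eq_left (by linarith [mem_Ioi.1 hα]), zero_mul]
  have h3 := h1.union h2
  rwa [Ioc_union_Ioi_eq_Ioi hR.le] at h3

lemma VR_mono {S R T : ℝ} (hS : 0 < S) (hSR : S ≤ R) (hT : 16 ≤ T) : VR S T ≤ VR R T := by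
  refine setIntegral_mono (tn_vs_int hS hT) (tn_vs_int (hS.trans_le hSR) hT) fun α => ?_
  refine mul_le_mul_of_nonneg_right ?_ (vs_nonneg (by linarith) α)
  unfold tn
  exact max_le_max le_rfl (by linarith)

lemma Mt_le_VR {a R T : ℝ} (ha : 0 ≤ a) (hR : a + 2 ≤ R) (hT : 16 ≤ T) : Mt T a (a + 1) ≤ VR R T := by
  rw [← vs_M (by linarith) (by linarith), intervalIntegral.integral_of_le (by linarith)]
  have h1 := tn_vs_int (R := R) (by linarith) hT
  have h2 : ∫ α in Ioc a (a + 1), vs T α ≤ ∫ α in Ioc a (a + 1), tn R α * vs T α := by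
    have h3 := vs_ii hT ha (show 0 ≤ a + 1 by linarith)
    rw [intervalIntegrable_iff, uIoc_of_le (by linarith)] at h3
    refine setIntegral_mono_on h3 (h1.mono_set fun α hα => lt_of_le_of_lt ha hα.1) measurableSet_Ioc fun α hα => ?_
    have h4 : 1 ≤ tn R α := le_trans (by linarith [hα.2]) (le_max_right _ _)
    exact le_mul_of_one_le_left (vs_nonneg (by linarith) α) h4
  refine h2.trans (setIntegral_mono_set h1 ?_ ?_)
  · exact ae_of_all _ fun α => tn_vs_nonneg (by linarith) α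
  · exact ae_of_all _ fun α (hα : α ∈ Ioc a (a + 1)) => (lt_of_le_of_lt ha hα.1 : 0 < α)

/-- upper bounds for the variances with arbitrarily large `R`, near a sequence of heights -/
theorem rh_of_VR (h : ∀ R₀ : ℝ, ∃ R K : ℝ, R₀ ≤ R ∧ ∃ᶠ T in atTop, ∀ t ∈ Icc T (4 * T / 3), VR R t ≤ K) :
    RiemannHypothesis := by
  refine rh_of_window fun a ha => ?_
  obtain ⟨R, K, hR, hK⟩ := h (a + 2)
  refine ⟨K, (hK.and_eventually (eventually_ge_atTop (16 : ℝ))).mono fun T hT t ht => ?_⟩
  exact (Mt_le_VR (by linarith) hR (hT.2.trans ht.1)).trans (hT.1 t ht)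

/-- the lower bound without any hypothesis for large `R` -/
theorem low_all : ∃ R₀ : ℝ, ∀ R : ℝ, 0 < R → (RiemannHypothesis ∨ R₀ ≤ R) → ∀ δ : ℝ, 0 < δ → ∃ K T0 : ℝ, 1 ≤ K ∧
    ∀ T : ℝ, T0 ≤ T → ∃ T' ∈ Icc (T / K) (K * T), (R ^ 2 - R) / 2 - δ < VR R T' := by
  by_cases hRH : RiemannHypothesis
  · exact ⟨0, fun R hR _ δ hδ => loc_low hRH hR hδ⟩
  · have h1 : ∃ R₀ : ℝ, ∀ R K : ℝ, R₀ ≤ R → ¬ ∃ᶠ T in atTop, ∀ t ∈ Icc T (4 * T / 3), VR R t ≤ K := by
      by_contra hcon
      push Not at hcon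
      exact hRH (rh_of_VR fun R₀ => by
        obtain ⟨R, K, h1, h2⟩ := hcon R₀
        exact ⟨R, K, h1, h2⟩)
    obtain ⟨R₀, hR₀⟩ := h1
    refine ⟨R₀, fun R hR hor δ hδ => ?_⟩
    have h2 := hR₀ R ((R ^ 2 - R) / 2 - δ) (hor.resolve_left hRH)
    rw [not_frequently] at h2
    obtain ⟨T0, hT0⟩ := eventually_atTop.1 h2
    refine ⟨2, max T0 0, by norm_num, fun T hT => ?_⟩
    have hT1 : 0 ≤ T := (le_max_right _ _).trans hT
    have h3 := hT0 T ((le_max_left _ _).trans hT)
    push Not at h3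
    obtain ⟨t, ht, h4⟩ := h3
    exact ⟨t, ⟨by linarith [ht.1], by linarith [ht.2]⟩, h4⟩

/-- near the multiples of `1 / R` is near the multiples of `1 / (k R)` -/
lemma BT_mul {R ε T : ℝ} {k : ℕ} (hk : 1 ≤ k) (hR : 0 < R) : (BT (k * R) ε T).card ≤ (BT R ε T).card := by
  classical
  refine Finset.card_le_card fun n hn => ?_
  unfold BT Pool.Agent.Y763.AH.Bad at hn ⊢
  rw [Finset.mem_filter] at hn ⊢
  refine ⟨hn.1, fun m hm => ?_⟩
  have h := hn.2 (m * k) (Nat.mul_pos (by omega) (by omega))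
  have hk0 : (0 : ℝ) < k := by exact_mod_cast hk
  have e : ((m * k : ℕ) : ℝ) / (k * R) = m / R := by
    push_cast
    field_simp
  rwa [e] at h

end Pool.Agent.U507.AH
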