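import Pool.Agent.U507.AH.E16

/-!
# The minimal value is not attained for two incommensurable values of `R`
-/

set_option autoImplicit false

open Complex Filter Topology Set MeasureTheory Metric
open scoped Real

namespace Pool.Agent.U507.AH

open Pool.Agent.Y749.Rig (nT nT_pos)
open Pool.Agent.Y763.AH (BT Bad NZ_lim nT_atTop)
open H177.Lat (del)

lemma del_nn {n : ℕ} (hn : 1 ≤ n) (h : 1 ≤ SG.ord n) : 0 ≤ del n := by
  unfold H177.Lat.del
  have h1 : SG.ord n ≤ SG.ord (n + 1) := SG.ord_mono hn (Nat.le_succ n)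
  have h2 : Real.log (SG.ord n) ≤ Real.log (SG.ord (n + 1)) := Real.log_le_log (by linarith) h1
  have h3 : 0 ≤ Real.log (SG.ord n) := Real.log_nonneg h
  have h0 : 0 ≤ SG.ord (n + 1) := by linarith
  have h4 : SG.ord n * Real.log (SG.ord n) ≤ SG.ord (n + 1) * Real.log (SG.ord (n + 1)) :=
    mul_le_mul h1 h2 h3 h0
  have := Real.pi_pos
  apply div_nonneg (by linarith) (by positivity)

/-- few spacings are large -/
lemma large_few : ∀ᶠ T in atTop, (((Finset.Ioc 0 (SG.NZ T)).filter (fun n => 4 < del n)).card : ℝ) ≤ 3 / 8 * SG.NZ T := by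
  have hπ := Real.pi_pos
  obtain ⟨n0, hn0⟩ := eventually_atTop.1 (SG.ord_tendsto.eventually_ge_atTop 1)
  obtain ⟨m0, hm0⟩ : ∃ m0 : ℕ, m0 = max n0 1 := ⟨_, rfl⟩
  have hm1 : 1 ≤ m0 := by rw [hm0]; exact le_max_right _ _
  have hm : ∀ n, m0 ≤ n → 1 ≤ SG.ord n := fun n h => hn0 n (le_trans (by rw [hm0]; exact le_max_left _ _) h)
  filter_upwards [NZ_lim.eventually (lt_mem_nhds (show (0.9 : ℝ) < 1 by norm_num)), eventually_ge_atTop 10,
    nT_atTop.eventually_ge_atTop (100 * ((m0 : ℝ) + 1))] with T h1 h2 h3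
  have hnT : 0 < nT T := nT_pos h2
  obtain ⟨N, hN⟩ : ∃ N : ℕ, N = SG.NZ T := ⟨_, rfl⟩
  rw [← hN] at h1 ⊢
  have hN2 : 0.9 * nT T ≤ N := by
    rw [lt_div_iff₀ hnT] at h1
    exact h1.le
  have hm0N : m0 < N := by
    have : (m0 : ℝ) < N := by
      have : (0 : ℝ) ≤ m0 := Nat.cast_nonneg _
      linarith
    exact_mod_cast this
  have hN1 : 1 ≤ N := by omega
  have hTN : SG.ord N ≤ T := (SG.ord_le_iff hN1 T).2 (by rw [← hN])
  obtain ⟨A, hA⟩ : ∃ A : Finset ℕ, A = (Finset.Ico m0 N).filter (fun n => 4 < del n) := ⟨_, rfl⟩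
  have hdn : ∀ n ∈ Finset.Ico m0 N, 0 ≤ del n := fun n hn => by
    have := (Finset.mem_Ico.1 hn).1
    exact del_nn (by omega) (hm n this)
  have hA1 : 4 * (A.card : ℝ) ≤ ∑ n ∈ Finset.Ico m0 N, del n := by
    calc 4 * (A.card : ℝ) = ∑ n ∈ A, (4 : ℝ) := by rw [Finset.sum_const, nsmul_eq_mul, mul_comm]
      _ ≤ ∑ n ∈ A, del n := Finset.sum_le_sum fun n hn => by
          rw [hA] at hn
          exact (Finset.mem_filter.1 hn).2.le
      _ ≤ ∑ n ∈ Finset.Ico m0 N, del n := by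
          rw [hA]
          exact Finset.sum_le_sum_of_subset_of_nonneg (Finset.filter_subset _ _) fun n hn _ => hdn n hn
  have hA2 : ∑ n ∈ Finset.Ico m0 N, del n ≤ nT T := by
    have e : ∀ n, del n = SG.ord (n + 1) * Real.log (SG.ord (n + 1)) / (2 * π) - SG.ord n * Real.log (SG.ord n) / (2 * π) :=
      fun n => by unfold H177.Lat.del; ring
    rw [Finset.sum_congr rfl fun n _ => e n,
      Finset.sum_Ico_sub (fun n => SG.ord n * Real.log (SG.ord n) / (2 * π)) hm0N.le]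
    have h5 := hm m0 le_rfl
    have h6 := hm N hm0N.le
    have h7 : 0 ≤ SG.ord m0 * Real.log (SG.ord m0) / (2 * π) := by
      have := Real.log_nonneg h5
      positivity
    have h8 : SG.ord N * Real.log (SG.ord N) / (2 * π) ≤ nT T := by
      have h9 : Real.log (SG.ord N) ≤ Real.log T := Real.log_le_log (by linarith) hTN
      have h10 : 0 ≤ Real.log (SG.ord N) := Real.log_nonneg h6
      unfold nT
      gcongr
    linarith
  have hsub : (Finset.Ioc 0 N).filter (fun n => 4 < del n) ⊆ Finset.range m0 ∪ A ∪ {N} := by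
    intro n hn
    rw [Finset.mem_filter, Finset.mem_Ioc] at hn
    rw [Finset.mem_union, Finset.mem_union, Finset.mem_range, Finset.mem_singleton, hA, Finset.mem_filter,
      Finset.mem_Ico]
    by_cases h5 : n < m0
    · exact Or.inl (Or.inl h5)
    by_cases h6 : n < N
    · exact Or.inl (Or.inr ⟨⟨by omega, h6⟩, hn.2⟩)
    · exact Or.inr (by omega)
  have hc : (((Finset.Ioc 0 N).filter (fun n => 4 < del n)).card : ℝ) ≤ m0 + A.card + 1 := by
    have h5 := Finset.card_le_card hsub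
    have h6 := Finset.card_union_le (Finset.range m0 ∪ A) {N}
    have h7 := Finset.card_union_le (Finset.range m0) A
    rw [Finset.card_range] at h7
    rw [Finset.card_singleton] at h6
    have h8 : ((Finset.Ioc 0 N).filter (fun n => 4 < del n)).card ≤ m0 + A.card + 1 := by omega
    exact_mod_cast h8
  linarith

/-- the two lattices have no common points up to `5` -/
lemma lattices {R R' : ℝ} (hR : 0 < R) (hR' : 0 < R') (hirr : Irrational (R / R')) : ∃ e : ℝ, 0 < e ∧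
    ∀ k m : ℕ, 1 ≤ k → 1 ≤ m → (k : ℝ) ≤ 5 * R → (m : ℝ) ≤ 5 * R' → e ≤ |(k : ℝ) / R - m / R'| := by
  classical
  obtain ⟨F, hF⟩ : ∃ F : Finset (ℕ × ℕ), F = Finset.Icc 1 ⌊5 * R⌋₊ ×ˢ Finset.Icc 1 ⌊5 * R'⌋₊ := ⟨_, rfl⟩
  have hmem : ∀ k m : ℕ, 1 ≤ k → 1 ≤ m → (k : ℝ) ≤ 5 * R → (m : ℝ) ≤ 5 * R' → (k, m) ∈ F := by
    intro k m hk hm h1 h2
    rw [hF, Finset.mem_product, Finset.mem_Icc, Finset.mem_Icc]
    exact ⟨⟨hk, Nat.le_floor h1⟩, ⟨hm, Nat.le_floor h2⟩⟩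
  have hpos : ∀ p ∈ F, 0 < |(p.1 : ℝ) / R - p.2 / R'| := by
    intro p hp
    rw [hF, Finset.mem_product, Finset.mem_Icc, Finset.mem_Icc] at hp
    have hp2 : (0 : ℝ) < p.2 := by exact_mod_cast hp.2.1
    rw [abs_pos]
    intro h
    apply hirr
    refine ⟨(p.1 : ℚ) / p.2, ?_⟩
    push_cast
    rw [sub_eq_zero, div_eq_div_iff hR.ne' hR'.ne'] at h
    rw [div_eq_div_iff hp2.ne' hR'.ne']
    linarith
  by_cases hne : F.Nonempty
  · obtain ⟨p, hp, hmin⟩ := F.exists_min_image (fun p => |(p.1 : ℝ) / R - p.2 / R'|) hne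
    exact ⟨_, hpos p hp, fun k m hk hm h1 h2 => hmin (k, m) (hmem k m hk hm h1 h2)⟩
  · refine ⟨1, one_pos, fun k m hk hm h1 h2 => ?_⟩
    exact absurd ⟨_, hmem k m hk hm h1 h2⟩ hne

/-- on the Riemann hypothesis, the minimal value is exceeded by a constant for one of two incommensurable values -/
theorem two_RH (hRH : RiemannHypothesis) {R R' : ℝ} (hR : 0 < R) (hR' : 0 < R') (hirr : Irrational (R / R')) :
    ∃ c K T0 : ℝ, 0 < c ∧ 1 ≤ K ∧ ∀ T : ℝ, T0 ≤ T → ∃ T' ∈ Icc (T / K) (K * T),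
      (R ^ 2 - R) / 2 + c < VR R T' ∨ (R' ^ 2 - R') / 2 + c < VR R' T' := by
  classical
  obtain ⟨e, he, hlat⟩ := lattices hR hR' hirr
  obtain ⟨ε, hε⟩ : ∃ ε : ℝ, ε = min (1 / 8) (e / 2) := ⟨_, rfl⟩
  have hε0 : 0 < ε := by rw [hε]; exact lt_min (by norm_num) (by positivity)
  have hε1 : ε ≤ 1 / 8 := by rw [hε]; exact min_le_left _ _
  have hε2 : ε ≤ e / 2 := by rw [hε]; exact min_le_right _ _
  obtain ⟨δ1, K1, T1, hδ1, hK1, h1⟩ := loc_ba hRH hR hε0
  obtain ⟨δ2, K2, T2, hδ2, hK2, h2⟩ := loc_ba hRH hR' hε0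
  obtain ⟨T3, h3⟩ := eventually_atTop.1 (large_few.and ((NZ_lim.eventually (lt_mem_nhds (show (0.9 : ℝ) < 1 by norm_num))).and
    (nT_atTop.eventually_ge_atTop 2)))
  refine ⟨min δ1 δ2, max K1 K2, max (max T1 T2) (max T3 1), lt_min hδ1 hδ2, hK1.trans (le_max_left _ _), fun T hT => ?_⟩
  have hT1 : T1 ≤ T := (le_max_left _ _).trans ((le_max_left _ _).trans hT)
  have hT2 : T2 ≤ T := (le_max_right _ _).trans ((le_max_left _ _).trans hT)
  have hT3 : T3 ≤ T := (le_max_left _ _).trans ((le_max_right _ _).trans hT)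
  have hT4 : 1 ≤ T := (le_max_right _ _).trans ((le_max_right _ _).trans hT)
  by_contra hcon
  push Not at hcon
  have hK0 : 0 < K1 := by linarith
  have hK0' : 0 < K2 := by linarith
  have b1 := h1 T hT1 fun T' hT' => by
    have h5 := (hcon T' ⟨le_trans (by gcongr; exact le_max_left _ _) hT'.1,
      hT'.2.trans (by gcongr; exact le_max_left _ _)⟩).1
    linarith [min_le_left δ1 δ2]
  have b2 := h2 T hT2 fun T' hT' => by
    have h5 := (hcon T' ⟨le_trans (by gcongr; exact le_max_right _ _) hT'.1,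
      hT'.2.trans (by gcongr; exact le_max_right _ _)⟩).2
    linarith [min_le_right δ1 δ2]
  obtain ⟨b3, b4, b5⟩ := h3 T hT3
  have hnT : 0 < nT T := by linarith
  rw [lt_div_iff₀ hnT] at b4
  obtain ⟨N, hN⟩ : ∃ N : ℕ, N = SG.NZ T := ⟨_, rfl⟩
  rw [← hN] at b1 b2 b3 b4
  have hNp : (0 : ℝ) < N := by linarith
  rw [div_le_iff₀ hNp] at b1 b2
  -- a good index
  obtain ⟨n, hn1, hn2⟩ : ∃ n ∈ Finset.Ioc 0 N, n ∉ BT R ε T ∪ BT R' ε T ∪ (Finset.Ioc 0 N).filter (fun n => 4 < del n) := by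
    by_contra hall
    push Not at hall
    have h5 := Finset.card_le_card (show Finset.Ioc 0 N ⊆ _ from hall)
    have h6 := Finset.card_union_le (BT R ε T ∪ BT R' ε T) ((Finset.Ioc 0 N).filter (fun n => 4 < del n))
    have h7 := Finset.card_union_le (BT R ε T) (BT R' ε T)
    rw [Nat.card_Ioc, Nat.sub_zero] at h5
    have h8 : (N : ℝ) ≤ (BT R ε T).card + (BT R' ε T).card + ((Finset.Ioc 0 N).filter (fun n => 4 < del n)).card := by
      exact_mod_cast (by omega : N ≤ (BT R ε T).card + (BT R' ε T).card + ((Finset.Ioc 0 N).filter (fun n => 4 < del n)).card)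
    have h9 : ε * (N : ℝ) ≤ 1 / 8 * N := by gcongr
    linarith
  rw [Finset.mem_union, Finset.mem_union, not_or, not_or] at hn2
  obtain ⟨⟨g1, g2⟩, g3⟩ := hn2
  have hdel : del n ≤ 4 := by
    by_contra hcon2
    exact g3 (Finset.mem_filter.2 ⟨hn1, not_le.1 hcon2⟩)
  have hB : ∀ Q : ℝ, n ∉ BT Q ε T → ∃ k : ℕ, 1 ≤ k ∧ |del n - k / Q| < ε := by
    intro Q hQ
    by_contra hall
    push Not at hall
    apply hQ
    unfold BT Pool.Agent.Y763.AH.Bad
    rw [Finset.mem_filter, ← hN]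
    exact ⟨hn1, hall⟩
  obtain ⟨k, hk, hk2⟩ := hB R g1
  obtain ⟨m, hm, hm2⟩ := hB R' g2
  have a1 := abs_lt.1 hk2
  have a2 := abs_lt.1 hm2
  have c1 : (k : ℝ) ≤ 5 * R := by
    have : (k : ℝ) / R ≤ 5 := by linarith [a1.1]
    rwa [div_le_iff₀ hR] at this
  have c2 : (m : ℝ) ≤ 5 * R' := by
    have : (m : ℝ) / R' ≤ 5 := by linarith [a2.1]
    rwa [div_le_iff₀ hR'] at this
  have c3 := hlat k m hk hm c1 c2
  have c4 : |(k : ℝ) / R - m / R'| < e := by
    rw [abs_lt]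
    constructor <;> linarith [a1.1, a1.2, a2.1, a2.2]
  linarith

/-- the lower bounds, without any hypothesis for large `R` -/
theorem low_all2 : ∃ R₀ : ℝ,
    (∀ R : ℝ, 0 < R → (RiemannHypothesis ∨ R₀ ≤ R) → ∀ δ : ℝ, 0 < δ → ∃ K T0 : ℝ, 1 ≤ K ∧
      ∀ T : ℝ, T0 ≤ T → ∃ T' ∈ Icc (T / K) (K * T), (R ^ 2 - R) / 2 - δ < VR R T') ∧
    ∀ R R' : ℝ, 0 < R → 0 < R' → (RiemannHypothesis ∨ R₀ ≤ R) → Irrational (R / R') →
      ∃ c K T0 : ℝ, 0 < c ∧ 1 ≤ K ∧ ∀ T : ℝ, T0 ≤ T → ∃ T' ∈ Icc (T / K) (K * T),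
        (R ^ 2 - R) / 2 + c < VR R T' ∨ (R' ^ 2 - R') / 2 + c < VR R' T' := by
  by_cases hRH : RiemannHypothesis
  · exact ⟨0, fun R hR _ δ hδ => loc_low hRH hR hδ, fun R R' hR hR' _ h => two_RH hRH hR hR' h⟩
  · have h1 : ∃ R₀ : ℝ, ∀ R K : ℝ, R₀ ≤ R → ¬ ∃ᶠ T in atTop, ∀ t ∈ Icc T (4 * T / 3), VR R t ≤ K := by
      by_contra hcon
      push Not at hcon
      exact hRH (rh_of_VR fun R₀ => by
        obtain ⟨R, K, h1, h2⟩ := hcon R₀
        exact ⟨R, K, h1, h2⟩)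
    obtain ⟨R₀, hR₀⟩ := h1
    have key : ∀ R : ℝ, R₀ ≤ R → ∀ A : ℝ, ∃ T0 : ℝ, ∀ T : ℝ, T0 ≤ T → ∃ T' ∈ Icc (T / 2) (2 * T), A < VR R T' := by
      intro R hR A
      have h2 := hR₀ R A hR
      rw [not_frequently] at h2
      obtain ⟨T0, hT0⟩ := eventually_atTop.1 h2
      refine ⟨max T0 0, fun T hT => ?_⟩
      have hT1 : 0 ≤ T := (le_max_right _ _).trans hT
      have h3 := hT0 T ((le_max_left _ _).trans hT)
      push Not at h3
      obtain ⟨t, ht, h4⟩ := h3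
      exact ⟨t, ⟨by linarith [ht.1], by linarith [ht.2]⟩, h4⟩
    refine ⟨R₀, fun R hR hor δ hδ => ?_, fun R R' hR hR' hor hirr => ?_⟩
    · obtain ⟨T0, h⟩ := key R (hor.resolve_left hRH) ((R ^ 2 - R) / 2 - δ)
      exact ⟨2, T0, by norm_num, h⟩
    · obtain ⟨T0, h⟩ := key R (hor.resolve_left hRH) ((R ^ 2 - R) / 2 + 1)
      refine ⟨1, 2, T0, one_pos, by norm_num, fun T hT => ?_⟩
      obtain ⟨T', h1, h2⟩ := h T hT
      exact ⟨T', h1, Or.inl h2⟩

end Pool.Agent.U507.AH
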