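import Pool.Agent.U507.AH.E1
import Pool.Agent.U507.PC.QL

/-!
# The relation between the primes and the weighted mean squares, pointwise and integrated
-/

set_option autoImplicit false

open Complex Filter Topology Set MeasureTheory Metric
open scoped Real

namespace Pool.Agent.U507.AH

open Pool.Agent.U507.GM hiding step_low low_pt low_unif rigid
open Pool.Agent.U507.PC

/-- the Laplace transform of the variance of the primes -/
noncomputable def LV (T c : ℝ) : ℝ := ∫ α in Ioi 0, Real.exp (-c * α) * vs T α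

/-- the auxiliary height -/
noncomputable def Ut (T s : ℝ) : ℝ := 1 / (Real.exp (s / T) - 1)

/-- the weighted mean square -/
noncomputable def qT (c T s : ℝ) : ℝ := T / Real.log T ^ 2 * Qf (c / (2 * Real.log T)) (s / T)

lemma LV_nonneg {T : ℝ} (hT : 2 ≤ T) (c : ℝ) : 0 ≤ LV T c :=
  setIntegral_nonneg measurableSet_Ioi fun α _ => mul_nonneg (Real.exp_pos _).le (vs_nonneg hT α)

lemma LV_bdd (hRH : RiemannHypothesis) {c : ℝ} (hc : 0 < c) : ∃ C T0 : ℝ, 0 < C ∧ 16 ≤ T0 ∧ ∀ T : ℝ, T0 ≤ T →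
    0 ≤ LV T c ∧ LV T c ≤ C := by
  obtain ⟨C, T0, hC, hT0, h⟩ := vs_up hRH hc
  exact ⟨C, T0, hC, hT0, fun T hT => ⟨LV_nonneg (by linarith) c, (h T hT).2⟩⟩

lemma LV_meas (c : ℝ) : Measurable fun U => LV U c := by
  have h1 : Measurable fun p : ℝ × ℝ => p.1 ^ p.2 := measurable_fst.pow measurable_snd
  have h2 : Measurable (Function.uncurry fun U α : ℝ => Real.exp (-c * α) * vs U α) := by
    unfold Function.uncurry vs
    refine (by fun_prop : Measurable fun p : ℝ × ℝ => Real.exp (-c * p.2)).mul ?_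
    refine (measurable_fst.div (h1.mul (Real.measurable_log.comp measurable_fst))).mul (Measurable.pow_const ?_ 2)
    unfold Dd
    exact ((psi_measurable.comp (h1.add (h1.div measurable_fst))).sub (psi_measurable.comp h1)).sub
      (h1.div measurable_fst)
  exact (h2.stronglyMeasurable.integral_prod_right (ν := volume.restrict (Ioi 0))).measurable

lemma Ut_meas (T : ℝ) : Measurable (Ut T) := by
  unfold Ut
  fun_prop

lemma Ut_facts {T s : ℝ} (hT : 16 ≤ T) (hs : 0 < s) (hs1 : s ≤ √T) : √T / 2 ≤ Ut T s := by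
  have hT0 : 0 < T := by linarith
  have hq : 0 < √T := Real.sqrt_pos.2 hT0
  have hqq : √T * √T = T := Real.mul_self_sqrt hT0.le
  have hq4 : 4 ≤ √T := by
    rw [show (4 : ℝ) = √16 by rw [show (16 : ℝ) = 4 ^ 2 by norm_num, Real.sqrt_sq (by norm_num)]]
    exact Real.sqrt_le_sqrt hT
  obtain ⟨x, hx⟩ : ∃ x : ℝ, x = s / T := ⟨_, rfl⟩
  have hx0 : 0 < x := by rw [hx]; positivity
  have hx1 : x * √T ≤ 1 := by
    rw [hx, div_mul_eq_mul_div, div_le_one hT0]
    calc s * √T ≤ √T * √T := by gcongr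
      _ = T := hqq
  have hx2 : x ≤ 1 := by nlinarith
  have h1 := Real.abs_exp_sub_one_sub_id_le (x := x) (by rw [abs_of_pos hx0]; exact hx2)
  have h2 := (abs_le.1 h1).2
  have h3 : Real.exp x - 1 ≤ 2 * x := by nlinarith
  have h4 : 0 < Real.exp x - 1 := by
    have := Real.add_one_lt_exp hx0.ne'
    linarith
  unfold Ut
  rw [← hx, le_div_iff₀ h4]
  nlinarith

/-- Lipschitz continuity in the parameter -/
lemma LV_lip {c : ℝ} (hRH : RiemannHypothesis) (hc : 0 < c) {T c' : ℝ} (hT : 16 ≤ T) (hcT : 2 * c ≤ Real.log T)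
    (h1 : c / 2 ≤ c') (h2 : c' ≤ 2 * c) : |LV T c' - LV T c| ≤ |c' - c| * (4 / c * LV T (c / 4)) := by
  have i1 := (vs_lap hRH hT (show 0 < c' by linarith) (by linarith)).1
  have i2 := (vs_lap hRH hT hc (by linarith)).1
  have i3 := (vs_lap hRH hT (show 0 < c / 4 by linarith) (by linarith)).1
  unfold LV
  rw [← integral_sub i1 i2, ← integral_const_mul, ← integral_const_mul]
  refine (abs_integral_le_integral_abs).trans ?_
  refine setIntegral_mono_on (i1.sub i2).abs ((i3.const_mul _).const_mul _) measurableSet_Ioi fun α hα => ?_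
  have h0 : (0 : ℝ) < α := hα
  have hv := vs_nonneg (show 2 ≤ T by linarith) α
  rw [← sub_mul, abs_mul, abs_of_nonneg hv]
  have key : ∀ a b : ℝ, c / 2 ≤ a → a ≤ b → |Real.exp (-a * α) - Real.exp (-b * α)| ≤
      (b - a) * (4 / c * Real.exp (-(c / 4) * α)) := by
    intro a b ha hab
    have e1 : Real.exp (-b * α) = Real.exp (-a * α) * Real.exp (-((b - a) * α)) := by
      rw [← Real.exp_add]; congr 1; ring
    have e2 : 1 - (b - a) * α ≤ Real.exp (-((b - a) * α)) := by
      have := Real.add_one_le_exp (-((b - a) * α))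
      linarith
    have e3 : Real.exp (-((b - a) * α)) ≤ 1 := Real.exp_le_one_iff.2 (by nlinarith)
    have e4 : Real.exp (-a * α) ≤ Real.exp (-(c / 4) * α) * Real.exp (-(c / 4 * α)) := by
      rw [← Real.exp_add]
      apply Real.exp_le_exp.2
      nlinarith
    have e5 : c / 4 * α * Real.exp (-(c / 4 * α)) ≤ 1 := by
      have h5 := Real.add_one_le_exp (c / 4 * α)
      rw [Real.exp_neg, ← div_eq_mul_inv, div_le_one (Real.exp_pos _)]
      linarith
    have e6 : α * Real.exp (-(c / 4 * α)) ≤ 4 / c := by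
      rw [le_div_iff₀ hc]
      nlinarith
    rw [e1, show Real.exp (-a * α) - Real.exp (-a * α) * Real.exp (-((b - a) * α)) =
      Real.exp (-a * α) * (1 - Real.exp (-((b - a) * α))) by ring, abs_mul, abs_of_pos (Real.exp_pos _),
      abs_of_nonneg (by linarith)]
    calc Real.exp (-a * α) * (1 - Real.exp (-((b - a) * α))) ≤
        (Real.exp (-(c / 4) * α) * Real.exp (-(c / 4 * α))) * ((b - a) * α) := by
          have : 0 ≤ 1 - Real.exp (-((b - a) * α)) := by linarith
          gcongr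
          linarith
      _ = (b - a) * Real.exp (-(c / 4) * α) * (α * Real.exp (-(c / 4 * α))) := by ring
      _ ≤ (b - a) * Real.exp (-(c / 4) * α) * (4 / c) := by
          have : 0 ≤ (b - a) * Real.exp (-(c / 4) * α) := mul_nonneg (by linarith) (Real.exp_pos _).le
          gcongr
      _ = _ := by ring
  have h3 : |Real.exp (-c' * α) - Real.exp (-c * α)| ≤ |c' - c| * (4 / c * Real.exp (-(c / 4) * α)) := by
    rcases le_total c' c with h | h
    · rw [abs_of_nonpos (show c' - c ≤ 0 by linarith), neg_sub]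
      exact key c' c h1 h
    · rw [abs_of_nonneg (show 0 ≤ c' - c by linarith), abs_sub_comm]
      exact key c c' (by linarith) h
  calc |Real.exp (-c' * α) - Real.exp (-c * α)| * vs T α ≤
      |c' - c| * (4 / c * Real.exp (-(c / 4) * α)) * vs T α := by gcongr
    _ = _ := by ring

/-- **the relation for one argument** -/
theorem D_lim (hRH : RiemannHypothesis) {c s : ℝ} (hc : 0 < c) (hs : 0 < s) :
    Tendsto (fun T => qT c T s - (π / 2 * (s * LV (Ut T s) c) + π / 4 * s)) atTop (𝓝 0) := by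
  obtain ⟨U, hU⟩ : ∃ U : ℝ → ℝ, U = fun T => 1 / (Real.exp (s / T) - 1) := ⟨_, rfl⟩
  have hUt : ∀ T, Ut T s = U T := fun T => by rw [hU]; rfl
  simp only [hUt]
  obtain ⟨r, hr⟩ : ∃ r : ℝ → ℝ, r = fun T => T * (Real.exp (s / T) - 1) := ⟨_, rfl⟩
  have hrlim : Tendsto r atTop (𝓝 s) := by
    rw [tendsto_iff_norm_sub_tendsto_zero]
    refine squeeze_zero' (Eventually.of_forall fun v => norm_nonneg _) ?_
      (tendsto_const_nhds.div_atTop tendsto_id : Tendsto (fun T : ℝ => s ^ 2 / T) atTop (𝓝 0))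
    filter_upwards [eventually_ge_atTop (max 1 s)] with T hT
    have hT1 : 1 ≤ T := (le_max_left _ _).trans hT
    have hT2 : s ≤ T := (le_max_right _ _).trans hT
    have hT0 : 0 < T := by linarith
    have h1 := Real.abs_exp_sub_one_sub_id_le (x := s / T) (by
      rw [abs_of_pos (by positivity), div_le_one hT0]
      exact hT2)
    rw [hr, Real.norm_eq_abs]
    have e : T * (Real.exp (s / T) - 1) - s = T * (Real.exp (s / T) - 1 - s / T) := by
      field_simp
    rw [e, abs_mul, abs_of_pos hT0]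
    calc T * |Real.exp (s / T) - 1 - s / T| ≤ T * (s / T) ^ 2 := by gcongr
      _ = s ^ 2 / T := by field_simp
  have hrpos : ∀ᶠ T in atTop, 0 < r T := hrlim.eventually (lt_mem_nhds hs)
  have hUr : ∀ᶠ T : ℝ in atTop, U T = T / r T := by
    filter_upwards [eventually_gt_atTop (0 : ℝ)] with T hT
    rw [hU, hr]
    simp only
    rw [div_mul_eq_div_div_swap]
    field_simp
  have hUlim : Tendsto U atTop atTop := by
    refine Tendsto.congr' (f₁ := fun T => T * (r T)⁻¹) ?_ (tendsto_id.atTop_mul_pos (inv_pos.2 hs) (hrlim.inv₀ hs.ne'))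
    filter_upwards [hUr] with T hT
    rw [hT, div_eq_mul_inv]
  have hlogr : Tendsto (fun T => Real.log (r T)) atTop (𝓝 (Real.log s)) :=
    (Real.continuousAt_log hs.ne').tendsto.comp hrlim
  have hlogU : ∀ᶠ T : ℝ in atTop, Real.log (U T) = Real.log T - Real.log (r T) := by
    filter_upwards [hUr, hrpos, eventually_gt_atTop (0 : ℝ)] with T h1 h2 h3
    rw [h1, Real.log_div h3.ne' h2.ne']
  have hq : Tendsto (fun T => Real.log (U T) / Real.log T) atTop (𝓝 1) := by
    have h1 : Tendsto (fun T => Real.log (r T) / Real.log T) atTop (𝓝 0) :=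
      hlogr.div_atTop Real.tendsto_log_atTop
    have h2 := (tendsto_const_nhds (x := (1 : ℝ))).sub h1
    rw [sub_zero] at h2
    refine h2.congr' ?_
    filter_upwards [hlogU, eventually_gt_atTop (1 : ℝ)] with T h3 h4
    rw [h3]
    have : 0 < Real.log T := Real.log_pos h4
    field_simp
  -- the Laplace transforms
  obtain ⟨C1, T1, hC1, hT1, hb1⟩ := LV_bdd hRH hc
  obtain ⟨C4, T4, hC4, hT4, hb4⟩ := LV_bdd hRH (show 0 < c / 4 by linarith)
  have hv : Tendsto (fun T => c * (Real.log (U T) / Real.log T)) atTop (𝓝 c) := by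
    have := hq.const_mul c
    rwa [mul_one] at this
  have hdiff : Tendsto (fun T => LV (U T) (c * (Real.log (U T) / Real.log T)) - LV (U T) c) atTop (𝓝 0) := by
    have h0 : Tendsto (fun T => |c * (Real.log (U T) / Real.log T) - c| * (4 / c * C4)) atTop (𝓝 0) := by
      have h1 := (hv.sub_const c).abs.mul_const (4 / c * C4)
      simpa using h1
    refine squeeze_zero_norm' ?_ h0
    filter_upwards [hUlim.eventually_ge_atTop (max T4 (Real.exp (2 * c))), hv.eventually (lt_mem_nhds
      (show c / 2 < c by linarith)), hv.eventually (gt_mem_nhds (show c < 2 * c by linarith))] with T k1 k2 k3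
    have k4 : T4 ≤ U T := (le_max_left _ _).trans k1
    have k5 : 2 * c ≤ Real.log (U T) := by
      rw [Real.le_log_iff_exp_le (by linarith)]
      exact (le_max_right _ _).trans k1
    rw [Real.norm_eq_abs]
    refine (LV_lip hRH hc (by linarith) k5 k2.le k3.le).trans ?_
    have := (hb4 (U T) k4).2
    gcongr
  -- the limit of the main term
  have hz : Tendsto (fun T => π / 2 * ((Real.log (U T) / Real.log T) ^ 2 * r T *
      (LV (U T) (c * (Real.log (U T) / Real.log T)) - LV (U T) c) +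
      ((Real.log (U T) / Real.log T) ^ 2 * r T - s) * LV (U T) c) +
      π / 4 * s * ((Real.log (U T) / Real.log T) ^ 2 - 1)) atTop (𝓝 0) := by
    have t1 := ((hq.pow 2).mul hrlim).mul hdiff
    have t2 : Tendsto (fun T => ((Real.log (U T) / Real.log T) ^ 2 * r T - s) * LV (U T) c) atTop (𝓝 0) := by
      have t3 : Tendsto (fun T => |(Real.log (U T) / Real.log T) ^ 2 * r T - s| * C1) atTop (𝓝 0) := by
        have := (((hq.pow 2).mul hrlim).sub_const s).abs.mul_const C1
        simpa using this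
      refine squeeze_zero_norm' ?_ t3
      filter_upwards [hUlim.eventually_ge_atTop T1] with T k1
      obtain ⟨b1, b2⟩ := hb1 (U T) k1
      rw [Real.norm_eq_abs, abs_mul, abs_of_nonneg b1]
      gcongr
    have t4 := ((hq.pow 2).sub_const 1).const_mul (π / 4 * s)
    have t5 := ((t1.add t2).const_mul (π / 2)).add t4
    simpa using t5
  -- comparison
  rw [Metric.tendsto_nhds]
  intro ε hε
  obtain ⟨ε1, hε1⟩ : ∃ ε1 : ℝ, ε1 = min 1 (ε / (8 * s)) := ⟨_, rfl⟩
  have hε10 : 0 < ε1 := by rw [hε1]; exact lt_min one_pos (by positivity)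
  have hε11 : ε1 ≤ 1 := by rw [hε1]; exact min_le_left _ _
  have hε12 : ε1 * s ≤ ε / 8 := by
    have : ε1 ≤ ε / (8 * s) := by rw [hε1]; exact min_le_right _ _
    rw [le_div_iff₀ (by positivity)] at this
    linarith
  obtain ⟨L0, hL0, hts⟩ := ts_lim hRH (c1 := c / 4) (c2 := c) (by linarith) hε10 hε11
  have hLU : ∀ᶠ T in atTop, max L0 (2 * c) ≤ Real.log (U T) :=
    (Real.tendsto_log_atTop.comp hUlim).eventually_ge_atTop _
  filter_upwards [hz.eventually (Metric.ball_mem_nhds _ (show 0 < ε / 2 by linarith)), hUr, hrpos, hLU,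
    hq.eventually (lt_mem_nhds (show (1 / 2 : ℝ) < 1 by norm_num)), hq.eventually (gt_mem_nhds (show (1 : ℝ) < 2 by norm_num)),
    eventually_gt_atTop (1 : ℝ), hUlim.eventually_ge_atTop 16] with T k1 k2 k3 k4 k5 k6 k7 k8
  have hT0 : 0 < T := by linarith
  have hU0 : 0 < U T := by linarith
  have hδ : 0 < s / T := by positivity
  have hdl : dl (U T) 1 = s / T := by
    unfold dl
    rw [hU]
    simp only
    have h1 : 0 < Real.exp (s / T) - 1 := by
      have := Real.add_one_lt_exp (x := s / T) hδ.ne'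
      linarith
    rw [one_mul, one_div_one_div, add_sub_cancel, Real.log_exp]
  obtain ⟨-, -, -, d4⟩ := dl1 k8
  rw [hdl] at d4
  unfold qT
  obtain ⟨L, hL⟩ : ∃ L : ℝ, L = Real.log T := ⟨_, rfl⟩
  obtain ⟨L', hL'⟩ : ∃ L' : ℝ, L' = Real.log (U T) := ⟨_, rfl⟩
  rw [← hL, ← hL'] at k1 k5 k6
  rw [← hL'] at d4 k4
  rw [← hL]
  have hLp : 0 < L := by rw [hL]; exact Real.log_pos k7
  have hL'0 : L0 ≤ L' := (le_max_left _ _).trans k4
  have hL'c : 2 * c ≤ L' := (le_max_right _ _).trans k4
  have hL'p : 0 < L' := by linarith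
  have hη1 : c / 4 ≤ c / (2 * L) * L' := by
    have : c / (2 * L) * L' = c / 2 * (L' / L) := by field_simp
    rw [this]
    nlinarith
  have hη2 : c / (2 * L) * L' ≤ c := by
    have : c / (2 * L) * L' = c / 2 * (L' / L) := by field_simp
    rw [this]
    nlinarith
  have h1 := hts L' (s / T) (c / (2 * L)) hL'0 hδ d4 hη1 hη2
  have hJe : LV (U T) (c * (L' / L)) = U T / L' ^ 2 * Wv (c / (2 * L)) (s / T) := by
    unfold LV
    have h2 : c * (L' / L) ≤ Real.log (U T) := by
      rw [← hL']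
      nlinarith
    rw [(vs_lap hRH k8 (by positivity) h2).2, hdl, ← hL']
    congr 2
    field_simp
  obtain ⟨W, hW⟩ : ∃ W : ℝ, W = Wv (c / (2 * L)) (s / T) := ⟨_, rfl⟩
  obtain ⟨Q, hQ⟩ : ∃ Q : ℝ, Q = Qf (c / (2 * L)) (s / T) := ⟨_, rfl⟩
  rw [← hW] at hJe h1
  rw [← hQ] at h1 ⊢
  rw [Real.dist_eq, sub_zero] at k1
  obtain ⟨B, hB⟩ : ∃ B : ℝ, B = LV (U T) c := ⟨_, rfl⟩
  obtain ⟨A, hA⟩ : ∃ A : ℝ, A = LV (U T) (c * (L' / L)) := ⟨_, rfl⟩
  rw [← hB, ← hA] at k1
  rw [← hA] at hJe
  rw [← hB]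
  have e1 : (L' / L) ^ 2 * (π / 2 * (r T * A) + π / 4 * s) =
      T / L ^ 2 * (π / 2 * W + π / 4 * (s / T * L' ^ 2)) := by
    have h2 : r T * U T = T := by rw [k2]; field_simp
    have h3 : (L' / L) ^ 2 * (π / 2 * (r T * A) + π / 4 * s) =
        (π / 2 * ((r T * U T) * W) + π / 4 * s * L' ^ 2) / L ^ 2 := by
      rw [hJe]
      field_simp
    rw [h3, h2]
    field_simp
  have e5 : π / 2 * ((L' / L) ^ 2 * r T * (A - B) + ((L' / L) ^ 2 * r T - s) * B) + π / 4 * s * ((L' / L) ^ 2 - 1) =
      (L' / L) ^ 2 * (π / 2 * (r T * A) + π / 4 * s) - (π / 2 * (s * B) + π / 4 * s) := by ring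
  rw [e5, e1] at k1
  have h4 : |T / L ^ 2 * Q - T / L ^ 2 * (π / 2 * W + π / 4 * (s / T * L' ^ 2))| ≤ ε / 2 := by
    have e2 : T / L ^ 2 * Q - T / L ^ 2 * (π / 2 * W + π / 4 * (s / T * L' ^ 2)) =
        -(T / L ^ 2 * (π / 2 * W - (Q - π / 4 * (s / T * L' ^ 2)))) := by ring
    rw [e2, abs_neg, abs_mul, abs_of_pos (by positivity : 0 < T / L ^ 2)]
    calc T / L ^ 2 * |π / 2 * W - (Q - π / 4 * (s / T * L' ^ 2))| ≤ T / L ^ 2 * (ε1 * (s / T * L' ^ 2)) := by gcongr
      _ = ε1 * s * (L' / L) ^ 2 := by field_simp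
      _ ≤ ε / 8 * 2 ^ 2 := by gcongr
      _ = ε / 2 := by ring
  rw [Real.dist_eq, sub_zero]
  have a1 := abs_lt.1 k1
  have a2 := abs_le.1 h4
  rw [abs_lt]
  constructor <;> linarith [a1.1, a1.2, a2.1, a2.2]

/-- integrability for Fubini's theorem -/
lemma fub (hRH : RiemannHypothesis) {η : ℝ} (hη : 0 < η) (hη1 : η ≤ 1 / 16) (T : ℝ) :
    Integrable (Function.uncurry fun s v : ℝ => Real.exp (-s) * (gh (s / T) v ^ 2 * Yf η v ^ 2))
      ((volume.restrict (Ioi 0)).prod (volume.restrict (Ioi 1))) := by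
  obtain ⟨C, -, h⟩ := gY_int hRH
  have h1 : Integrable (fun s : ℝ => Real.exp (-s)) (volume.restrict (Ioi 0)) := by
    have := integrableOn_exp_mul_Ioi (a := -1) (by norm_num) 0
    simpa [IntegrableOn] using this
  have h2 := h1.mul_prod (h η hη hη1).1
  refine h2.mono' ?_ ?_
  · have hm1 : Measurable fun p : ℝ × ℝ => Real.exp (-p.1) := by fun_prop
    have hm2 : Measurable fun p : ℝ × ℝ => gh (p.1 / T) p.2 := by
      have : Continuous fun p : ℝ × ℝ => gh (p.1 / T) p.2 := by
        unfold gh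
        exact (by fun_prop : Continuous fun p : ℝ × ℝ => p.1 / T).mul
          (Real.continuous_sinc.comp (by fun_prop : Continuous fun p : ℝ × ℝ => p.2 * (p.1 / T) / 2))
      exact this.measurable
    have hm3 : Measurable fun p : ℝ × ℝ => Yf η p.2 := (Yf_meas hRH hη).comp measurable_snd
    exact (hm1.mul ((hm2.pow_const 2).mul (hm3.pow_const 2))).aestronglyMeasurable
  · rw [Measure.prod_restrict]
    refine (ae_restrict_iff' (measurableSet_Ioi.prod measurableSet_Ioi)).2 (Filter.Eventually.of_forall fun p hp => ?_)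
    have hv : (1 : ℝ) < p.2 := hp.2
    have hv0 : 0 < p.2 := by linarith
    simp only [Function.uncurry]
    rw [Real.norm_eq_abs, abs_of_nonneg (by positivity)]
    have := gh_sq_inv (p.1 / T) hv0
    gcongr

lemma q_aesm (hRH : RiemannHypothesis) {η : ℝ} (hη : 0 < η) (hη1 : η ≤ 1 / 16) (T : ℝ) :
    AEStronglyMeasurable (fun s => Real.exp (-s) * Qf η (s / T)) (volume.restrict (Ioi 0)) := by
  have h := (fub hRH hη hη1 T).integral_prod_left
  refine (h.congr (ae_of_all _ fun s => ?_)).aestronglyMeasurable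
  simp only [Function.uncurry]
  rw [integral_const_mul, Qf]

lemma eta_ev {c : ℝ} (hc : 0 < c) : ∀ᶠ T : ℝ in atTop, 0 < c / (2 * Real.log T) ∧ c / (2 * Real.log T) ≤ 1 / 16 := by
  filter_upwards [Real.tendsto_log_atTop.eventually_ge_atTop (8 * c + 1)] with T hT
  have hl : 0 < Real.log T := by linarith
  refine ⟨by positivity, ?_⟩
  rw [div_le_div_iff₀ (by positivity) (by norm_num)]
  linarith

lemma exp_pow_int (k : ℕ) : IntegrableOn (fun s : ℝ => s ^ k * Real.exp (-s)) (Ioi 0) := by
  have h := Real.GammaIntegral_convergent (s := (k : ℝ) + 1) (by positivity)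
  refine (h.congr_fun (fun s _ => ?_) measurableSet_Ioi)
  show Real.exp (-s) * s ^ ((k : ℝ) + 1 - 1) = s ^ k * Real.exp (-s)
  rw [add_sub_cancel_right, Real.rpow_natCast, mul_comm]

lemma exp_mom : ∫ s in Ioi (0 : ℝ), s * Real.exp (-s) = 1 := by
  have h := Real.Gamma_eq_integral (s := 2) (by norm_num)
  rw [Real.Gamma_two] at h
  rw [h]
  refine setIntegral_congr_fun measurableSet_Ioi fun s _ => ?_
  rw [show (2 : ℝ) - 1 = 1 by norm_num, Real.rpow_one, mul_comm]

/-- **the relation, integrated** -/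
theorem D_int (hRH : RiemannHypothesis) {c : ℝ} (hc : 0 < c) :
    Tendsto (fun T => (∫ s in Ioi 0, Real.exp (-s) * qT c T s) -
      π / 2 * (∫ s in Ioc 0 √T, Real.exp (-s) * (s * LV (Ut T s) c)) - π / 4) atTop (𝓝 0) := by
  obtain ⟨C, T0, hC, hT0, hdom⟩ := Q_dom hRH hc
  obtain ⟨C1, T1, hC1, hT1, hb1⟩ := LV_bdd hRH hc
  have hbig : ∀ᶠ T : ℝ in atTop, T1 ≤ √T / 2 := by
    have := (Real.tendsto_sqrt_atTop).eventually_ge_atTop (2 * T1)
    filter_upwards [this] with T hT
    linarith
  have hm2 : ∀ T : ℝ, Measurable ((Ioc 0 √T).indicator fun s => Real.exp (-s) * (s * LV (Ut T s) c)) := by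
    intro T
    refine Measurable.indicator ?_ measurableSet_Ioc
    exact (by fun_prop : Measurable fun s : ℝ => Real.exp (-s)).mul (measurable_id.mul ((LV_meas c).comp (Ut_meas T)))
  have hq1 : ∀ᶠ T in atTop, IntegrableOn (fun s => Real.exp (-s) * qT c T s) (Ioi 0) := by
    filter_upwards [eta_ev hc, eventually_ge_atTop T0] with T hT hT2
    have hT00 : 0 < T := by linarith
    refine Integrable.mono' (((exp_pow_int 0).add (exp_pow_int 2)).const_mul C) ?_ ?_
    · have h1 := (q_aesm hRH hT.1 hT.2 T).const_mul (T / Real.log T ^ 2)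
      refine h1.congr (ae_of_all _ fun s => ?_)
      simp only [qT]
      ring
    · refine (ae_restrict_iff' measurableSet_Ioi).2 (Filter.Eventually.of_forall fun s hs => ?_)
      have hs0 : (0 : ℝ) < s := hs
      have h3 := hdom T s hT2 hs0
      have h4 : 0 ≤ qT c T s := mul_nonneg (by positivity) (Qf_nonneg _ _)
      rw [Real.norm_eq_abs, abs_of_nonneg (by positivity)]
      calc Real.exp (-s) * qT c T s ≤ Real.exp (-s) * (C * (1 + s ^ 2)) := by
            refine mul_le_mul_of_nonneg_left h3 (Real.exp_pos _).le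
        _ = _ := by simp only [Pi.add_apply]; ring
  have hq2 : ∀ᶠ T in atTop, IntegrableOn ((Ioc 0 √T).indicator fun s => Real.exp (-s) * (s * LV (Ut T s) c)) (Ioi 0) := by
    filter_upwards [hbig, eventually_ge_atTop 16] with T hT hT2
    refine Integrable.mono' ((exp_pow_int 1).const_mul C1) (hm2 T).aestronglyMeasurable ?_
    refine (ae_restrict_iff' measurableSet_Ioi).2 (Filter.Eventually.of_forall fun s hs => ?_)
    have hs0 : (0 : ℝ) < s := hs
    by_cases hin : s ∈ Ioc 0 √T
    · rw [indicator_of_mem hin]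
      obtain ⟨b1, b2⟩ := hb1 (Ut T s) (hT.trans (Ut_facts hT2 hin.1 hin.2))
      rw [Real.norm_eq_abs, abs_of_nonneg (by positivity)]
      calc Real.exp (-s) * (s * LV (Ut T s) c) ≤ Real.exp (-s) * (s * C1) := by gcongr
        _ = _ := by ring
    · rw [indicator_of_notMem hin, norm_zero]
      positivity
  have hmain : Tendsto (fun T => ∫ s in Ioi (0 : ℝ), (Real.exp (-s) * qT c T s -
      (π / 2 * ((Ioc 0 √T).indicator (fun s => Real.exp (-s) * (s * LV (Ut T s) c)) s) + π / 4 * (s * Real.exp (-s)))))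
      atTop (𝓝 (∫ s in Ioi (0 : ℝ), (0 : ℝ))) := by
    refine tendsto_integral_filter_of_dominated_convergence
      (fun s => C * (s ^ 0 * Real.exp (-s) + s ^ 2 * Real.exp (-s)) + (π / 2 * C1 + π / 4) * (s ^ 1 * Real.exp (-s))) ?_ ?_ ?_ ?_
    · filter_upwards [hq1, hq2] with T h1 h2
      exact (h1.sub ((h2.const_mul _).add (((exp_pow_int 1).congr_fun (fun s _ => by simp) measurableSet_Ioi).const_mul
        (π / 4)))).aestronglyMeasurable
    · filter_upwards [eventually_ge_atTop T0, hbig] with T hT hT3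
      refine (ae_restrict_iff' measurableSet_Ioi).2 (Filter.Eventually.of_forall fun s hs => ?_)
      have hs0 : (0 : ℝ) < s := hs
      have hT00 : 0 < T := by linarith
      have h3 := hdom T s hT hs0
      have h4 : 0 ≤ qT c T s := mul_nonneg (by positivity) (Qf_nonneg _ _)
      have h5 : 0 ≤ (Ioc 0 √T).indicator (fun s => Real.exp (-s) * (s * LV (Ut T s) c)) s ∧
          (Ioc 0 √T).indicator (fun s => Real.exp (-s) * (s * LV (Ut T s) c)) s ≤ C1 * (s ^ 1 * Real.exp (-s)) := by
        by_cases hin : s ∈ Ioc 0 √T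
        · rw [indicator_of_mem hin]
          obtain ⟨b1, b2⟩ := hb1 (Ut T s) (hT3.trans (Ut_facts (by linarith) hin.1 hin.2))
          refine ⟨by positivity, ?_⟩
          calc Real.exp (-s) * (s * LV (Ut T s) c) ≤ Real.exp (-s) * (s * C1) := by gcongr
            _ = _ := by ring
        · rw [indicator_of_notMem hin]
          exact ⟨le_rfl, by positivity⟩
      have h6 : Real.exp (-s) * qT c T s ≤ C * (s ^ 0 * Real.exp (-s) + s ^ 2 * Real.exp (-s)) := by
        calc Real.exp (-s) * qT c T s ≤ Real.exp (-s) * (C * (1 + s ^ 2)) := mul_le_mul_of_nonneg_left h3 (Real.exp_pos _).le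
          _ = _ := by ring
      have h7 : 0 ≤ Real.exp (-s) * qT c T s := mul_nonneg (Real.exp_pos _).le h4
      have hp := Real.pi_pos
      have h8 : 0 ≤ s * Real.exp (-s) := by positivity
      rw [pow_one] at h5 ⊢
      have h9 := mul_le_mul_of_nonneg_left h5.2 (show 0 ≤ π / 2 by positivity)
      have h10 : 0 ≤ π / 2 * ((Ioc 0 √T).indicator (fun s => Real.exp (-s) * (s * LV (Ut T s) c)) s) :=
        mul_nonneg (by positivity) h5.1
      have h11 : 0 ≤ π / 4 * (s * Real.exp (-s)) := by positivity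
      have h12 : 0 ≤ π / 2 * (C1 * (s * Real.exp (-s))) := by positivity
      rw [Real.norm_eq_abs, abs_le]
      constructor
      · nlinarith
      · nlinarith
    · exact (((exp_pow_int 0).add (exp_pow_int 2)).const_mul C).add ((exp_pow_int 1).const_mul _)
    · refine (ae_restrict_iff' measurableSet_Ioi).2 (Filter.Eventually.of_forall fun s hs => ?_)
      have hs0 : (0 : ℝ) < s := hs
      have h1 := (D_lim hRH hc hs0).const_mul (Real.exp (-s))
      rw [mul_zero] at h1
      refine h1.congr' ?_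
      filter_upwards [Real.tendsto_sqrt_atTop.eventually_ge_atTop s] with T hT
      rw [indicator_of_mem (show s ∈ Ioc 0 √T from ⟨hs0, hT⟩)]
      ring
  rw [integral_zero] at hmain
  refine hmain.congr' ?_
  filter_upwards [hq1, hq2] with T h1 h2
  have h3 : IntegrableOn (fun s : ℝ => s * Real.exp (-s)) (Ioi 0) :=
    (exp_pow_int 1).congr_fun (fun s _ => by simp) measurableSet_Ioi
  have h5 : IntegrableOn (fun s => π / 2 * ((Ioc 0 √T).indicator (fun s => Real.exp (-s) * (s * LV (Ut T s) c)) s) +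
      π / 4 * (s * Real.exp (-s))) (Ioi 0) := (h2.const_mul _).add (h3.const_mul _)
  rw [integral_sub h1 h5, integral_add (h2.const_mul _) (h3.const_mul _),
    integral_const_mul, integral_const_mul, exp_mom, setIntegral_indicator measurableSet_Ioc]
  have h4 : Ioi (0 : ℝ) ∩ Ioc 0 √T = Ioc 0 √T := inter_eq_right.2 fun x hx => hx.1
  rw [h4]
  ring

end Pool.Agent.U507.AH
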