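import Pool.Agent.U507.AH.E2
import Pool.Agent.U507.PC.GK

/-!
# The Laplace transform of the weighted mean square
-/

set_option autoImplicit false

open Complex Filter Topology Set MeasureTheory Metric
open scoped Real

namespace Pool.Agent.U507.AH

open Pool.Agent.U507.GM hiding step_low low_pt low_unif rigid
open Pool.Agent.U507.PC

/-- the mean square up to `t T`, normalised -/
noncomputable def GG (c T t : ℝ) : ℝ :=
  (∫ v in Ioc 1 (t * T), Yf (c / (2 * Real.log T)) v ^ 2) / (T * Real.log T ^ 2)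

/-- the kernel -/
noncomputable def w1 (t : ℝ) : ℝ := 2 * t / (1 + t ^ 2) ^ 2

lemma exp_cos (lam : ℝ) : IntegrableOn (fun s => Real.exp (-s) * Real.cos (s * lam)) (Ioi 0) ∧
    ∫ s in Ioi (0 : ℝ), Real.exp (-s) * Real.cos (s * lam) = 1 / (1 + lam ^ 2) := by
  have hp : 0 < 1 + lam ^ 2 := by positivity
  have hi : IntegrableOn (fun s => Real.exp (-s) * Real.cos (s * lam)) (Ioi 0) := by
    refine Integrable.mono' (exp_pow_int 0) (by fun_prop) (ae_of_all _ fun s => ?_)
    rw [Real.norm_eq_abs, abs_mul, abs_of_pos (Real.exp_pos _), pow_zero, one_mul]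
    exact mul_le_of_le_one_right (Real.exp_pos _).le (Real.abs_cos_le_one _)
  refine ⟨hi, ?_⟩
  have hd : ∀ s ∈ Ici (0 : ℝ), HasDerivAt (fun s => Real.exp (-s) * (lam * Real.sin (s * lam) - Real.cos (s * lam)) /
      (1 + lam ^ 2)) (Real.exp (-s) * Real.cos (s * lam)) s := by
    intro s _
    have h1 : HasDerivAt (fun s : ℝ => Real.exp (-s)) (-Real.exp (-s)) s := by
      have := (hasDerivAt_neg s).exp
      refine this.congr_deriv ?_
      ring
    have h2 : HasDerivAt (fun s : ℝ => s * lam) lam s := by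
      simpa using (hasDerivAt_id s).mul_const lam
    have h3 := (h2.sin.const_mul lam).sub h2.cos
    refine ((h1.mul h3).div_const (1 + lam ^ 2)).congr_deriv ?_
    simp only [Pi.sub_apply]
    field_simp
    ring
  have ht : Tendsto (fun s : ℝ => Real.exp (-s) * (lam * Real.sin (s * lam) - Real.cos (s * lam)) / (1 + lam ^ 2))
      atTop (𝓝 0) := by
    have h1 : Tendsto (fun s : ℝ => Real.exp (-s) * ((|lam| + 1) / (1 + lam ^ 2))) atTop (𝓝 0) := by
      have := Real.tendsto_exp_neg_atTop_nhds_zero.mul_const ((|lam| + 1) / (1 + lam ^ 2))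
      rwa [zero_mul] at this
    refine squeeze_zero_norm (fun s => ?_) h1
    rw [Real.norm_eq_abs, abs_div, abs_mul, abs_of_pos (Real.exp_pos _), abs_of_pos hp, mul_div_assoc]
    have h2 : |lam * Real.sin (s * lam) - Real.cos (s * lam)| ≤ |lam| + 1 := by
      refine (abs_sub _ _).trans ?_
      rw [abs_mul]
      have := Real.abs_sin_le_one (s * lam)
      have h3 := Real.abs_cos_le_one (s * lam)
      have h4 := abs_nonneg lam
      nlinarith
    gcongr
  rw [integral_Ioi_of_hasDerivAt_of_tendsto' hd hi ht]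
  simp
  field_simp

/-- the Laplace transform of the kernel -/
lemma lap_gh {T v : ℝ} (hT : 0 < T) (hv : 0 < v) :
    ∫ s in Ioi (0 : ℝ), Real.exp (-s) * gh (s / T) v ^ 2 = 2 / T ^ 2 * (1 / (1 + (v / T) ^ 2)) := by
  obtain ⟨h1, h2⟩ := exp_cos (v / T)
  have h0 : IntegrableOn (fun s : ℝ => Real.exp (-s)) (Ioi 0) := by
    refine (exp_pow_int 0).congr_fun (fun s _ => ?_) measurableSet_Ioi
    simp
  have h3 : ∀ s ∈ Ioi (0 : ℝ), Real.exp (-s) * gh (s / T) v ^ 2 =
      2 / v ^ 2 * (Real.exp (-s) - Real.exp (-s) * Real.cos (s * (v / T))) := by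
    intro s _
    rw [gh_cos _ hv, show s / T * v = s * (v / T) by ring]
    ring
  rw [setIntegral_congr_fun measurableSet_Ioi h3, integral_const_mul, integral_sub h0 h1, h2]
  have h4 : ∫ s in Ioi (0 : ℝ), Real.exp (-s) = 1 := by
    have := integral_exp_neg_Ioi (0 : ℝ)
    simpa using this
  rw [h4]
  have h5 : 0 < 1 + (v / T) ^ 2 := by positivity
  field_simp
  ring

lemma w1_int {x : ℝ} (hx : 0 ≤ x) : IntegrableOn w1 (Ioi x) ∧ ∫ t in Ioi x, w1 t = 1 / (1 + x ^ 2) := by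
  have hd : ∀ t ∈ Ici x, HasDerivAt (fun t : ℝ => -(1 / (1 + t ^ 2))) (w1 t) t := by
    intro t _
    have h1 : HasDerivAt (fun t : ℝ => 1 + t ^ 2) (2 * t) t := by
      simpa using (hasDerivAt_pow 2 t).const_add 1
    have hp : (1 : ℝ) + t ^ 2 ≠ 0 := by positivity
    have h2 := ((h1.inv hp).neg)
    refine (h2.congr_deriv ?_).congr_of_eventuallyEq (Eventually.of_forall fun t => by simp)
    unfold w1
    ring
  have ht : Tendsto (fun t : ℝ => -(1 / (1 + t ^ 2))) atTop (𝓝 0) := by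
    have h1 : Tendsto (fun t : ℝ => 1 + t ^ 2) atTop atTop :=
      tendsto_atTop_add_const_left _ _ (tendsto_pow_atTop (by norm_num))
    have h2 := (tendsto_const_nhds (x := (1 : ℝ))).div_atTop h1
    simpa using h2.neg
  have hpos : ∀ t ∈ Ioi x, 0 ≤ w1 t := by
    intro t ht
    have : 0 ≤ t := hx.trans (le_of_lt ht)
    unfold w1
    positivity
  have hi := integrableOn_Ioi_deriv_of_nonneg' hd hpos ht
  refine ⟨hi, ?_⟩
  rw [integral_Ioi_of_hasDerivAt_of_tendsto' hd hi ht]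
  ring

lemma w1_nonneg {t : ℝ} (ht : 0 ≤ t) : 0 ≤ w1 t := by unfold w1; positivity

lemma Y_int (hRH : RiemannHypothesis) {η : ℝ} (hη : 0 < η) (hη1 : η ≤ 1 / 16) (R : ℝ) :
    IntegrableOn (fun v => Yf η v ^ 2) (Ioc 1 R) := by
  obtain ⟨C5, -, hgY⟩ := gY_int hRH
  have h1 := ((hgY _ hη hη1).1.mono_set (s := Ioc 1 R) Ioc_subset_Ioi_self).const_mul (R ^ 2 / 4)
  refine Integrable.mono' h1 ((Yf_meas hRH hη).pow_const 2).aestronglyMeasurable ?_
  refine (ae_restrict_iff' measurableSet_Ioc).2 (Filter.Eventually.of_forall fun v hv => ?_)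
  have hv0 : 0 < v := by linarith [hv.1]
  rw [Real.norm_eq_abs, abs_of_nonneg (sq_nonneg _)]
  have h2 : 1 ≤ R ^ 2 / 4 * (4 / v ^ 2) := by
    have e : R ^ 2 / 4 * (4 / v ^ 2) = (R / v) ^ 2 := by field_simp
    rw [e]
    have : 1 ≤ R / v := (one_le_div hv0).2 hv.2
    nlinarith
  calc Yf η v ^ 2 = 1 * Yf η v ^ 2 := (one_mul _).symm
    _ ≤ (R ^ 2 / 4 * (4 / v ^ 2)) * Yf η v ^ 2 := by gcongr
    _ = _ := by ring

/-- **the identity** -/
theorem lap_id (hRH : RiemannHypothesis) {c T : ℝ} (hT : 1 < T) (hη : 0 < c / (2 * Real.log T))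
    (hη1 : c / (2 * Real.log T) ≤ 1 / 16) :
    IntegrableOn (fun t => w1 t * GG c T t) (Ioi 0) ∧
    ∫ s in Ioi 0, Real.exp (-s) * qT c T s = 2 * ∫ t in Ioi 0, w1 t * GG c T t := by
  have hT0 : 0 < T := by linarith
  have hL0 : 0 < Real.log T := Real.log_pos hT
  obtain ⟨L, hL⟩ : ∃ L : ℝ, L = Real.log T := ⟨_, rfl⟩
  obtain ⟨η, hηd⟩ : ∃ η : ℝ, η = c / (2 * L) := ⟨_, rfl⟩
  rw [← hL, ← hηd] at hη hη1
  rw [← hL] at hL0
  obtain ⟨C5, -, hgY⟩ := gY_int hRH
  have hg := (hgY η hη hη1).1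
  -- the left side
  have hl : ∫ s in Ioi 0, Real.exp (-s) * qT c T s =
      T / L ^ 2 * ∫ v in Ioi (1 : ℝ), Yf η v ^ 2 * (2 / T ^ 2 * (1 / (1 + (v / T) ^ 2))) := by
    have h := integral_integral_swap (fub hRH hη hη1 T)
    have h1 : ∀ s ∈ Ioi (0 : ℝ), Real.exp (-s) * qT c T s =
        T / L ^ 2 * ∫ v in Ioi (1 : ℝ), Real.exp (-s) * (gh (s / T) v ^ 2 * Yf η v ^ 2) := by
      intro s _
      rw [integral_const_mul, qT, Qf, ← hL, ← hηd]
      ring
    rw [setIntegral_congr_fun measurableSet_Ioi h1, integral_const_mul, h]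
    congr 1
    refine setIntegral_congr_fun measurableSet_Ioi fun v hv => ?_
    have hv1 : (1 : ℝ) < v := hv
    have hv0 : 0 < v := by linarith
    have h2 : ∀ s ∈ Ioi (0 : ℝ), Real.exp (-s) * (gh (s / T) v ^ 2 * Yf η v ^ 2) =
        Yf η v ^ 2 * (Real.exp (-s) * gh (s / T) v ^ 2) := by
      intro s _
      ring
    rw [setIntegral_congr_fun measurableSet_Ioi h2, integral_const_mul, lap_gh hT0 hv0]
  -- the right side
  obtain ⟨F, hF⟩ : ∃ F : ℝ → ℝ → ℝ, F = fun t v => (Ici (v / T)).indicator (fun t => w1 t) t * Yf η v ^ 2 := ⟨_, rfl⟩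
  have hFm : AEStronglyMeasurable (Function.uncurry F) ((volume.restrict (Ioi 0)).prod (volume.restrict (Ioi 1))) := by
    have e : Function.uncurry F = fun p : ℝ × ℝ => ({p : ℝ × ℝ | p.2 / T ≤ p.1}.indicator (fun p => w1 p.1) p) *
        Yf η p.2 ^ 2 := by
      funext p
      rw [hF]
      simp only [Function.uncurry]
      congr 1
    rw [e]
    have hw : Measurable w1 := by unfold w1; fun_prop
    have hs : MeasurableSet {p : ℝ × ℝ | p.2 / T ≤ p.1} :=
      measurableSet_le (by fun_prop) (by fun_prop)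
    exact (((hw.comp measurable_fst).indicator hs).mul
      (((Yf_meas hRH hη).comp measurable_snd).pow_const 2)).aestronglyMeasurable
  have hin : ∀ v ∈ Ioi (1 : ℝ), IntegrableOn (fun t => F t v) (Ioi 0) ∧
      ∫ t in Ioi 0, F t v = Yf η v ^ 2 * (1 / (1 + (v / T) ^ 2)) := by
    intro v hv
    have hv1 : (1 : ℝ) < v := hv
    have hx : 0 < v / T := by positivity
    obtain ⟨a1, a2⟩ := w1_int hx.le
    have a3 : IntegrableOn w1 (Ici (v / T)) := by
      rw [integrableOn_Ici_iff_integrableOn_Ioi]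
      exact a1
    have a4 : IntegrableOn ((Ici (v / T)).indicator w1) (Ioi 0) :=
      ((integrable_indicator_iff measurableSet_Ici).2 a3).integrableOn
    rw [hF]
    simp only
    refine ⟨a4.mul_const _, ?_⟩
    rw [integral_mul_const, setIntegral_indicator measurableSet_Ici,
      inter_eq_right.2 (Ici_subset_Ioi.2 hx), integral_Ici_eq_integral_Ioi, a2]
    ring
  have hFn : ∀ v ∈ Ioi (1 : ℝ), ∀ t ∈ Ioi (0 : ℝ), 0 ≤ F t v := by
    intro v _ t ht
    rw [hF]
    exact mul_nonneg (indicator_nonneg (fun t ht' => w1_nonneg (by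
      have h1 : v / T ≤ t := ht'
      have h2 : (0 : ℝ) < v / T := by
        have : (1 : ℝ) < v := by assumption
        positivity
      linarith)) t) (sq_nonneg _)
  have hFi : Integrable (Function.uncurry F) ((volume.restrict (Ioi 0)).prod (volume.restrict (Ioi 1))) := by
    rw [integrable_prod_iff' hFm]
    constructor
    · exact (ae_restrict_iff' measurableSet_Ioi).2 (Filter.Eventually.of_forall fun v hv => (hin v hv).1)
    · have h1 : IntegrableOn (fun v => Yf η v ^ 2 * (1 / (1 + (v / T) ^ 2))) (Ioi 1) := by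
        refine Integrable.mono' (hg.const_mul (T ^ 2 / 4)) ?_ ?_
        · exact (((Yf_meas hRH hη).pow_const 2).mul (by fun_prop)).aestronglyMeasurable
        · refine (ae_restrict_iff' measurableSet_Ioi).2 (Filter.Eventually.of_forall fun v hv => ?_)
          have hv1 : (1 : ℝ) < v := hv
          have hv0 : 0 < v := by linarith
          rw [Real.norm_eq_abs, abs_of_nonneg (by positivity)]
          have h2 : 1 / (1 + (v / T) ^ 2) ≤ T ^ 2 / 4 * (4 / v ^ 2) := by
            have e : T ^ 2 / 4 * (4 / v ^ 2) = 1 / (v / T) ^ 2 := by field_simp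
            rw [e]
            apply one_div_le_one_div_of_le (by positivity)
            linarith
          calc Yf η v ^ 2 * (1 / (1 + (v / T) ^ 2)) ≤ Yf η v ^ 2 * (T ^ 2 / 4 * (4 / v ^ 2)) := by gcongr
            _ = _ := by ring
      refine h1.congr ((ae_restrict_iff' measurableSet_Ioi).2 (Filter.Eventually.of_forall fun v hv => ?_))
      show Yf η v ^ 2 * (1 / (1 + (v / T) ^ 2)) = ∫ x in Ioi 0, ‖Function.uncurry F (x, v)‖
      rw [← (hin v hv).2]
      refine setIntegral_congr_fun measurableSet_Ioi fun t ht => ?_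
      simp only [Function.uncurry]
      rw [Real.norm_eq_abs, abs_of_nonneg (hFn v hv t ht)]
  have hsw := integral_integral_swap hFi
  have hinner : ∀ t ∈ Ioi (0 : ℝ), ∫ v in Ioi 1, F t v = w1 t * ∫ v in Ioc 1 (t * T), Yf η v ^ 2 := by
    intro t ht
    have h1 : ∀ v ∈ Ioi (1 : ℝ), F t v = w1 t * ((Ioc 1 (t * T)).indicator (fun v => Yf η v ^ 2) v) := by
      intro v hv
      have hv1 : (1 : ℝ) < v := hv
      rw [hF]
      simp only
      by_cases h : v ≤ t * T
      · rw [indicator_of_mem (show t ∈ Ici (v / T) from (div_le_iff₀ hT0).2 h),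
          indicator_of_mem (show v ∈ Ioc 1 (t * T) from ⟨hv1, h⟩)]
      · rw [indicator_of_notMem (show t ∉ Ici (v / T) from fun h' => h ((div_le_iff₀ hT0).1 h')),
          indicator_of_notMem (show v ∉ Ioc 1 (t * T) from fun h' => h h'.2)]
        ring
    rw [setIntegral_congr_fun measurableSet_Ioi h1, integral_const_mul, setIntegral_indicator measurableSet_Ioc,
      inter_eq_right.2 (fun v hv => hv.1)]
  have e1 : ∀ t ∈ Ioi (0 : ℝ), w1 t * GG c T t = 1 / (T * L ^ 2) * ∫ v in Ioi 1, F t v := by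
    intro t ht
    rw [hinner t ht, GG, ← hL, ← hηd]
    ring
  have hr : ∫ t in Ioi 0, w1 t * GG c T t = 1 / (T * L ^ 2) * ∫ v in Ioi (1 : ℝ), Yf η v ^ 2 * (1 / (1 + (v / T) ^ 2)) := by
    rw [setIntegral_congr_fun measurableSet_Ioi e1, integral_const_mul, hsw]
    congr 1
    exact setIntegral_congr_fun measurableSet_Ioi fun v hv => (hin v hv).2
  constructor
  · have h1 : IntegrableOn (fun t => ∫ v in Ioi 1, F t v) (Ioi 0) := hFi.integral_prod_left
    have h2 : IntegrableOn (fun t => 1 / (T * L ^ 2) * ∫ v in Ioi 1, F t v) (Ioi 0) := h1.const_mul _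
    exact h2.congr_fun (fun t ht => (e1 t ht).symm) measurableSet_Ioi
  · rw [hl, hr]
    have h3 : ∀ v ∈ Ioi (1 : ℝ), Yf η v ^ 2 * (2 / T ^ 2 * (1 / (1 + (v / T) ^ 2))) =
        2 / T ^ 2 * (Yf η v ^ 2 * (1 / (1 + (v / T) ^ 2))) := fun v _ => by ring
    rw [setIntegral_congr_fun measurableSet_Ioi h3, integral_const_mul]
    field_simp

lemma gh_low {δ v : ℝ} (hδ : 0 < δ) (hv : 0 < v) (h : v * δ ≤ 1) : δ ^ 2 / 4 ≤ gh δ v ^ 2 := by
  rw [gh_cos δ hv]
  have h1 : Real.cos (δ * v) = 1 - 2 * Real.sin (δ * v / 2) ^ 2 := by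
    rw [show δ * v = 2 * (δ * v / 2) by ring, Real.cos_two_mul, Real.cos_sq']
    ring_nf
  have hp := Real.pi_pos
  have h2 : 2 / π * (δ * v / 2) ≤ Real.sin (δ * v / 2) := by
    refine Real.mul_le_sin (by positivity) ?_
    have : (1 : ℝ) ≤ π := by linarith [Real.pi_gt_three]
    nlinarith
  have h3 : (2 / π * (δ * v / 2)) ^ 2 ≤ Real.sin (δ * v / 2) ^ 2 := pow_le_pow_left₀ (by positivity) h2 2
  have h4 : δ ^ 2 * v ^ 2 / 16 ≤ (2 / π * (δ * v / 2)) ^ 2 := by
    have e : (2 / π * (δ * v / 2)) ^ 2 = δ ^ 2 * v ^ 2 / π ^ 2 := by field_simp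
    rw [e]
    have : π ^ 2 ≤ 16 := by
      have := Real.pi_le_four
      nlinarith
    gcongr
  rw [h1, le_div_iff₀ (by positivity)]
  nlinarith

/-- domination of the mean squares -/
theorem GG_dom (hRH : RiemannHypothesis) {c : ℝ} (hc : 0 < c) : ∃ C T0 : ℝ, 0 < C ∧ 16 ≤ T0 ∧ ∀ T t : ℝ, T0 ≤ T →
    0 < t → 0 ≤ GG c T t ∧ GG c T t ≤ C * (t * (1 + |Real.log t|) ^ 4) := by
  obtain ⟨C, T0, hC, hT0, hdom⟩ := Q_dom2 hRH hc
  refine ⟨4 * C, max T0 (Real.exp (8 * c + 1)), by positivity, hT0.trans (le_max_left _ _), fun T t hT ht => ?_⟩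
  have hT1 : T0 ≤ T := (le_max_left _ _).trans hT
  have hTe : Real.exp (8 * c + 1) ≤ T := (le_max_right _ _).trans hT
  have hTp : 0 < T := by linarith
  have hlog : 0 < Real.log T := Real.log_pos (by linarith)
  have hLL : 8 * c + 1 ≤ Real.log T := by rwa [Real.le_log_iff_exp_le hTp]
  have hη : 0 < c / (2 * Real.log T) := by positivity
  have hη1 : c / (2 * Real.log T) ≤ 1 / 16 := by
    rw [div_le_div_iff₀ (by positivity) (by norm_num)]
    linarith
  have h1 := hdom T (1 / t) hT1 (by positivity)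
  rw [show Real.log (1 / t) = -Real.log t by rw [one_div, Real.log_inv], abs_neg] at h1
  unfold GG
  obtain ⟨η, hηd⟩ : ∃ η : ℝ, η = c / (2 * Real.log T) := ⟨_, rfl⟩
  rw [← hηd] at hη hη1 h1 ⊢
  have h0 : 0 ≤ ∫ v in Ioc 1 (t * T), Yf η v ^ 2 := integral_nonneg fun v => sq_nonneg _
  refine ⟨by positivity, ?_⟩
  have hδ : 0 < 1 / t / T := by positivity
  have h2 : (1 / t / T) ^ 2 / 4 * (∫ v in Ioc 1 (t * T), Yf η v ^ 2) ≤ Qf η (1 / t / T) := by
    have hi := gQ_int hRH hη hη1 (1 / t / T)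
    rw [← integral_const_mul]
    calc ∫ v in Ioc 1 (t * T), (1 / t / T) ^ 2 / 4 * Yf η v ^ 2 ≤
          ∫ v in Ioc 1 (t * T), gh (1 / t / T) v ^ 2 * Yf η v ^ 2 := by
          refine setIntegral_mono_on ((Y_int hRH hη hη1 _).const_mul _) (hi.mono_set Ioc_subset_Ioi_self)
            measurableSet_Ioc fun v hv => ?_
          refine mul_le_mul_of_nonneg_right (gh_low hδ (by linarith [hv.1]) ?_) (sq_nonneg _)
          rw [div_div, mul_one_div, div_le_one (by positivity)]
          exact hv.2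
      _ ≤ _ := setIntegral_mono_set hi (ae_of_all _ fun v => by positivity) Ioc_subset_Ioi_self.eventuallyLE
  have h3 : T / Real.log T ^ 2 * ((1 / t / T) ^ 2 / 4 * (∫ v in Ioc 1 (t * T), Yf η v ^ 2)) ≤
      C * (1 / t * (1 + |Real.log t|) ^ 4) := le_trans (by gcongr) h1
  have e : (∫ v in Ioc 1 (t * T), Yf η v ^ 2) / (T * Real.log T ^ 2) =
      4 * t ^ 2 * (T / Real.log T ^ 2 * ((1 / t / T) ^ 2 / 4 * (∫ v in Ioc 1 (t * T), Yf η v ^ 2))) := by
    field_simp
  rw [e]
  calc 4 * t ^ 2 * (T / Real.log T ^ 2 * ((1 / t / T) ^ 2 / 4 * (∫ v in Ioc 1 (t * T), Yf η v ^ 2))) ≤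
      4 * t ^ 2 * (C * (1 / t * (1 + |Real.log t|) ^ 4)) := by gcongr
    _ = _ := by field_simp

end Pool.Agent.U507.AH
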