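import Pool.Agent.U507.AH.E3
import Pool.Agent.U507.PC.PP

/-!
# The mean squares and the sums of Poisson kernels, uniformly in the abscissa
-/

set_option autoImplicit false

open Complex Filter Topology Set MeasureTheory Metric
open scoped Real

namespace Pool.Agent.U507.AH

open Pool.Agent.U507.GM hiding step_low low_pt low_unif rigid
open Pool.Agent.U507.PC

/-- **mean squares against Poisson sums** -/
theorem YP (hRH : RiemannHypothesis) {c1 c2 ε : ℝ} (hc1 : 0 < c1) (hc12 : c1 ≤ c2) (hε : 0 < ε) :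
    ∀ᶠ T : ℝ in atTop, ∀ η : ℝ, c1 / Real.log T ≤ η → η ≤ c2 / Real.log T →
      (∫ v, PU T η v ^ 2 ≤ (1 + ε) * (∫ v in Ioc 1 T, Yf η v ^ 2) + ε * (T * Real.log T ^ 2)) ∧
      (∫ v in Ioc 1 T, Yf η v ^ 2 ≤ (1 + ε) * (∫ v, PU T η v ^ 2) + ε * (T * Real.log T ^ 2)) := by
  have hc2 : 0 < c2 := by linarith
  obtain ⟨K, V0, hK, hV0, hYP⟩ := Y_PU hRH
  obtain ⟨C1, hC1, hout⟩ := PU_out
  obtain ⟨C2, hC2, hcr⟩ := Yf_crude hRH
  obtain ⟨B, hB⟩ : ∃ B : ℝ, B = (K * (1 + c2)) ^ 2 := ⟨_, rfl⟩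
  have hB0 : 0 ≤ B := by rw [hB]; positivity
  -- error terms
  have hl2 : Tendsto (fun T : ℝ => Real.log T ^ 2 / T) atTop (𝓝 0) := by
    have := (isLittleO_log_rpow_atTop (r := 1 / 2) (by norm_num)).tendsto_div_nhds_zero
    have h2 := this.pow 2
    rw [zero_pow (by norm_num)] at h2
    refine h2.congr' ?_
    filter_upwards [eventually_gt_atTop 0] with T hT
    rw [div_pow, ← Real.rpow_natCast (T ^ (1 / 2 : ℝ)), ← Real.rpow_mul hT.le]
    norm_num
  have hl1 : Tendsto (fun T : ℝ => 1 / Real.log T) atTop (𝓝 0) := by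
    refine (tendsto_inv_atTop_zero.comp Real.tendsto_log_atTop).congr fun T => ?_
    simp
  have hl3 : Tendsto (fun T : ℝ => T ^ (-(1 / 2) : ℝ)) atTop (𝓝 0) := tendsto_rpow_neg_atTop (by norm_num)
  have herr : Tendsto (fun T : ℝ => (1 + 1 / ε) * B * (1 / Real.log T * (1 / Real.log T)) +
      C1 * ((V0 + 4) / c1 ^ 2 * (Real.log T ^ 2 / T) + c2 * (1 / Real.log T)) +
      C2 / c1 ^ 2 * (V0 * (V0 ^ ((1 : ℝ) / 2)) * (1 / T) + T ^ (-(1 / 2) : ℝ))) atTop (𝓝 0) := by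
    have h1 := ((hl1.mul hl1).const_mul ((1 + 1 / ε) * B)).add
      ((((hl2.const_mul ((V0 + 4) / c1 ^ 2)).add (hl1.const_mul c2)).const_mul C1))
    have hT1 : Tendsto (fun T : ℝ => 1 / T) atTop (𝓝 0) := by
      simpa using tendsto_inv_atTop_zero (𝕜 := ℝ)
    have h2 := h1.add (((hT1.const_mul (V0 * (V0 ^ ((1 : ℝ) / 2)))).add hl3).const_mul (C2 / c1 ^ 2))
    simpa using h2
  filter_upwards [Real.tendsto_log_atTop.eventually_ge_atTop (16 * c2 + 1), eventually_ge_atTop (V0 + 2),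
    herr.eventually_lt_const hε] with T hLT hT1 hTe η hη1' hη2'
  have hT10 : 10 ≤ T := by linarith
  have hT0 : 0 < T := by linarith
  have hlog : 0 < Real.log T := Real.log_pos (by linarith)
  have hη0 : 0 < η := lt_of_lt_of_le (by positivity) hη1'
  have hη16 : η ≤ 1 / 16 := by
    refine hη2'.trans ?_
    rw [div_le_div_iff₀ hlog (by norm_num)]
    linarith
  have hT : 0 < η ∧ η ≤ 1 / 16 := ⟨hη0, hη16⟩
  have hηL : η * Real.log T ≤ c2 := by rwa [le_div_iff₀ hlog] at hη2'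
  have hηL1 : c1 ≤ η * Real.log T := by rwa [div_le_iff₀ hlog] at hη1'
  have hLη : Real.log T / η ≤ Real.log T ^ 2 / c1 := by
    rw [div_le_div_iff₀ hη0 hc1]
    nlinarith
  -- the middle range
  obtain ⟨I, hI⟩ : ∃ I : Set ℝ, I = Ioc V0 (T - 1) := ⟨_, rfl⟩
  have hIm : MeasurableSet I := by rw [hI]; exact measurableSet_Ioc
  have hclose : ∀ v ∈ I, (PU T η v - Yf η v) ^ 2 ≤ B := by
    intro v hv
    rw [hI] at hv
    have h1 := hYP T v η hv.1.le hv.2 hT.1 hT.2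
    rw [← sq_abs, hB]
    refine pow_le_pow_left₀ (abs_nonneg _) (h1.trans ?_) 2
    gcongr
  have hYi : IntegrableOn (fun v => Yf η v ^ 2) (Ioc 1 T) := by
    obtain ⟨C, -, hg⟩ := gY_int hRH
    have h1 := ((hg η hT.1 hT.2).1.mono_set Ioc_subset_Ioi_self (s := Ioc 1 T)).const_mul (T ^ 2 / 4)
    refine Integrable.mono' h1 ((Yf_meas hRH hT.1).pow_const 2).aestronglyMeasurable ?_
    refine (ae_restrict_iff' measurableSet_Ioc).2 (Filter.Eventually.of_forall fun v hv => ?_)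
    have hv0 : 0 < v := by linarith [hv.1]
    rw [Real.norm_eq_abs, abs_of_nonneg (sq_nonneg _)]
    have h2 : 1 ≤ T ^ 2 / 4 * (4 / v ^ 2) := by
      have e : T ^ 2 / 4 * (4 / v ^ 2) = (T / v) ^ 2 := by field_simp
      rw [e]
      have : 1 ≤ T / v := (one_le_div hv0).2 hv.2
      nlinarith
    calc Yf η v ^ 2 = 1 * Yf η v ^ 2 := (one_mul _).symm
      _ ≤ (T ^ 2 / 4 * (4 / v ^ 2)) * Yf η v ^ 2 := by gcongr
      _ = _ := by ring
  have hPi := (PU_sq T hT.1).1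
  have hIsub : I ⊆ Ioc 1 T := by
    rw [hI]
    exact fun v hv => ⟨by linarith [hv.1], by linarith [hv.2]⟩
  have hvol : volume.real I ≤ T := by
    rw [hI, Real.volume_real_Ioc]
    exact max_le (by linarith) (by linarith)
  have hIf : volume I ≠ ⊤ := by rw [hI]; exact measure_Ioc_lt_top.ne
  have hIc : IntegrableOn (fun _ : ℝ => (1 + 1 / ε) * B) I := integrableOn_const hIf
  have hIcv : ∫ v in I, (1 + 1 / ε) * B ≤ (1 + 1 / ε) * B * T := by
    rw [setIntegral_const, smul_eq_mul, mul_comm]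
    gcongr
  have hYI : IntegrableOn (fun v => Yf η v ^ 2) I := hYi.mono_set hIsub
  have hPI : IntegrableOn (fun v => PU T η v ^ 2) I := hPi.integrableOn
  have m1 : ∫ v in I, PU T η v ^ 2 ≤ (1 + ε) * (∫ v in I, Yf η v ^ 2) + (1 + 1 / ε) * B * T := by
    calc ∫ v in I, PU T η v ^ 2 ≤ ∫ v in I, ((1 + ε) * Yf η v ^ 2 + (1 + 1 / ε) * B) := by
          refine setIntegral_mono_on hPI ((hYI.const_mul _).add hIc) hIm fun v hv => ?_
          have h1 := sq_split (a := Yf η v) (b := PU T η v - Yf η v) hε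
          have h2 := hclose v hv
          rw [show Yf η v + (PU T η v - Yf η v) = PU T η v by ring] at h1
          refine h1.trans ?_
          gcongr
      _ ≤ _ := by
          rw [integral_add (hYI.const_mul _) hIc, integral_const_mul]
          linarith
  have m2 : ∫ v in I, Yf η v ^ 2 ≤ (1 + ε) * (∫ v in I, PU T η v ^ 2) + (1 + 1 / ε) * B * T := by
    calc ∫ v in I, Yf η v ^ 2 ≤ ∫ v in I, ((1 + ε) * PU T η v ^ 2 + (1 + 1 / ε) * B) := by
          refine setIntegral_mono_on hYI ((hPI.const_mul _).add hIc) hIm fun v hv => ?_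
          have h1 := sq_split (a := PU T η v) (b := Yf η v - PU T η v) hε
          have h2 := hclose v hv
          rw [show PU T η v + (Yf η v - PU T η v) = Yf η v by ring] at h1
          rw [show (PU T η v - Yf η v) ^ 2 = (Yf η v - PU T η v) ^ 2 by ring] at h2
          refine h1.trans ?_
          gcongr
      _ ≤ _ := by
          rw [integral_add (hPI.const_mul _) hIc, integral_const_mul]
          linarith
  have e1 : ∫ v, PU T η v ^ 2 = (∫ v in I, PU T η v ^ 2) + ∫ v in Iᶜ, PU T η v ^ 2 :=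
    (integral_add_compl hIm hPi).symm
  have o1 := hout T V0 η hT10 (by linarith) (by linarith) hT.1 (by linarith [hT.2])
  rw [← hI] at o1
  have o2 : C1 * ((V0 + 4) * (Real.log T / η) ^ 2 + η * Real.log T * (T * Real.log T)) ≤
      C1 * ((V0 + 4) * (Real.log T ^ 2 / c1) ^ 2 + c2 * (T * Real.log T)) := by
    have : 0 ≤ Real.log T / η := by positivity
    gcongr
  have o1 := o1.trans o2
  have p0 : 0 ≤ ∫ v in Iᶜ, PU T η v ^ 2 := integral_nonneg fun v => sq_nonneg _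
  have p1 : ∫ v in I, Yf η v ^ 2 ≤ ∫ v in Ioc 1 T, Yf η v ^ 2 :=
    setIntegral_mono_set hYi (ae_of_all _ fun v => sq_nonneg _) hIsub.eventuallyLE
  have hcη : C2 / η ^ 2 ≤ C2 / c1 ^ 2 * Real.log T ^ 2 := by
    have h1 : c1 ^ 2 ≤ (η * Real.log T) ^ 2 := pow_le_pow_left₀ hc1.le hηL1 2
    rw [div_mul_eq_mul_div, div_le_div_iff₀ (by positivity) (by positivity)]
    calc C2 * c1 ^ 2 ≤ C2 * (η * Real.log T) ^ 2 := by gcongr
      _ = _ := by ring
  have e2 : ∫ v in Ioc 1 T, Yf η v ^ 2 = (∫ v in Ioc 1 V0, Yf η v ^ 2) + (∫ v in I, Yf η v ^ 2) +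
      ∫ v in Ioc (T - 1) T, Yf η v ^ 2 := by
    have q1 : Ioc 1 T = (Ioc 1 V0 ∪ I) ∪ Ioc (T - 1) T := by
      rw [hI, Ioc_union_Ioc_eq_Ioc (by linarith) (by linarith), Ioc_union_Ioc_eq_Ioc (by linarith) (by linarith)]
    have q2 : IntegrableOn (fun v => Yf η v ^ 2) (Ioc 1 V0) := hYi.mono_set (Ioc_subset_Ioc_right (by linarith))
    have q3 : IntegrableOn (fun v => Yf η v ^ 2) (Ioc (T - 1) T) := hYi.mono_set (Ioc_subset_Ioc_left (by linarith))
    have q4 : Disjoint (Ioc 1 V0) I := by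
      rw [hI]
      exact Set.disjoint_left.2 fun v hv1 hv2 => absurd hv1.2 (not_le.2 hv2.1)
    have q5 : Disjoint (Ioc 1 V0 ∪ I) (Ioc (T - 1) T) := by
      rw [hI, Ioc_union_Ioc_eq_Ioc (by linarith) (by linarith)]
      exact Set.disjoint_left.2 fun v hv1 hv2 => absurd hv1.2 (not_le.2 hv2.1)
    rw [q1, setIntegral_union q5 measurableSet_Ioc (q2.union hYI) q3, setIntegral_union q4 hIm q2 hYI]
  have e3 : ∫ v in Ioc 1 V0, Yf η v ^ 2 ≤ C2 / η ^ 2 * (V0 * V0 ^ ((1 : ℝ) / 2)) := by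
    calc ∫ v in Ioc 1 V0, Yf η v ^ 2 ≤ ∫ v in Ioc 1 V0, C2 / η ^ 2 * V0 ^ ((1 : ℝ) / 2) := by
          refine setIntegral_mono_on (hYi.mono_set (Ioc_subset_Ioc_right (by linarith)))
            (integrableOn_const measure_Ioc_lt_top.ne) measurableSet_Ioc fun v hv => ?_
          have hv1 : (1 : ℝ) < v := hv.1
          refine (hcr η v hT.1 hT.2 hv1.le).trans ?_
          gcongr
          exact hv.2
      _ = (V0 - 1) * (C2 / η ^ 2 * V0 ^ ((1 : ℝ) / 2)) := by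
          rw [setIntegral_const, Real.volume_real_Ioc, max_eq_left (by linarith), smul_eq_mul]
      _ ≤ V0 * (C2 / η ^ 2 * V0 ^ ((1 : ℝ) / 2)) := by gcongr; linarith
      _ = _ := by ring
  have e4 : ∫ v in Ioc (T - 1) T, Yf η v ^ 2 ≤ C2 / η ^ 2 * T ^ ((1 : ℝ) / 2) := by
    calc ∫ v in Ioc (T - 1) T, Yf η v ^ 2 ≤ ∫ v in Ioc (T - 1) T, C2 / η ^ 2 * T ^ ((1 : ℝ) / 2) := by
          refine setIntegral_mono_on (hYi.mono_set (Ioc_subset_Ioc_left (by linarith)))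
            (integrableOn_const measure_Ioc_lt_top.ne) measurableSet_Ioc fun v hv => ?_
          have hv1 : (1 : ℝ) < v := by linarith [hv.1]
          refine (hcr η v hT.1 hT.2 hv1.le).trans ?_
          gcongr
          exact hv.2
      _ = _ := by
          rw [setIntegral_const, Real.volume_real_Ioc, max_eq_left (by linarith), smul_eq_mul]
          ring
  have e3' : ∫ v in Ioc 1 V0, Yf η v ^ 2 ≤ C2 / c1 ^ 2 * Real.log T ^ 2 * (V0 * V0 ^ ((1 : ℝ) / 2)) := by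
    refine e3.trans ?_
    gcongr
  have e4' : ∫ v in Ioc (T - 1) T, Yf η v ^ 2 ≤ C2 / c1 ^ 2 * Real.log T ^ 2 * T ^ ((1 : ℝ) / 2) := by
    refine e4.trans ?_
    gcongr
  obtain ⟨N, hN⟩ : ∃ N : ℝ, N = T * Real.log T ^ 2 := ⟨_, rfl⟩
  have hN0 : 0 < N := by rw [hN]; positivity
  -- the errors divided by `N`
  have r1 : (1 + 1 / ε) * B * T = (1 + 1 / ε) * B * (1 / Real.log T * (1 / Real.log T)) * N := by
    rw [hN]; field_simp
  have r2 : C1 * ((V0 + 4) * (Real.log T ^ 2 / c1) ^ 2 + c2 * (T * Real.log T)) =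
      C1 * ((V0 + 4) / c1 ^ 2 * (Real.log T ^ 2 / T) + c2 * (1 / Real.log T)) * N := by
    rw [hN]; field_simp
  have r3 : C2 / c1 ^ 2 * Real.log T ^ 2 * (V0 * V0 ^ ((1 : ℝ) / 2)) + C2 / c1 ^ 2 * Real.log T ^ 2 * T ^ ((1 : ℝ) / 2) =
      C2 / c1 ^ 2 * (V0 * (V0 ^ ((1 : ℝ) / 2)) * (1 / T) + T ^ (-(1 / 2) : ℝ)) * N := by
    have h1 : T ^ (-(1 / 2) : ℝ) = T ^ ((1 : ℝ) / 2) / T := by
      rw [show (-(1 / 2) : ℝ) = 1 / 2 - 1 by norm_num, Real.rpow_sub hT0, Real.rpow_one]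
    rw [hN, h1]; field_simp
  have n1 : 0 ≤ (1 + 1 / ε) * B * (1 / Real.log T * (1 / Real.log T)) := by positivity
  have n2 : 0 ≤ C1 * ((V0 + 4) / c1 ^ 2 * (Real.log T ^ 2 / T) + c2 * (1 / Real.log T)) := by positivity
  have n3 : 0 ≤ C2 / c1 ^ 2 * (V0 * (V0 ^ ((1 : ℝ) / 2)) * (1 / T) + T ^ (-(1 / 2) : ℝ)) := by positivity
  rw [← hN]
  constructor
  · have t1 : (1 + ε) * (∫ v in I, Yf η v ^ 2) ≤ (1 + ε) * (∫ v in Ioc 1 T, Yf η v ^ 2) := by gcongr
    have t2 : ((1 + 1 / ε) * B * (1 / Real.log T * (1 / Real.log T)) +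
        C1 * ((V0 + 4) / c1 ^ 2 * (Real.log T ^ 2 / T) + c2 * (1 / Real.log T))) * N ≤ ε * N :=
      mul_le_mul_of_nonneg_right (by linarith) hN0.le
    rw [add_mul, ← r1, ← r2] at t2
    linarith
  · have t1 : (1 + ε) * (∫ v in I, PU T η v ^ 2) ≤ (1 + ε) * (∫ v, PU T η v ^ 2) :=
      mul_le_mul_of_nonneg_left (by linarith) (by linarith)
    have t2 : ((1 + 1 / ε) * B * (1 / Real.log T * (1 / Real.log T)) +
        C2 / c1 ^ 2 * (V0 * (V0 ^ ((1 : ℝ) / 2)) * (1 / T) + T ^ (-(1 / 2) : ℝ))) * N ≤ ε * N :=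
      mul_le_mul_of_nonneg_right (by linarith) hN0.le
    rw [add_mul, ← r1, ← r3] at t2
    linarith

end Pool.Agent.U507.AH
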