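import Pool.Agent.U507.AH.E4
import Pool.Agent.U507.PC.FP

/-!
# The mean squares and the form factor of the zeros
-/

set_option autoImplicit false

open Complex Filter Topology Set MeasureTheory Metric
open scoped Real

namespace Pool.Agent.U507.AH

open Pool.Agent.U507.GM hiding step_low low_pt low_unif rigid
open Pool.Agent.U507.PC
open Pool.Agent.Y749.Rig (ZZ mm mm_nonneg mem_ZZ Fr)

/-- the Laplace transform of the form factor -/
noncomputable def LF (T c : ℝ) : ℝ := ∫ α in Ioi 0, Fr T α * Real.exp (-c * α)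

/-- the mean square of the Poisson sums -/
noncomputable def PUm (T c : ℝ) : ℝ := (∫ v, PU T (c / (2 * Real.log T)) v ^ 2) / (T * Real.log T ^ 2)

lemma PUm_bdd {c : ℝ} (hc : 0 < c) : ∃ C T0 : ℝ, 0 < C ∧ 16 ≤ T0 ∧ ∀ T : ℝ, T0 ≤ T → 0 ≤ PUm T c ∧ PUm T c ≤ C := by
  obtain ⟨C, T0, hC, hT0, h⟩ := PU_bound2
  refine ⟨C * (2 / c + c ^ 2 / 4), max T0 16, by positivity, le_max_right _ _, fun T hT => ?_⟩
  have h1 : T0 ≤ T := (le_max_left _ _).trans hT
  have h2 : 16 ≤ T := (le_max_right _ _).trans hT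
  have hT0' : 0 < T := by linarith
  have hlog : 0 < Real.log T := Real.log_pos (by linarith)
  have h0 : 0 ≤ ∫ v, PU T (c / (2 * Real.log T)) v ^ 2 := integral_nonneg fun v => sq_nonneg _
  unfold PUm
  refine ⟨by positivity, ?_⟩
  rw [div_le_iff₀ (by positivity)]
  refine (h T (c / (2 * Real.log T)) h1 (by positivity)).trans (le_of_eq ?_)
  field_simp
  ring

lemma ultra_lim {g : Ultrafilter ℝ} {f : ℝ → ℝ} {a b : ℝ} (h : ∀ᶠ T in (g : Filter ℝ), a ≤ f T ∧ f T ≤ b) :
    ∃ D : ℝ, a ≤ D ∧ D ≤ b ∧ Tendsto f g (𝓝 D) := by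
  obtain ⟨D, hD, hlim⟩ := (isCompact_Icc (a := a) (b := b)).ultrafilter_le_nhds (g.map f) (by
    rw [le_principal_iff, Ultrafilter.coe_map, mem_map]
    filter_upwards [h] with T hT
    exact ⟨hT.1, hT.2⟩)
  exact ⟨D, hD.1, hD.2, hlim⟩

lemma LF_PU {c : ℝ} (hRH : RiemannHypothesis) (hc : 0 < c) : Tendsto (fun T => LF T c - 2 * PUm T c) atTop (𝓝 0) := by
  obtain ⟨C, T0, hC, hT0, hb⟩ := PUm_bdd hc
  rw [tendsto_iff_ultrafilter]
  intro g hg
  obtain ⟨D, -, -, hD⟩ := ultra_lim (g := g) (f := fun T => PUm T c) (a := 0) (b := C) (by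
    filter_upwards [hg (eventually_ge_atTop T0)] with T hT
    exact hb T hT)
  have h1 := (lap_of_PU hg hc hD).2
  have h2 := h1.sub (hD.const_mul 2)
  rw [sub_self] at h2
  exact h2

lemma LF_bdd (hRH : RiemannHypothesis) {c : ℝ} (hc : 0 < c) : ∃ C T0 : ℝ, 0 < C ∧ 16 ≤ T0 ∧ ∀ T : ℝ, T0 ≤ T → |LF T c| ≤ C := by
  obtain ⟨C, T0, hC, hT0, hb⟩ := PUm_bdd hc
  have h1 := (LF_PU hRH hc).eventually (Metric.ball_mem_nhds _ one_pos)
  obtain ⟨T1, hT1⟩ := eventually_atTop.1 h1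
  refine ⟨2 * C + 1, max T0 T1, by positivity, hT0.trans (le_max_left _ _), fun T hT => ?_⟩
  have h2 := hT1 T ((le_max_right _ _).trans hT)
  obtain ⟨b1, b2⟩ := hb T ((le_max_left _ _).trans hT)
  rw [Real.dist_eq, sub_zero, abs_lt] at h2
  rw [abs_le]
  constructor <;> linarith [h2.1, h2.2]

lemma PU_rat (T v : ℝ) {η0 η r : ℝ} (h0 : 0 < η0) (h : 0 < η) (hr : 0 ≤ r) (h1 : η ≤ r * η0) (h2 : η0 ≤ r * η) :
    PU T η v ≤ r * PU T η0 v := by
  unfold PU
  rw [Finset.mul_sum]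
  refine Finset.sum_le_sum fun s _ => ?_
  have hm := mm_nonneg s
  obtain ⟨x, hx⟩ : ∃ x : ℝ, x = (v - s.im) ^ 2 := ⟨_, rfl⟩
  have hx0 : 0 ≤ x := by rw [hx]; exact sq_nonneg _
  rw [← hx]
  have h3 : η / (η ^ 2 + x) ≤ r * (η0 / (η0 ^ 2 + x)) := by
    rw [← mul_div_assoc, div_le_div_iff₀ (by positivity) (by positivity)]
    have a1 : η * x ≤ r * η0 * x := mul_le_mul_of_nonneg_right h1 hx0
    have a2 : η * η0 * η0 ≤ η * η0 * (r * η) := mul_le_mul_of_nonneg_left h2 (by positivity)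
    nlinarith
  calc mm s * (η / (η ^ 2 + x)) ≤ mm s * (r * (η0 / (η0 ^ 2 + x))) := by gcongr
    _ = _ := by ring

lemma PU_rat_sq (T : ℝ) {η0 η r : ℝ} (h0 : 0 < η0) (h : 0 < η) (hr : 0 ≤ r) (h1 : η ≤ r * η0) (h2 : η0 ≤ r * η) :
    ∫ v, PU T η v ^ 2 ≤ r ^ 2 * ∫ v, PU T η0 v ^ 2 := by
  rw [← integral_const_mul]
  refine integral_mono (PU_sq T h).1 ((PU_sq T h0).1.const_mul _) fun v => ?_
  simp only
  rw [← mul_pow]
  exact pow_le_pow_left₀ (PU_nonneg T v h) (PU_rat T v h0 h hr h1 h2) 2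

lemma lin_small {a b : ℝ} (hb : 0 ≤ b) (h : ∀ ε : ℝ, 0 < ε → ε ≤ 1 → a ≤ ε * b) : a ≤ 0 := by
  by_contra hcon
  rw [not_le] at hcon
  obtain ⟨ε, hε⟩ : ∃ ε : ℝ, ε = min 1 (a / (2 * (b + 1))) := ⟨_, rfl⟩
  have h0 : 0 < ε := by rw [hε]; exact lt_min one_pos (by positivity)
  have h1 : ε ≤ 1 := by rw [hε]; exact min_le_left _ _
  have h2 : ε * (2 * (b + 1)) ≤ a := by
    have : ε ≤ a / (2 * (b + 1)) := by rw [hε]; exact min_le_right _ _
    rwa [le_div_iff₀ (by positivity)] at this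
  have h3 := h ε h0 h1
  nlinarith

/-- **the mean squares follow the Poisson sums** -/
theorem GG_PU (hRH : RiemannHypothesis) {c t : ℝ} (hc : 0 < c) (ht : 0 < t) :
    Tendsto (fun T => GG c T t - t * PUm (t * T) c) atTop (𝓝 0) := by
  obtain ⟨C, T0, hC, hT0, hb⟩ := PUm_bdd hc
  obtain ⟨C', T1, hC', hT1, hG⟩ := GG_dom hRH hc
  have htT : Tendsto (fun T : ℝ => t * T) atTop atTop := tendsto_id.const_mul_atTop ht
  have hlogt : ∀ᶠ T : ℝ in atTop, Real.log (t * T) = Real.log t + Real.log T := by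
    filter_upwards [eventually_gt_atTop 0] with T hT
    rw [Real.log_mul ht.ne' hT.ne']
  have hq : Tendsto (fun T => Real.log (t * T) / Real.log T) atTop (𝓝 1) := by
    have h1 : Tendsto (fun T : ℝ => Real.log t / Real.log T) atTop (𝓝 0) :=
      tendsto_const_nhds.div_atTop Real.tendsto_log_atTop
    have h2 := h1.add_const 1
    rw [zero_add] at h2
    refine h2.congr' ?_
    filter_upwards [hlogt, eventually_gt_atTop (1 : ℝ)] with T h3 h4
    rw [h3]
    have : 0 < Real.log T := Real.log_pos h4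
    field_simp
  obtain ⟨r, hr⟩ : ∃ r : ℝ → ℝ, r = fun T => max (Real.log (t * T) / Real.log T) (Real.log (t * T) / Real.log T)⁻¹ :=
    ⟨_, rfl⟩
  have hrlim : Tendsto r atTop (𝓝 1) := by
    have := hq.max (hq.inv₀ one_ne_zero)
    rw [inv_one, max_self] at this
    rw [hr]
    exact this
  rw [tendsto_iff_ultrafilter]
  intro g hg
  obtain ⟨D, hD0, -, hD⟩ := ultra_lim (g := g) (f := fun T => PUm (t * T) c) (a := 0) (b := C) (by
    filter_upwards [hg (htT.eventually_ge_atTop T0)] with T hT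
    exact hb _ hT)
  obtain ⟨E, hE0, -, hE⟩ := ultra_lim (g := g) (f := fun T => GG c T t) (a := 0)
    (b := C' * (t * (1 + |Real.log t|) ^ 4)) (by
    filter_upwards [hg (eventually_ge_atTop T1)] with T hT
    exact hG T t hT ht)
  have hqg := hq.mono_left hg
  have hrg := hrlim.mono_left hg
  have key : ∀ ε : ℝ, 0 < ε → ε ≤ 1 → E ≤ t * ((1 + ε) * D + ε) ∧ t * D ≤ (1 + ε) * E + ε * t := by
    intro ε hε hε1
    have hyp := htT.eventually (YP hRH (c1 := c / 4) (c2 := c) (by positivity) (by linarith) hε)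
    have hev : ∀ᶠ T in (g : Filter ℝ), GG c T t ≤ t * (Real.log (t * T) / Real.log T) ^ 2 *
        ((1 + ε) * (r T ^ 2 * PUm (t * T) c) + ε) ∧
        t * (Real.log (t * T) / Real.log T) ^ 2 * PUm (t * T) c ≤
        r T ^ 2 * ((1 + ε) * GG c T t + ε * (t * (Real.log (t * T) / Real.log T) ^ 2)) := by
      filter_upwards [hg hyp, hg (eventually_gt_atTop (1 : ℝ)), hg (htT.eventually_gt_atTop 1),
        hqg.eventually (lt_mem_nhds (show (1 / 2 : ℝ) < 1 by norm_num)),
        hqg.eventually (gt_mem_nhds (show (1 : ℝ) < 2 by norm_num))] with T k1 k2 k3 k4 k5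
      have hT0' : 0 < T := by linarith
      obtain ⟨L, hL⟩ : ∃ L : ℝ, L = Real.log T := ⟨_, rfl⟩
      obtain ⟨L', hL'⟩ : ∃ L' : ℝ, L' = Real.log (t * T) := ⟨_, rfl⟩
      have hLp : 0 < L := by rw [hL]; exact Real.log_pos k2
      have hL'p : 0 < L' := by rw [hL']; exact Real.log_pos k3
      rw [← hL, ← hL'] at k4 k5
      rw [← hL'] at k1
      rw [← hL, ← hL']
      rw [lt_div_iff₀ hLp] at k4
      rw [div_lt_iff₀ hLp] at k5
      obtain ⟨y1, y2⟩ := k1 (c / (2 * L)) (by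
        rw [div_le_div_iff₀ hL'p (by positivity)]
        nlinarith) (by
        rw [div_le_div_iff₀ (by positivity) hL'p]
        nlinarith)
      have hrT : r T = max (L' / L) (L' / L)⁻¹ := by rw [hr]; simp only; rw [← hL, ← hL']
      have r1 : L' / L ≤ r T := by rw [hrT]; exact le_max_left _ _
      have r2 : L / L' ≤ r T := by rw [hrT, inv_div]; exact le_max_right _ _
      have r0 : 0 ≤ r T := le_trans (by positivity) r1
      have e1 : c / (2 * L) ≤ r T * (c / (2 * L')) := by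
        calc c / (2 * L) = L' / L * (c / (2 * L')) := by field_simp
          _ ≤ _ := by gcongr
      have e2 : c / (2 * L') ≤ r T * (c / (2 * L)) := by
        calc c / (2 * L') = L / L' * (c / (2 * L)) := by field_simp
          _ ≤ _ := by gcongr
      have s1 := PU_rat_sq (t * T) (η0 := c / (2 * L')) (η := c / (2 * L)) (by positivity) (by positivity) r0 e1 e2
      have s2 := PU_rat_sq (t * T) (η0 := c / (2 * L)) (η := c / (2 * L')) (by positivity) (by positivity) r0 e2 e1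
      have hP : ∫ v, PU (t * T) (c / (2 * L')) v ^ 2 = (t * T) * L' ^ 2 * PUm (t * T) c := by
        unfold PUm
        rw [← hL']
        field_simp
      have hGG : ∫ v in Ioc 1 (t * T), Yf (c / (2 * L)) v ^ 2 = T * L ^ 2 * GG c T t := by
        unfold GG
        rw [← hL]
        field_simp
      rw [hP] at s1 s2
      rw [hGG] at y1 y2
      obtain ⟨P1, hP1⟩ : ∃ P1 : ℝ, P1 = ∫ v, PU (t * T) (c / (2 * L)) v ^ 2 := ⟨_, rfl⟩
      rw [← hP1] at s1 s2 y1 y2
      obtain ⟨m, hm⟩ : ∃ m : ℝ, m = PUm (t * T) c := ⟨_, rfl⟩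
      rw [← hm] at s1 s2 ⊢
      obtain ⟨G, hGd⟩ : ∃ G : ℝ, G = GG c T t := ⟨_, rfl⟩
      rw [← hGd] at y1 y2 ⊢
      have hN : 0 < T * L ^ 2 := by positivity
      constructor
      · have h1 : T * L ^ 2 * G ≤ T * L ^ 2 * (t * (L' / L) ^ 2 * ((1 + ε) * (r T ^ 2 * m) + ε)) := by
          calc T * L ^ 2 * G ≤ (1 + ε) * P1 + ε * (t * T * L' ^ 2) := y2
            _ ≤ (1 + ε) * (r T ^ 2 * (t * T * L' ^ 2 * m)) + ε * (t * T * L' ^ 2) := by gcongr
            _ = _ := by field_simp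
        exact le_of_mul_le_mul_left h1 hN
      · have h1 : T * L ^ 2 * (t * (L' / L) ^ 2 * m) ≤
            T * L ^ 2 * (r T ^ 2 * ((1 + ε) * G + ε * (t * (L' / L) ^ 2))) := by
          calc T * L ^ 2 * (t * (L' / L) ^ 2 * m) = t * T * L' ^ 2 * m := by field_simp
            _ ≤ r T ^ 2 * P1 := s2
            _ ≤ r T ^ 2 * ((1 + ε) * (T * L ^ 2 * G) + ε * (t * T * L' ^ 2)) := by gcongr
            _ = _ := by field_simp
        exact le_of_mul_le_mul_left h1 hN
    have l1 : Tendsto (fun T => t * (Real.log (t * T) / Real.log T) ^ 2 * ((1 + ε) * (r T ^ 2 * PUm (t * T) c) + ε)) g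
        (𝓝 (t * 1 ^ 2 * ((1 + ε) * (1 ^ 2 * D) + ε))) :=
      (((hqg.pow 2).const_mul t)).mul ((((hrg.pow 2).mul hD).const_mul (1 + ε)).add_const ε)
    have l2 : Tendsto (fun T => t * (Real.log (t * T) / Real.log T) ^ 2 * PUm (t * T) c) g (𝓝 (t * 1 ^ 2 * D)) :=
      ((hqg.pow 2).const_mul t).mul hD
    have l3 : Tendsto (fun T => r T ^ 2 * ((1 + ε) * GG c T t + ε * (t * (Real.log (t * T) / Real.log T) ^ 2))) g
        (𝓝 (1 ^ 2 * ((1 + ε) * E + ε * (t * 1 ^ 2)))) :=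
      (hrg.pow 2).mul ((hE.const_mul (1 + ε)).add (((hqg.pow 2).const_mul t).const_mul ε))
    have m1 := le_of_tendsto_of_tendsto hE l1 (hev.mono fun T h => h.1)
    have m2 := le_of_tendsto_of_tendsto l2 l3 (hev.mono fun T h => h.2)
    constructor
    · calc E ≤ _ := m1
        _ = _ := by ring
    · calc t * D = t * 1 ^ 2 * D := by ring
        _ ≤ _ := m2
        _ = _ := by ring
  have hED : E = t * D := by
    have a1 : E - t * D ≤ 0 := lin_small (b := t * D + t) (by positivity) fun ε h1 h2 => by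
      have := (key ε h1 h2).1
      nlinarith
    have a2 : t * D - E ≤ 0 := lin_small (b := E + t) (by positivity) fun ε h1 h2 => by
      have := (key ε h1 h2).2
      nlinarith
    linarith
  have h := hE.sub (hD.const_mul t)
  rw [hED, sub_self] at h
  exact h

/-- **the mean squares follow the form factor** -/
theorem GG_LF (hRH : RiemannHypothesis) {c t : ℝ} (hc : 0 < c) (ht : 0 < t) :
    Tendsto (fun T => GG c T t - t / 2 * LF (t * T) c) atTop (𝓝 0) := by
  have htT : Tendsto (fun T : ℝ => t * T) atTop atTop := tendsto_id.const_mul_atTop ht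
  have h1 := GG_PU hRH hc ht
  have h2 := ((LF_PU hRH hc).comp htT).const_mul (t / 2)
  have h3 := h1.sub h2
  rw [mul_zero, sub_zero] at h3
  refine h3.congr fun T => ?_
  simp only [Function.comp]
  ring

end Pool.Agent.U507.AH
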