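import Pool.Agent.U507.AH.E5
import Pool.Agent.Y763.AH.E

/-!
# From exponentials to the tent
-/

set_option autoImplicit false

open Complex Filter Topology Set MeasureTheory Metric
open scoped Real

namespace Pool.Agent.U507.AH

open Pool.Agent.U507.GM hiding step_low low_pt low_unif rigid
open Pool.Agent.U507.PC
open Pool.Agent.Y749.Rig (ZZ mm mm_nonneg mem_ZZ Fr Fr_cont Fr_nonneg Fr_even nT nT_pos tr tr_int tr_cont)
open Pool.Agent.Y763.AH (PT PT_nonneg S_eq NZ_lim)

/-- the relation for one exponential -/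
theorem EE (hRH : RiemannHypothesis) {c : ℝ} (hc : 0 < c) :
    Tendsto (fun T => (∫ s in Ioc 0 √T, Real.exp (-s) * (s * LV (Ut T s) c)) + 1 / 2 -
      4 / π * ∫ t in Ioi 0, w1 t * GG c T t) atTop (𝓝 0) := by
  have h := (D_int hRH hc).const_mul (-(2 / π))
  rw [mul_zero] at h
  refine h.congr' ?_
  filter_upwards [eta_ev hc, eventually_gt_atTop (1 : ℝ)] with T hT hT1
  rw [(lap_id hRH hT1 hT.1 hT.2).2]
  have hp := Real.pi_pos
  field_simp
  ring

lemma LV_int (hRH : RiemannHypothesis) {c : ℝ} (hc : 0 < c) :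
    ∀ᶠ T in atTop, IntegrableOn (fun s => Real.exp (-s) * (s * LV (Ut T s) c)) (Ioc 0 √T) := by
  obtain ⟨C1, T1, hC1, hT1, hb1⟩ := LV_bdd hRH hc
  have hbig : ∀ᶠ T : ℝ in atTop, T1 ≤ √T / 2 := by
    have := (Real.tendsto_sqrt_atTop).eventually_ge_atTop (2 * T1)
    filter_upwards [this] with T hT
    linarith
  filter_upwards [hbig, eventually_ge_atTop 16] with T hT hT2
  refine Integrable.mono' (((exp_pow_int 1).mono_set Ioc_subset_Ioi_self).const_mul C1) ?_ ?_
  · exact ((by fun_prop : Measurable fun s : ℝ => Real.exp (-s)).mul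
      (measurable_id.mul ((LV_meas c).comp (Ut_meas T)))).aestronglyMeasurable
  · refine (ae_restrict_iff' measurableSet_Ioc).2 (Filter.Eventually.of_forall fun s hs => ?_)
    have hs0 : (0 : ℝ) < s := hs.1
    obtain ⟨b1, b2⟩ := hb1 (Ut T s) (hT.trans (Ut_facts hT2 hs.1 hs.2))
    rw [Real.norm_eq_abs, abs_of_nonneg (by positivity)]
    calc Real.exp (-s) * (s * LV (Ut T s) c) ≤ Real.exp (-s) * (s * C1) := by gcongr
      _ = _ := by ring

noncomputable def LVp (p : Polynomial ℝ) (T : ℝ) : ℝ :=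
  ∑ k ∈ Finset.range (p.natDegree + 1), p.coeff k * LV T ((k : ℝ) + 1)

noncomputable def LFp (p : Polynomial ℝ) (T : ℝ) : ℝ :=
  ∑ k ∈ Finset.range (p.natDegree + 1), p.coeff k * LF T ((k : ℝ) + 1)

noncomputable def GGp (p : Polynomial ℝ) (T t : ℝ) : ℝ :=
  ∑ k ∈ Finset.range (p.natDegree + 1), p.coeff k * GG ((k : ℝ) + 1) T t

lemma kpos (k : ℕ) : (0 : ℝ) < (k : ℝ) + 1 := by positivity

/-- the relation for polynomials in the exponential -/
theorem EEp (hRH : RiemannHypothesis) (p : Polynomial ℝ) :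
    (∀ᶠ T in atTop, IntegrableOn (fun t => w1 t * GGp p T t) (Ioi 0)) ∧
    (∀ᶠ T in atTop, IntegrableOn (fun s => Real.exp (-s) * (s * LVp p (Ut T s))) (Ioc 0 √T)) ∧
    Tendsto (fun T => (∫ s in Ioc 0 √T, Real.exp (-s) * (s * LVp p (Ut T s))) + p.eval 1 / 2 -
      4 / π * ∫ t in Ioi 0, w1 t * GGp p T t) atTop (𝓝 0) := by
  have i1 : ∀ᶠ T in atTop, ∀ k ∈ Finset.range (p.natDegree + 1),
      IntegrableOn (fun s => Real.exp (-s) * (s * LV (Ut T s) ((k : ℝ) + 1))) (Ioc 0 √T) := by
    rw [Filter.eventually_all_finset]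
    exact fun k _ => LV_int hRH (kpos k)
  have i2 : ∀ᶠ T in atTop, ∀ k ∈ Finset.range (p.natDegree + 1),
      IntegrableOn (fun t => w1 t * GG ((k : ℝ) + 1) T t) (Ioi 0) := by
    rw [Filter.eventually_all_finset]
    intro k _
    filter_upwards [eta_ev (kpos k), eventually_gt_atTop (1 : ℝ)] with T hT hT1
    exact (lap_id hRH hT1 hT.1 hT.2).1
  have e1 : ∀ T s : ℝ, Real.exp (-s) * (s * LVp p (Ut T s)) = ∑ k ∈ Finset.range (p.natDegree + 1),
      p.coeff k * (Real.exp (-s) * (s * LV (Ut T s) ((k : ℝ) + 1))) := by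
    intro T s
    unfold LVp
    rw [Finset.mul_sum, Finset.mul_sum]
    exact Finset.sum_congr rfl fun k _ => by ring
  have e2 : ∀ T t : ℝ, w1 t * GGp p T t = ∑ k ∈ Finset.range (p.natDegree + 1),
      p.coeff k * (w1 t * GG ((k : ℝ) + 1) T t) := by
    intro T t
    unfold GGp
    rw [Finset.mul_sum]
    exact Finset.sum_congr rfl fun k _ => by ring
  refine ⟨?_, ?_, ?_⟩
  · filter_upwards [i2] with T h2
    simp_rw [e2]
    exact integrable_finsetSum _ fun k hk => (h2 k hk).const_mul _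
  · filter_upwards [i1] with T h1
    simp_rw [e1]
    exact integrable_finsetSum _ fun k hk => (h1 k hk).const_mul _
  · have h : Tendsto (fun T => ∑ k ∈ Finset.range (p.natDegree + 1), p.coeff k *
        ((∫ s in Ioc 0 √T, Real.exp (-s) * (s * LV (Ut T s) ((k : ℝ) + 1))) + 1 / 2 -
        4 / π * ∫ t in Ioi 0, w1 t * GG ((k : ℝ) + 1) T t)) atTop
        (𝓝 (∑ k ∈ Finset.range (p.natDegree + 1), p.coeff k * 0)) :=
      tendsto_finsetSum _ fun k _ => (EE hRH (kpos k)).const_mul _
    simp only [mul_zero, Finset.sum_const_zero] at h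
    refine h.congr' ?_
    filter_upwards [i1, i2] with T h1 h2
    simp_rw [e1, e2]
    rw [integral_finsetSum _ fun k hk => (h1 k hk).const_mul _, integral_finsetSum _ fun k hk => (h2 k hk).const_mul _,
      Polynomial.eval_eq_sum_range, Finset.sum_div, ← Finset.sum_add_distrib, Finset.mul_sum, ← Finset.sum_sub_distrib]
    refine Finset.sum_congr rfl fun k _ => ?_
    rw [integral_const_mul, integral_const_mul, one_pow]
    ring

theorem GGp_LF (hRH : RiemannHypothesis) (p : Polynomial ℝ) {t : ℝ} (ht : 0 < t) :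
    Tendsto (fun T => GGp p T t - t / 2 * LFp p (t * T)) atTop (𝓝 0) := by
  have h : Tendsto (fun T => ∑ k ∈ Finset.range (p.natDegree + 1), p.coeff k *
      (GG ((k : ℝ) + 1) T t - t / 2 * LF (t * T) ((k : ℝ) + 1))) atTop
      (𝓝 (∑ k ∈ Finset.range (p.natDegree + 1), p.coeff k * 0)) :=
    tendsto_finsetSum _ fun k _ => (GG_LF hRH (kpos k) ht).const_mul _
  simp only [mul_zero, Finset.sum_const_zero] at h
  refine h.congr fun T => ?_
  unfold GGp LFp
  rw [Finset.mul_sum, ← Finset.sum_sub_distrib]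
  exact Finset.sum_congr rfl fun k _ => by ring

theorem GGp_dom (hRH : RiemannHypothesis) (p : Polynomial ℝ) : ∃ C T0 : ℝ, 0 < C ∧ 16 ≤ T0 ∧ ∀ T t : ℝ, T0 ≤ T →
    0 < t → |GGp p T t| ≤ C * (t * (1 + |Real.log t|) ^ 4) := by
  choose C T0 h1 h2 h3 using fun k : ℕ => GG_dom hRH (kpos k)
  obtain ⟨TT, hTT⟩ : ∃ TT : ℝ, TT = 16 + ∑ k ∈ Finset.range (p.natDegree + 1), T0 k := ⟨_, rfl⟩
  have hle : ∀ k ∈ Finset.range (p.natDegree + 1), T0 k ≤ TT := by
    intro k hk
    have := Finset.single_le_sum (f := T0) (fun k _ => by linarith [h2 k]) hk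
    rw [hTT]
    linarith
  have hs0 : 0 ≤ ∑ k ∈ Finset.range (p.natDegree + 1), T0 k := Finset.sum_nonneg fun k _ => by linarith [h2 k]
  have hc0 : 0 ≤ ∑ k ∈ Finset.range (p.natDegree + 1), |p.coeff k| * C k :=
    Finset.sum_nonneg fun k _ => mul_nonneg (abs_nonneg _) (h1 k).le
  refine ⟨(∑ k ∈ Finset.range (p.natDegree + 1), |p.coeff k| * C k) + 1, TT, by linarith, by linarith,
    fun T t hT ht => ?_⟩
  have h0 : 0 ≤ t * (1 + |Real.log t|) ^ 4 := by positivity
  unfold GGp
  calc |∑ k ∈ Finset.range (p.natDegree + 1), p.coeff k * GG ((k : ℝ) + 1) T t| ≤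
      ∑ k ∈ Finset.range (p.natDegree + 1), |p.coeff k * GG ((k : ℝ) + 1) T t| := Finset.abs_sum_le_sum_abs _ _
    _ ≤ ∑ k ∈ Finset.range (p.natDegree + 1), |p.coeff k| * C k * (t * (1 + |Real.log t|) ^ 4) := by
        refine Finset.sum_le_sum fun k hk => ?_
        obtain ⟨g1, g2⟩ := h3 k T t ((hle k hk).trans hT) ht
        rw [abs_mul, abs_of_nonneg g1, mul_assoc]
        gcongr
    _ = (∑ k ∈ Finset.range (p.natDegree + 1), |p.coeff k| * C k) * (t * (1 + |Real.log t|) ^ 4) := by
        rw [Finset.sum_mul]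
    _ ≤ _ := by nlinarith

/-- approximation by polynomials in the exponential -/
theorem approx {f : ℝ → ℝ} (hf : Continuous f) {M : ℝ} (hM : ∀ x, M ≤ x → f x = 0) {e : ℝ} (he : 0 < e) :
    ∃ p : Polynomial ℝ, |f 0 - p.eval 1| ≤ e ∧ ∀ a : ℝ → ℝ, Measurable a → (∀ x ∈ Ioi (0 : ℝ), 0 ≤ a x) →
      (∀ k ∈ Finset.range (p.natDegree + 1), IntegrableOn (fun x => Real.exp (-((k : ℝ) + 1) * x) * a x) (Ioi 0)) →
      |(∫ x in Ioi 0, f x * a x) - ∑ k ∈ Finset.range (p.natDegree + 1),
        p.coeff k * ∫ x in Ioi 0, Real.exp (-((k : ℝ) + 1) * x) * a x| ≤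
        e * ∫ x in Ioi 0, Real.exp (-1 * x) * a x := by
  obtain ⟨g, hg⟩ : ∃ g : ℝ → ℝ, g = fun u => f (-Real.log (max u (Real.exp (-M)))) * (max u (Real.exp (-M)))⁻¹ :=
    ⟨_, rfl⟩
  have hgc : Continuous g := by
    rw [hg]
    have h1 : Continuous fun u : ℝ => max u (Real.exp (-M)) := by fun_prop
    have h2 : ∀ u : ℝ, max u (Real.exp (-M)) ≠ 0 := fun u =>
      (lt_max_of_lt_right (Real.exp_pos _)).ne'
    exact (hf.comp (h1.log h2).neg).mul (h1.inv₀ h2)
  have hge : ∀ x : ℝ, Real.exp (-x) * g (Real.exp (-x)) = f x := by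
    intro x
    rw [hg]
    simp only
    rcases le_total x M with h | h
    · rw [max_eq_left (Real.exp_le_exp.2 (by linarith)), Real.log_exp, neg_neg]
      have := (Real.exp_pos (-x)).ne'
      field_simp
    · rw [max_eq_right (Real.exp_le_exp.2 (by linarith)), Real.log_exp, neg_neg, hM M le_rfl, hM x h]
      simp
  obtain ⟨p, hp⟩ := exists_polynomial_near_of_continuousOn 0 1 g hgc.continuousOn e he
  have poly_eq : ∀ x : ℝ, Real.exp (-x) * p.eval (Real.exp (-x)) =
      ∑ k ∈ Finset.range (p.natDegree + 1), p.coeff k * Real.exp (-((k : ℝ) + 1) * x) := by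
    intro x
    rw [Polynomial.eval_eq_sum_range, Finset.mul_sum]
    refine Finset.sum_congr rfl fun k _ => ?_
    rw [← Real.exp_nat_mul, mul_left_comm, ← Real.exp_add]
    congr 2
    ring
  refine ⟨p, ?_, fun a ham ha0 hk => ?_⟩
  · have h1 := hge 0
    rw [neg_zero, Real.exp_zero, one_mul] at h1
    rw [← h1, abs_sub_comm]
    exact (hp 1 ⟨zero_le_one, le_rfl⟩).le
  · have hk0 : IntegrableOn (fun x => Real.exp (-1 * x) * a x) (Ioi 0) := by
      have := hk 0 (Finset.mem_range.2 (Nat.succ_pos _))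
      simpa using this
    have hpi : IntegrableOn (fun x => (Real.exp (-x) * p.eval (Real.exp (-x))) * a x) (Ioi 0) := by
      have h1 : Integrable (fun x => ∑ k ∈ Finset.range (p.natDegree + 1),
          p.coeff k * (Real.exp (-((k : ℝ) + 1) * x) * a x)) (volume.restrict (Ioi 0)) :=
        integrable_finsetSum _ fun k hk' => (hk k hk').const_mul _
      refine h1.congr (Eventually.of_forall fun x => ?_)
      simp only
      rw [poly_eq, Finset.sum_mul]
      exact Finset.sum_congr rfl fun k _ => by ring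
    have hsum : ∑ k ∈ Finset.range (p.natDegree + 1), p.coeff k * ∫ x in Ioi 0, Real.exp (-((k : ℝ) + 1) * x) * a x =
        ∫ x in Ioi 0, (Real.exp (-x) * p.eval (Real.exp (-x))) * a x := by
      simp_rw [poly_eq, Finset.sum_mul]
      rw [integral_finsetSum _ fun k hk' => ?_]
      · refine Finset.sum_congr rfl fun k _ => ?_
        rw [← integral_const_mul]
        refine integral_congr_ae (ae_of_all _ fun x => ?_)
        simp only
        ring
      · refine ((hk k hk').const_mul (p.coeff k)).congr (ae_of_all _ fun x => ?_)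
        simp only
        ring
    have hb : ∀ᵐ x ∂(volume.restrict (Ioi (0 : ℝ))), ‖f x * a x - (Real.exp (-x) * p.eval (Real.exp (-x))) * a x‖ ≤
        e * (Real.exp (-1 * x) * a x) := by
      refine (ae_restrict_iff' measurableSet_Ioi).2 (Filter.Eventually.of_forall fun x hx => ?_)
      have hx0 : (0 : ℝ) < x := hx
      have hax := ha0 x hx
      rw [← hge x, Real.norm_eq_abs, ← sub_mul, ← mul_sub, abs_mul, abs_mul, abs_of_pos (Real.exp_pos _),
        abs_of_nonneg hax, abs_sub_comm]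
      have h1 := (hp (Real.exp (-x)) ⟨(Real.exp_pos _).le, Real.exp_le_one_iff.2 (by linarith)⟩).le
      calc Real.exp (-x) * |p.eval (Real.exp (-x)) - g (Real.exp (-x))| * a x ≤ Real.exp (-x) * e * a x := by gcongr
        _ = _ := by rw [show (-1 : ℝ) * x = -x by ring]; ring
    have hdi : IntegrableOn (fun x => f x * a x - (Real.exp (-x) * p.eval (Real.exp (-x))) * a x) (Ioi 0) := by
      refine Integrable.mono' (hk0.const_mul e) ?_ hb
      exact ((hf.measurable.mul ham).sub (((by fun_prop : Measurable fun x : ℝ => Real.exp (-x)).mul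
        (p.continuous.measurable.comp (by fun_prop))).mul ham)).aestronglyMeasurable
    have hfi : IntegrableOn (fun x => f x * a x) (Ioi 0) := by
      refine (hdi.add hpi).congr (Eventually.of_forall fun x => ?_)
      simp
    rw [hsum, ← integral_sub hfi hpi, ← integral_const_mul, ← Real.norm_eq_abs]
    exact norm_integral_le_of_norm_le (hk0.const_mul e) hb

/-- the tent on the half-line -/
noncomputable def tn (R x : ℝ) : ℝ := max 0 (R - x)

/-- the variance of the primes weighted by the tent -/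
noncomputable def VR (R T : ℝ) : ℝ := ∫ α in Ioi 0, tn R α * vs T α

/-- the form factor weighted by the tent -/
noncomputable def FR (R T : ℝ) : ℝ := ∫ α in Ioi 0, tn R α * Fr T α

lemma tn_cont (R : ℝ) : Continuous (tn R) := by unfold tn; fun_prop

lemma VR_nonneg {R T : ℝ} (hT : 2 ≤ T) : 0 ≤ VR R T :=
  setIntegral_nonneg measurableSet_Ioi fun α _ => mul_nonneg (le_max_left _ _) (vs_nonneg hT α)

lemma FR_eq (hRH : RiemannHypothesis) {R T : ℝ} (hR : 0 < R) (hT : 10 ≤ T) :
    FR R T = R ^ 2 / 2 * ((SG.NZ T : ℝ) / nT T) + R ^ 2 * (PT R T / nT T) := by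
  have h1 := S_eq hRH hR hT
  have hi : Integrable fun α => tr R α * Fr T α := by
    refine ((tr_cont R).mul (Fr_cont T)).integrable_of_hasCompactSupport ?_
    refine HasCompactSupport.of_support_subset_isCompact (isCompact_Icc (a := -R) (b := R)) ?_
    intro x hx
    by_contra hcon
    apply hx
    rw [Pi.mul_apply, Pool.Agent.Y749.Rig.tr_supp hR x, zero_mul]
    rw [mem_Icc, not_and_or, not_le, not_le] at hcon
    rcases hcon with h | h
    · rw [abs_of_neg (by linarith)]; linarith
    · exact h.le.trans (le_abs_self _)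
  rw [int_even (fun x => by rw [Pool.Agent.Y749.Rig.tr_even, Fr_even]) hi] at h1
  have h2 : FR R T = R ^ 2 * ∫ α in Ioi 0, tr R α * Fr T α := by
    unfold FR
    rw [← integral_const_mul]
    refine setIntegral_congr_fun measurableSet_Ioi fun α hα => ?_
    have h0 : (0 : ℝ) < α := hα
    rw [← mul_assoc, Pool.Agent.Y749.Rig.tent_eq hR, abs_of_pos h0, tn]
  rw [h2, show ∫ α in Ioi 0, tr R α * Fr T α = ((SG.NZ T : ℝ) + 2 * PT R T) / nT T / 2 by linarith]
  ring

/-- **approximation of the weighted quantities** -/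
theorem approx_all (hRH : RiemannHypothesis) {R : ℝ} (hR : 0 < R) : ∃ C : ℝ, 0 < C ∧ ∀ e : ℝ, 0 < e →
    ∃ p : Polynomial ℝ, |R - p.eval 1| ≤ e ∧ ∀ᶠ T in atTop, |VR R T - LVp p T| ≤ e * C ∧
      |FR R T - LFp p T| ≤ e * C := by
  obtain ⟨C1, T1, hC1, hT1, hb1⟩ := LV_bdd hRH one_pos
  obtain ⟨C2, T2, hC2, hT2, hb2⟩ := LF_bdd hRH one_pos
  refine ⟨C1 + C2, by positivity, fun e he => ?_⟩
  obtain ⟨p, hp1, hp2⟩ := approx (tn_cont R) (M := R) (fun x hx => by
    unfold tn
    exact max_eq_left (by linarith)) he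
  refine ⟨p, ?_, ?_⟩
  · have : tn R 0 = R := by
      unfold tn
      rw [sub_zero, max_eq_right hR.le]
    rwa [this] at hp1
  · have i2 : ∀ᶠ T in atTop, ∀ k ∈ Finset.range (p.natDegree + 1),
        IntegrableOn (fun x => Real.exp (-((k : ℝ) + 1) * x) * Fr T x) (Ioi 0) := by
      rw [Filter.eventually_all_finset]
      intro k _
      -- integrability: the form factor is bounded
      filter_upwards [eventually_ge_atTop 10] with T hT
      have hfin := Pool.Agent.Y749.Rig.Mp_fin T
      have hi : Integrable (fun α : ℝ => Real.exp (-((k : ℝ) + 1) * α)) (volume.restrict (Ioi 0)) :=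
        integrableOn_exp_mul_Ioi (by have := kpos k; linarith) 0
      refine Integrable.mul_bdd (c := (Pool.Agent.Y749.Rig.Mp T).real univ) hi (Fr_cont T).aestronglyMeasurable
        (Eventually.of_forall fun α => ?_)
      unfold Fr
      have h1 := norm_integral_le_of_norm_le_const (μ := Pool.Agent.Y749.Rig.Mp T) (C := 1)
        (f := fun x => Real.cos (2 * π * α * x) * Pool.Agent.Y749.Rig.ww (2 * π * x / Real.log T))
        (Eventually.of_forall fun x => by
          rw [norm_mul, Real.norm_eq_abs, Real.norm_eq_abs, abs_of_pos (Pool.Agent.Y749.Rig.ww_pos _)]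
          have h1 := Real.abs_cos_le_one (2 * Real.pi * α * x)
          have h2 := Pool.Agent.Y749.Rig.ww_le (2 * Real.pi * x / Real.log T)
          have h3 := Pool.Agent.Y749.Rig.ww_pos (2 * Real.pi * x / Real.log T)
          nlinarith [abs_nonneg (Real.cos (2 * Real.pi * α * x))])
      rw [one_mul] at h1
      exact h1
    filter_upwards [i2, eventually_ge_atTop (max T1 (max T2 16)),
      Real.tendsto_log_atTop.eventually_ge_atTop ((p.natDegree : ℝ) + 1)] with T k1 k2 k3
    have t1 : T1 ≤ T := (le_max_left _ _).trans k2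
    have t2 : T2 ≤ T := ((le_max_left _ _).trans (le_max_right _ _)).trans k2
    have t3 : 16 ≤ T := ((le_max_right _ _).trans (le_max_right _ _)).trans k2
    constructor
    · have h1 := hp2 (vs T) (vs_meas (by linarith)) (fun x _ => vs_nonneg (by linarith) x) (fun k hk => by
        have hk2 : (k : ℝ) ≤ p.natDegree := by exact_mod_cast Nat.lt_succ_iff.1 (Finset.mem_range.1 hk)
        exact (vs_lap hRH t3 (kpos k) (by linarith)).1)
      obtain ⟨b1, b2⟩ := hb1 T t1
      refine h1.trans ?_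
      have : e * LV T 1 ≤ e * (C1 + C2) := by gcongr; linarith
      exact this
    · have h1 := hp2 (Fr T) (Fr_cont T).measurable (fun x _ => Fr_nonneg (by linarith) x) k1
      have h2 := hb2 T t2
      have e1 : ∀ c : ℝ, ∫ x in Ioi 0, Real.exp (-c * x) * Fr T x = LF T c := fun c => by
        unfold LF
        exact integral_congr_ae (ae_of_all _ fun x => mul_comm _ _)
      rw [e1 1] at h1
      simp only [e1] at h1
      refine h1.trans ?_
      have : LF T 1 ≤ C1 + C2 := by linarith [le_abs_self (LF T 1)]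
      gcongr

end Pool.Agent.U507.AH
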