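import Pool.Agent.U507.AH.E6
import Pool.Agent.U507.PC.CE

/-!
# The lower bound for the variance
-/

set_option autoImplicit false

open Complex Filter Topology Set MeasureTheory Metric
open scoped Real

namespace Pool.Agent.U507.AH

open Pool.Agent.U507.GM hiding step_low low_pt low_unif rigid
open Pool.Agent.U507.PC
open Pool.Agent.Y749.Rig (ZZ mm mm_nonneg mem_ZZ Fr Fr_cont Fr_nonneg Fr_even nT nT_pos tr tr_int tr_cont)
open Pool.Agent.Y763.AH (PT PT_nonneg S_eq NZ_lim)

lemma four_all {t : ℝ} (ht : 0 < t) : t * (1 + |Real.log t|) ^ 4 ≤ 4096 * (√t + t * √t) := by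
  have hq := Real.sqrt_nonneg t
  rcases le_total t 1 with h | h
  · have := four_le ht h
    nlinarith [mul_nonneg ht.le hq]
  · have h1 := four_le (s := 1 / t) (by positivity) (by rw [div_le_one ht]; exact h)
    rw [show Real.log (1 / t) = -Real.log t by rw [one_div, Real.log_inv], abs_neg] at h1
    have h2 : √(1 / t) = √t / t := by
      rw [one_div, Real.sqrt_inv, inv_eq_one_div, div_eq_div_iff (Real.sqrt_pos.2 ht).ne' ht.ne', one_mul,
        Real.mul_self_sqrt ht.le]
    rw [h2] at h1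
    have h3 : (1 + |Real.log t|) ^ 4 ≤ 4096 * √t := by
      have e1 : (1 + |Real.log t|) ^ 4 = t * (1 / t * (1 + |Real.log t|) ^ 4) := by field_simp
      rw [e1]
      calc t * (1 / t * (1 + |Real.log t|) ^ 4) ≤ t * (4096 * (√t / t)) := by gcongr
        _ = _ := by field_simp
    calc t * (1 + |Real.log t|) ^ 4 ≤ t * (4096 * √t) := by gcongr
      _ ≤ _ := by nlinarith

lemma dom_int : IntegrableOn (fun t => w1 t * (t * (1 + |Real.log t|) ^ 4)) (Ioi 0) := by
  have h1 : Integrable (fun x : ℝ => ((1 : ℝ) + ‖x‖ ^ 2) ^ (-(3 / 2 : ℝ) / 2)) :=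
    integrable_rpow_neg_one_add_norm_sq (by rw [Module.finrank_self]; norm_num)
  refine Integrable.mono' ((h1.const_mul (4096 * 4)).integrableOn (s := Ioi 0)) ?_ ?_
  · have : Measurable fun t : ℝ => w1 t * (t * (1 + |Real.log t|) ^ 4) := by
      unfold w1
      fun_prop
    exact this.aestronglyMeasurable
  · refine (ae_restrict_iff' measurableSet_Ioi).2 (Filter.Eventually.of_forall fun t ht => ?_)
    have ht0 : (0 : ℝ) < t := ht
    have hw := w1_nonneg ht0.le
    rw [Real.norm_eq_abs, abs_of_nonneg (by positivity), Real.norm_eq_abs, sq_abs]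
    obtain ⟨y, hy⟩ : ∃ y : ℝ, y = 1 + t ^ 2 := ⟨_, rfl⟩
    have hy1 : 1 ≤ y := by rw [hy]; nlinarith
    have hy0 : 0 < y := by linarith
    obtain ⟨z, hz⟩ : ∃ z : ℝ, z = y ^ (1 / 4 : ℝ) := ⟨_, rfl⟩
    have hz0 : 0 < z := by rw [hz]; positivity
    have hz4 : z ^ 4 = y := by
      rw [hz, ← Real.rpow_natCast, ← Real.rpow_mul hy0.le]
      norm_num
    have hz3 : y ^ (-(3 / 2 : ℝ) / 2) = (z ^ 3)⁻¹ := by
      rw [hz, ← Real.rpow_natCast, ← Real.rpow_mul hy0.le, ← Real.rpow_neg hy0.le]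
      norm_num
    have hz1 : 1 ≤ z := by rw [hz]; exact Real.one_le_rpow hy1 (by norm_num)
    have ht2 : t ≤ z ^ 2 := by
      apply le_of_sq_le_sq _ (by positivity)
      calc t ^ 2 ≤ y := by rw [hy]; linarith
        _ = (z ^ 2) ^ 2 := by rw [← hz4]; ring
    have hst : √t ≤ z := by
      rw [Real.sqrt_le_left hz0.le]
      exact ht2
    have h1t : 1 + t ≤ 2 * z ^ 2 := by nlinarith
    rw [← hy, hz3]
    have hq := Real.sqrt_nonneg t
    have hw1 : w1 t = 2 * t / z ^ 8 := by
      unfold w1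
      rw [← hy, ← hz4]
      ring
    calc w1 t * (t * (1 + |Real.log t|) ^ 4) ≤ w1 t * (4096 * (√t + t * √t)) :=
          mul_le_mul_of_nonneg_left (four_all ht0) hw
      _ = 4096 * (2 * t * √t * (1 + t) / z ^ 8) := by rw [hw1]; ring
      _ ≤ 4096 * (2 * z ^ 2 * z * (2 * z ^ 2) / z ^ 8) := by gcongr
      _ = _ := by field_simp; norm_num

lemma w1t_int : IntegrableOn (fun t => w1 t * t) (Ioi 0) ∧ ∫ t in Ioi 0, w1 t * t = π / 2 := by
  have hd : ∀ t ∈ Ici (0 : ℝ), HasDerivAt (fun t : ℝ => Real.arctan t - t / (1 + t ^ 2)) (w1 t * t) t := by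
    intro t _
    have h1 : HasDerivAt (fun t : ℝ => 1 + t ^ 2) (2 * t) t := by
      simpa using (hasDerivAt_pow 2 t).const_add 1
    have hp : (1 : ℝ) + t ^ 2 ≠ 0 := by positivity
    have h2 := (Real.hasDerivAt_arctan t).sub ((hasDerivAt_id t).div h1 hp)
    refine h2.congr_deriv ?_
    simp only [id]
    unfold w1
    field_simp
    ring
  have ht : Tendsto (fun t : ℝ => Real.arctan t - t / (1 + t ^ 2)) atTop (𝓝 (π / 2 - 0)) := by
    refine (Real.tendsto_arctan_atTop.mono_right nhdsWithin_le_nhds).sub ?_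
    have h1 : Tendsto (fun t : ℝ => 1 / t) atTop (𝓝 0) := by
      simpa using tendsto_inv_atTop_zero (𝕜 := ℝ)
    refine squeeze_zero' ?_ ?_ h1
    · filter_upwards [eventually_ge_atTop 0] with t ht
      positivity
    · filter_upwards [eventually_gt_atTop 0] with t ht
      rw [div_le_div_iff₀ (by positivity) ht]
      nlinarith
  have hpos : ∀ t ∈ Ioi (0 : ℝ), 0 ≤ w1 t * t := by
    intro t ht
    have h0 : (0 : ℝ) < t := ht
    exact mul_nonneg (w1_nonneg h0.le) h0.le
  have hi := integrableOn_Ioi_deriv_of_nonneg' hd hpos ht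
  refine ⟨hi, ?_⟩
  rw [integral_Ioi_of_hasDerivAt_of_tendsto' hd hi ht]
  simp

/-- **the lower bound for the variance** -/
theorem K (hRH : RiemannHypothesis) {R A ε η : ℝ} (hR : 0 < R) (hε : 0 ≤ ε) (hA : ∀ᶠ T in atTop, VR R T ≤ A)
    {u : ℕ → ℝ} (hu : Tendsto u atTop atTop)
    (hx : ∀ n, ∀ κ ∈ Icc 1 (1 + η), ε ≤ PT R (κ * u n) / nT (κ * u n)) :
    (R ^ 2 - R) / 2 + 4 / π * (R ^ 2 * ε / 2) * ∫ t in Icc 1 (1 + η), w1 t * t ≤ A := by
  obtain ⟨C, hC, happ⟩ := approx_all hRH hR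
  have hπ := Real.pi_pos
  have hπ3 := Real.pi_gt_three
  obtain ⟨w2, w3⟩ := w1t_int
  have hA0 : 0 ≤ A := by
    obtain ⟨T, h1, h2⟩ := (hA.and (eventually_ge_atTop (2 : ℝ))).exists
    exact (VR_nonneg h2).trans h1
  obtain ⟨X, hX⟩ : ∃ X : ℝ, X = (R ^ 2 - R) / 2 + 4 / π * (R ^ 2 * ε / 2) * ∫ t in Icc 1 (1 + η), w1 t * t := ⟨_, rfl⟩
  rw [← hX]
  suffices hs : X - A ≤ 0 by linarith
  refine lin_small (b := 3 * C + 4) (by positivity) fun e he he1 => ?_
  obtain ⟨p, hp1, hp2⟩ := happ e he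
  obtain ⟨q1, q2, q3⟩ := EEp hRH p
  obtain ⟨C', T', hC', hT', hdom⟩ := GGp_dom hRH p
  have heC : 0 < e * C := by positivity
  -- the primes
  have hP : ∀ᶠ T in atTop, ∫ s in Ioc 0 √T, Real.exp (-s) * (s * LVp p (Ut T s)) ≤ A + e * C := by
    obtain ⟨U0, hU0⟩ := eventually_atTop.1 (hA.and hp2)
    filter_upwards [q2, Real.tendsto_sqrt_atTop.eventually_ge_atTop (2 * U0), eventually_ge_atTop 16] with T k1 k2 k3
    have hsi : IntegrableOn (fun s : ℝ => s * Real.exp (-s)) (Ioi 0) :=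
      (exp_pow_int 1).congr_fun (fun s _ => by simp) measurableSet_Ioi
    calc ∫ s in Ioc 0 √T, Real.exp (-s) * (s * LVp p (Ut T s)) ≤ ∫ s in Ioc 0 √T, (A + e * C) * (s * Real.exp (-s)) := by
          refine setIntegral_mono_on k1 ((hsi.mono_set Ioc_subset_Ioi_self).const_mul _) measurableSet_Ioc fun s hs => ?_
          have hU := Ut_facts k3 hs.1 hs.2
          obtain ⟨a1, a2, -⟩ := hU0 (Ut T s) (by linarith)
          have a3 := (abs_le.1 a2).1
          have a4 : LVp p (Ut T s) ≤ A + e * C := by linarith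
          have hs0 : 0 < s := hs.1
          calc Real.exp (-s) * (s * LVp p (Ut T s)) ≤ Real.exp (-s) * (s * (A + e * C)) := by gcongr
            _ = _ := by ring
      _ = (A + e * C) * ∫ s in Ioc 0 √T, s * Real.exp (-s) := integral_const_mul _ _
      _ ≤ (A + e * C) * ∫ s in Ioi 0, s * Real.exp (-s) := by
          refine mul_le_mul_of_nonneg_left ?_ (by positivity)
          refine setIntegral_mono_set hsi ?_ Ioc_subset_Ioi_self.eventuallyLE
          refine (ae_restrict_iff' measurableSet_Ioi).2 (Filter.Eventually.of_forall fun s hs => ?_)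
          have hs0 : (0 : ℝ) < s := hs
          simp only [Pi.zero_apply]
          positivity
      _ = A + e * C := by rw [exp_mom, mul_one]
  -- the zeros
  obtain ⟨h, hh⟩ : ∃ h : ℝ → ℝ, h = fun t => t / 2 * (R ^ 2 / 2 - 2 * (e * C)) +
      (Icc 1 (1 + η)).indicator (fun t => R ^ 2 * ε / 2 * t) t := ⟨_, rfl⟩
  have hlow : ∀ t : ℝ, 0 < t → ∀ᶠ n in atTop, h t ≤ GGp p (u n) t := by
    intro t ht
    have htT : Tendsto (fun T : ℝ => t * T) atTop atTop := tendsto_id.const_mul_atTop ht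
    have h1 := (GGp_LF hRH p ht).comp hu
    have h2 := (NZ_lim.comp htT).comp hu
    filter_upwards [h1.eventually (lt_mem_nhds (show -(t / 2 * (e * C / 2)) < 0 by
        have : 0 < t / 2 * (e * C / 2) := by positivity
        linarith)),
      h2.eventually (lt_mem_nhds (show 1 - e * C / R ^ 2 < 1 by
        have : 0 < e * C / R ^ 2 := by positivity
        linarith)),
      hu.eventually (htT.eventually hp2), (htT.comp hu).eventually_ge_atTop 10] with n k1 k2 k3 k4
    simp only [Function.comp] at k1 k2 k4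
    have k5 := (abs_le.1 k3.2).2
    rw [FR_eq hRH hR k4] at k5
    have k6 : R ^ 2 / 2 - e * C / 2 ≤ R ^ 2 / 2 * ((SG.NZ (t * u n) : ℝ) / nT (t * u n)) := by
      have e1 : R ^ 2 / 2 - e * C / 2 = R ^ 2 / 2 * (1 - e * C / R ^ 2) := by field_simp
      rw [e1]
      exact mul_le_mul_of_nonneg_left k2.le (by positivity)
    have hnT : 0 < nT (t * u n) := nT_pos (by linarith)
    have hPT : 0 ≤ PT R (t * u n) / nT (t * u n) := div_nonneg (PT_nonneg hR _) hnT.le
    rw [hh]
    simp only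
    by_cases hin : t ∈ Icc 1 (1 + η)
    · rw [indicator_of_mem hin]
      have k7 := hx n t hin
      have k8 : R ^ 2 * ε ≤ R ^ 2 * (PT R (t * u n) / nT (t * u n)) := by gcongr
      have k9 : R ^ 2 / 2 - e * C / 2 + R ^ 2 * ε - e * C ≤ LFp p (t * u n) := by linarith
      have k10 := mul_le_mul_of_nonneg_left k9 (show 0 ≤ t / 2 by positivity)
      nlinarith
    · rw [indicator_of_notMem hin]
      have k8 : 0 ≤ R ^ 2 * (PT R (t * u n) / nT (t * u n)) := by positivity
      have k9 : R ^ 2 / 2 - e * C / 2 - e * C ≤ LFp p (t * u n) := by linarith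
      have k10 := mul_le_mul_of_nonneg_left k9 (show 0 ≤ t / 2 by positivity)
      nlinarith
  have w4 : IntegrableOn (fun t => w1 t * t) (Icc 1 (1 + η)) := w2.mono_set fun t ht => by
    have : (1 : ℝ) ≤ t := ht.1
    exact lt_of_lt_of_le one_pos this
  have hsub : Ioi (0 : ℝ) ∩ Icc 1 (1 + η) = Icc 1 (1 + η) := inter_eq_right.2 fun t ht => by
    have : (1 : ℝ) ≤ t := ht.1
    exact lt_of_lt_of_le one_pos this
  have hwh : IntegrableOn (fun t => w1 t * h t) (Ioi 0) ∧ ∫ t in Ioi 0, w1 t * h t =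
      (R ^ 2 / 2 - 2 * (e * C)) / 2 * (π / 2) + R ^ 2 * ε / 2 * ∫ t in Icc 1 (1 + η), w1 t * t := by
    have e1 : ∀ t : ℝ, w1 t * h t = (R ^ 2 / 2 - 2 * (e * C)) / 2 * (w1 t * t) +
        R ^ 2 * ε / 2 * ((Icc 1 (1 + η)).indicator (fun t => w1 t * t) t) := by
      intro t
      rw [hh]
      simp only
      by_cases hin : t ∈ Icc 1 (1 + η)
      · rw [indicator_of_mem hin, indicator_of_mem hin]; ring
      · rw [indicator_of_notMem hin, indicator_of_notMem hin]; ring
    have i2 : IntegrableOn ((Icc 1 (1 + η)).indicator (fun t => w1 t * t)) (Ioi 0) :=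
      ((integrable_indicator_iff measurableSet_Icc).2 w4).integrableOn
    simp_rw [e1]
    refine ⟨(w2.const_mul _).add (i2.const_mul _), ?_⟩
    rw [integral_add (w2.const_mul _) (i2.const_mul _), integral_const_mul, integral_const_mul, w3,
      setIntegral_indicator measurableSet_Icc, hsub]
  have hmain : Tendsto (fun n => ∫ t in Ioi (0 : ℝ), max 0 (w1 t * h t - w1 t * GGp p (u n) t)) atTop
      (𝓝 (∫ t in Ioi (0 : ℝ), (0 : ℝ))) := by
    refine tendsto_integral_filter_of_dominated_convergence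
      (fun t => |w1 t * h t| + C' * (w1 t * (t * (1 + |Real.log t|) ^ 4))) ?_ ?_ ?_ ?_
    · filter_upwards [hu.eventually q1] with n h1
      exact (continuous_const.max continuous_id).comp_aestronglyMeasurable
        (hwh.1.sub h1).aestronglyMeasurable
    · filter_upwards [hu.eventually_ge_atTop T'] with n hn
      refine (ae_restrict_iff' measurableSet_Ioi).2 (Filter.Eventually.of_forall fun t ht => ?_)
      have ht0 : (0 : ℝ) < t := ht
      have hw := w1_nonneg ht0.le
      have h1 := hdom (u n) t hn ht0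
      rw [Real.norm_eq_abs, abs_of_nonneg (le_max_left _ _)]
      have h2 : |w1 t * GGp p (u n) t| ≤ C' * (w1 t * (t * (1 + |Real.log t|) ^ 4)) := by
        rw [abs_mul, abs_of_nonneg hw]
        calc w1 t * |GGp p (u n) t| ≤ w1 t * (C' * (t * (1 + |Real.log t|) ^ 4)) := by gcongr
          _ = _ := by ring
      have h3 := neg_abs_le (w1 t * GGp p (u n) t)
      have h4 := le_abs_self (w1 t * h t)
      have h5 := abs_nonneg (w1 t * h t)
      have h6 := abs_nonneg (w1 t * GGp p (u n) t)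
      exact max_le (by linarith) (by linarith)
    · exact hwh.1.abs.add (dom_int.const_mul C')
    · refine (ae_restrict_iff' measurableSet_Ioi).2 (Filter.Eventually.of_forall fun t ht => ?_)
      have ht0 : (0 : ℝ) < t := ht
      have hw := w1_nonneg ht0.le
      refine tendsto_const_nhds.congr' ?_
      filter_upwards [hlow t ht0] with n hn
      rw [max_eq_left]
      have := mul_le_mul_of_nonneg_left hn hw
      linarith
  rw [integral_zero] at hmain
  -- conclusion
  obtain ⟨n, k1, k2, k3, k4⟩ := ((hmain.eventually (gt_mem_nhds he)).and ((hu.eventually hP).and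
    (((q3.comp hu).eventually (lt_mem_nhds (show -e < 0 by linarith))).and (hu.eventually q1)))).exists
  simp only [Function.comp] at k3
  have h1 : (∫ t in Ioi 0, w1 t * h t) - ∫ t in Ioi 0, w1 t * GGp p (u n) t ≤
      ∫ t in Ioi (0 : ℝ), max 0 (w1 t * h t - w1 t * GGp p (u n) t) := by
    rw [← integral_sub hwh.1 k4]
    refine integral_mono (hwh.1.sub k4) ?_ fun t => le_max_right _ _
    refine Integrable.mono' (hwh.1.sub k4).abs ((continuous_const.max continuous_id).comp_aestronglyMeasurable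
        (hwh.1.sub k4).aestronglyMeasurable) (ae_of_all _ fun t => ?_)
    rw [Real.norm_eq_abs, abs_of_nonneg (le_max_left _ _)]
    exact max_le (abs_nonneg _) (le_abs_self _)
  rw [hwh.2] at h1
  obtain ⟨I, hI⟩ : ∃ I : ℝ, I = ∫ t in Icc 1 (1 + η), w1 t * t := ⟨_, rfl⟩
  obtain ⟨G, hG⟩ : ∃ G : ℝ, G = ∫ t in Ioi 0, w1 t * GGp p (u n) t := ⟨_, rfl⟩
  rw [← hI, ← hG] at h1
  rw [← hG] at k3
  have h2 : (R ^ 2 / 2 - 2 * (e * C)) / 2 * (π / 2) + R ^ 2 * ε / 2 * I - e ≤ G := by linarith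
  have h3 : 4 / π * ((R ^ 2 / 2 - 2 * (e * C)) / 2 * (π / 2) + R ^ 2 * ε / 2 * I - e) ≤ 4 / π * G := by gcongr
  have h4 : 4 / π * ((R ^ 2 / 2 - 2 * (e * C)) / 2 * (π / 2) + R ^ 2 * ε / 2 * I - e) =
      R ^ 2 / 2 - 2 * (e * C) + 4 / π * (R ^ 2 * ε / 2) * I - 4 / π * e := by
    field_simp
    ring
  have h5 : 4 / π * e ≤ 2 * e := by
    have : 4 / π ≤ 2 := by rw [div_le_iff₀ hπ]; linarith
    gcongr
  have h6 := (abs_le.1 hp1).1
  rw [hX, ← hI]
  rw [h4] at h3
  nlinarith

end Pool.Agent.U507.AH
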