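import Pool.Agent.U507.AH.E7

/-!
# Conclusions from the primes to the zeros
-/

set_option autoImplicit false

open Complex Filter Topology Set MeasureTheory Metric
open scoped Real

namespace Pool.Agent.U507.AH

open Pool.Agent.U507.GM hiding step_low low_pt low_unif rigid
open Pool.Agent.U507.PC
open Pool.Agent.Y749.Rig (ZZ mm mm_nonneg mem_ZZ Fr Fr_cont Fr_nonneg Fr_even nT nT_pos tr tr_int tr_cont)
open Pool.Agent.Y763.AH (PT PT_nonneg S_eq NZ_lim BT D1)

lemma I_pos : 0 < ∫ t in Icc (1 : ℝ) (1 + 1), w1 t * t := by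
  have hi : IntegrableOn (fun t => w1 t * t) (Icc (1 : ℝ) (1 + 1)) := w1t_int.1.mono_set fun t ht => by
    have : (1 : ℝ) ≤ t := ht.1
    exact lt_of_lt_of_le one_pos this
  have h1 : ∫ t in Icc (1 : ℝ) (1 + 1), (2 / 25 : ℝ) ≤ ∫ t in Icc (1 : ℝ) (1 + 1), w1 t * t := by
    refine setIntegral_mono_on (integrableOn_const (by rw [Real.volume_Icc]; exact ENNReal.ofReal_ne_top)) hi
      measurableSet_Icc fun t ht => ?_
    have h2 : 1 ≤ t := ht.1
    have h3 : t ≤ 2 := by linarith [ht.2]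
    unfold w1
    rw [div_mul_eq_mul_div, div_le_div_iff₀ (by norm_num) (by positivity)]
    have h4 : 1 + t ^ 2 ≤ 5 := by nlinarith
    have h5 : (1 + t ^ 2) ^ 2 ≤ 25 := by nlinarith [sq_nonneg t]
    nlinarith
  rw [setIntegral_const, Real.volume_real_Icc, smul_eq_mul] at h1
  norm_num at h1 ⊢
  linarith

/-- the variance is at least `(R² - R) / 2` in the limit superior -/
theorem lower (hRH : RiemannHypothesis) {R A : ℝ} (hR : 0 < R) (hA : ∀ᶠ T in atTop, VR R T ≤ A) :
    (R ^ 2 - R) / 2 ≤ A := by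
  have h := K hRH (η := 0) (ε := 0) hR le_rfl hA (u := fun n : ℕ => (n : ℝ) + 10)
    (tendsto_atTop_add_const_right _ _ tendsto_natCast_atTop_atTop) (fun n κ hκ => by
      have h1 : 1 ≤ κ := hκ.1
      have h2 : (0 : ℝ) ≤ n := Nat.cast_nonneg n
      exact div_nonneg (PT_nonneg hR _) (nT_pos (by nlinarith)).le)
  simpa using h

/-- minimal variance gives spacings near the lattice -/
theorem b_to_a (hRH : RiemannHypothesis) {R : ℝ} (hR : 0 < R)
    (h : ∀ δ : ℝ, 0 < δ → ∀ᶠ T in atTop, VR R T ≤ (R ^ 2 - R) / 2 + δ) {ε : ℝ} (hε : 0 < ε) :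
    Tendsto (fun T => ((BT R ε T).card : ℝ) / SG.NZ T) atTop (𝓝 0) := by
  have hπ := Real.pi_pos
  -- some height with a small sum over the pairs
  have claim : ∀ x : ℝ, 0 < x → ∀ᶠ T in atTop, ∃ κ ∈ Icc (1 : ℝ) (1 + 1), PT R (κ * T) / nT (κ * T) < x := by
    intro x hx
    by_contra hcon
    rw [Filter.not_eventually] at hcon
    obtain ⟨u, hu, hu2⟩ := exists_seq_forall_of_frequently hcon
    have hI := I_pos
    obtain ⟨I, hId⟩ : ∃ I : ℝ, I = ∫ t in Icc (1 : ℝ) (1 + 1), w1 t * t := ⟨_, rfl⟩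
    have h1 : ∀ δ : ℝ, 0 < δ → (R ^ 2 - R) / 2 + 4 / π * (R ^ 2 * x / 2) * I ≤ (R ^ 2 - R) / 2 + δ := by
      intro δ hδ
      rw [hId]
      refine K hRH hR hx.le (h δ hδ) hu fun n κ hκ => ?_
      have h2 := hu2 n
      push Not at h2
      exact h2 κ hκ
    rw [← hId] at hI
    have h3 : 0 < 4 / π * (R ^ 2 * x / 2) * I := by positivity
    have h4 := h1 (4 / π * (R ^ 2 * x / 2) * I / 2) (by positivity)
    linarith
  rw [Metric.tendsto_nhds]
  intro ε1 hε1
  obtain ⟨η, hη⟩ : ∃ η : ℝ, η = ε1 / 32 := ⟨_, rfl⟩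
  have hη0 : 0 < η := by rw [hη]; positivity
  obtain ⟨c, hc, hD⟩ := D1 hR hε hη0
  obtain ⟨T0, hT0⟩ := eventually_atTop.1 hD
  filter_upwards [claim (c * η) (by positivity), eventually_ge_atTop (max T0 16),
    NZ_lim.eventually (lt_mem_nhds (show (1 / 2 : ℝ) < 1 by norm_num))] with T ⟨κ, hκ, k1⟩ k2 k3
  have t1 : T0 ≤ T := (le_max_left _ _).trans k2
  have t2 : 16 ≤ T := (le_max_right _ _).trans k2
  have hκ1 : 1 ≤ κ := hκ.1
  have hκ2 : κ ≤ 2 := by linarith [hκ.2]
  have hTκ : T ≤ κ * T := by nlinarith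
  have h1 := hT0 (κ * T) (t1.trans hTκ)
  have hn1 : 0 < nT (κ * T) := nT_pos (by linarith)
  have hn2 : 0 < nT T := nT_pos (by linarith)
  have h2 : ((BT R ε (κ * T)).card : ℝ) / nT (κ * T) ≤ 2 * η := by
    have h3 : c * (((BT R ε (κ * T)).card : ℝ) / nT (κ * T) - η) ≤ c * η := by linarith
    have := le_of_mul_le_mul_left h3 hc
    linarith
  rw [div_le_iff₀ hn1] at h2
  have h3 : ((BT R ε T).card : ℝ) ≤ (BT R ε (κ * T)).card := by
    have hsub : BT R ε T ⊆ BT R ε (κ * T) := by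
      classical
      unfold BT
      intro n hn
      rw [Finset.mem_filter, Finset.mem_Ioc] at hn ⊢
      exact ⟨⟨hn.1.1, hn.1.2.trans (SG.NZ_mono hTκ)⟩, hn.2⟩
    exact_mod_cast Finset.card_le_card hsub
  have h4 : nT (κ * T) ≤ 4 * nT T := by
    have hlog : 0 < Real.log T := Real.log_pos (by linarith)
    have h5 : Real.log (κ * T) ≤ 2 * Real.log T := by
      have h6 : Real.log (κ * T) ≤ Real.log (T * T) := Real.log_le_log (by positivity) (by nlinarith)
      have e : Real.log (T * T) = 2 * Real.log T := by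
        rw [Real.log_mul (by positivity) (by positivity)]
        ring
      linarith
    unfold nT
    rw [← mul_div_assoc]
    apply div_le_div_of_nonneg_right _ (by positivity)
    have h7 : 0 ≤ Real.log (κ * T) := Real.log_nonneg (by linarith)
    calc κ * T * Real.log (κ * T) ≤ 2 * T * (2 * Real.log T) := by gcongr
      _ = _ := by ring
  have hNZ : nT T / 2 < SG.NZ T := by
    rw [lt_div_iff₀ hn2] at k3
    linarith
  have hNZ0 : (0 : ℝ) < SG.NZ T := by linarith
  rw [Real.dist_eq, sub_zero, abs_of_nonneg (by positivity), div_lt_iff₀ hNZ0]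
  have h8 : 2 * η * nT (κ * T) ≤ 2 * η * (4 * nT T) := by gcongr
  have h9 : ε1 * (nT T / 2) < ε1 * SG.NZ T := by gcongr
  have h10 : 2 * η * (4 * nT T) = ε1 / 4 * nT T := by rw [hη]; ring
  have h11 : 0 < ε1 * nT T := by positivity
  nlinarith

end Pool.Agent.U507.AH
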