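import Pool.Agent.U507.AH.E8
import Pool.Agent.U507.PC.KL

/-!
# The converse: the averages of the variance
-/

set_option autoImplicit false

open Complex Filter Topology Set MeasureTheory Metric
open scoped Real

namespace Pool.Agent.U507.AH

open Pool.Agent.U507.GM hiding step_low low_pt low_unif rigid
open Pool.Agent.U507.PC
open Pool.Agent.Y749.Rig (ZZ mm mm_nonneg mem_ZZ Fr Fr_cont Fr_nonneg Fr_even nT nT_pos tr tr_int tr_cont)
open Pool.Agent.Y763.AH (PT PT_nonneg S_eq NZ_lim BT D1)

lemma VR_meas (R : ℝ) : Measurable fun U => VR R U := by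
  have h1 : Measurable fun p : ℝ × ℝ => p.1 ^ p.2 := measurable_fst.pow measurable_snd
  have h2 : Measurable (Function.uncurry fun U α : ℝ => tn R α * vs U α) := by
    unfold Function.uncurry vs
    refine ((tn_cont R).measurable.comp measurable_snd).mul ?_
    refine (measurable_fst.div (h1.mul (Real.measurable_log.comp measurable_fst))).mul (Measurable.pow_const ?_ 2)
    unfold Dd
    exact ((psi_measurable.comp (h1.add (h1.div measurable_fst))).sub (psi_measurable.comp h1)).sub
      (h1.div measurable_fst)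
  exact (h2.stronglyMeasurable.integral_prod_right (ν := volume.restrict (Ioi 0))).measurable

lemma VR_bdd (hRH : RiemannHypothesis) {R : ℝ} (hR : 0 < R) : ∃ C T0 : ℝ, 0 < C ∧ 16 ≤ T0 ∧ ∀ T : ℝ, T0 ≤ T →
    0 ≤ VR R T ∧ VR R T ≤ C := by
  obtain ⟨C, T0, hC, hT0, h⟩ := LV_bdd hRH one_pos
  refine ⟨R * Real.exp R * C, max T0 16, by positivity, le_max_right _ _, fun T hT => ?_⟩
  have h1 : T0 ≤ T := (le_max_left _ _).trans hT
  have h2 : 16 ≤ T := (le_max_right _ _).trans hT
  have hlog : 1 ≤ Real.log T := by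
    rw [Real.le_log_iff_exp_le (by linarith)]
    have := Real.exp_one_lt_d9
    linarith
  have hi := (vs_lap hRH h2 one_pos hlog).1
  refine ⟨VR_nonneg (by linarith), ?_⟩
  have h3 : VR R T ≤ R * Real.exp R * LV T 1 := by
    unfold VR LV
    rw [← integral_const_mul]
    refine integral_mono_of_nonneg ?_ (hi.const_mul _) ?_
    · refine (ae_restrict_iff' measurableSet_Ioi).2 (Filter.Eventually.of_forall fun α hα => ?_)
      exact mul_nonneg (le_max_left _ _) (vs_nonneg (by linarith) α)
    · refine (ae_restrict_iff' measurableSet_Ioi).2 (Filter.Eventually.of_forall fun α hα => ?_)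
      have h0 : (0 : ℝ) < α := hα
      have hv := vs_nonneg (show 2 ≤ T by linarith) α
      have h4 : tn R α ≤ R * Real.exp R * Real.exp (-1 * α) := by
        unfold tn
        have e1 : R * Real.exp R * Real.exp (-1 * α) = R * Real.exp (R - α) := by
          rw [mul_assoc, ← Real.exp_add]
          congr 2
          ring
        rw [e1]
        refine max_le (by positivity) ?_
        have h5 := Real.add_one_le_exp (R - α)
        rcases le_total α R with h6 | h6
        · have h7 : 1 ≤ Real.exp (R - α) := Real.one_le_exp (by linarith)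
          nlinarith
        · have : 0 < R * Real.exp (R - α) := by positivity
          linarith
      calc tn R α * vs T α ≤ R * Real.exp R * Real.exp (-1 * α) * vs T α := by gcongr
        _ = _ := by ring
  refine h3.trans ?_
  have := (h T h1).2
  gcongr

/-- the averages converge -/
theorem avg1 (hRH : RiemannHypothesis) {R : ℝ} (hR : 0 < R)
    (hx : Tendsto (fun T => PT R T / nT T) atTop (𝓝 0)) :
    Tendsto (fun T => ∫ s in Ioc 0 √T, Real.exp (-s) * (s * VR R (Ut T s))) atTop (𝓝 ((R ^ 2 - R) / 2)) := by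
  obtain ⟨C, hC, happ⟩ := approx_all hRH hR
  obtain ⟨CV, TV, hCV, hTV, hVb⟩ := VR_bdd hRH hR
  have hπ := Real.pi_pos
  have hπ3 := Real.pi_gt_three
  have hπ4 := Real.pi_le_four
  obtain ⟨w2, w3⟩ := w1t_int
  have hFR : Tendsto (fun T => FR R T) atTop (𝓝 (R ^ 2 / 2)) := by
    have h1 := (NZ_lim.const_mul (R ^ 2 / 2)).add (hx.const_mul (R ^ 2))
    rw [mul_one, mul_zero, add_zero] at h1
    refine h1.congr' ?_
    filter_upwards [eventually_ge_atTop 10] with T hT
    exact (FR_eq hRH hR hT).symm
  have hsi : IntegrableOn (fun s : ℝ => s * Real.exp (-s)) (Ioi 0) :=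
    (exp_pow_int 1).congr_fun (fun s _ => by simp) measurableSet_Ioi
  have key : ∀ e : ℝ, 0 < e → e ≤ 1 → ∀ᶠ T in atTop,
      |(∫ s in Ioc 0 √T, Real.exp (-s) * (s * VR R (Ut T s))) - (R ^ 2 - R) / 2| ≤ e * (4 * C + 6) := by
    intro e he he1
    obtain ⟨p, hp1, hp2⟩ := happ e he
    obtain ⟨q1, q2, q3⟩ := EEp hRH p
    obtain ⟨C', T', hC', hT', hdom⟩ := GGp_dom hRH p
    have heC : 0 < e * C := by positivity
    -- the primes
    have hP : ∀ᶠ T in atTop, |(∫ s in Ioc 0 √T, Real.exp (-s) * (s * VR R (Ut T s))) -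
        ∫ s in Ioc 0 √T, Real.exp (-s) * (s * LVp p (Ut T s))| ≤ e * C := by
      obtain ⟨U0, hU0⟩ := eventually_atTop.1 hp2
      filter_upwards [q2, Real.tendsto_sqrt_atTop.eventually_ge_atTop (2 * max U0 TV), eventually_ge_atTop 16] with T k1 k2 k3
      have hU : ∀ s ∈ Ioc 0 √T, max U0 TV ≤ Ut T s := fun s hs => by
        have := Ut_facts k3 hs.1 hs.2
        linarith
      have k4 : IntegrableOn (fun s => Real.exp (-s) * (s * VR R (Ut T s))) (Ioc 0 √T) := by
        refine Integrable.mono' ((hsi.mono_set Ioc_subset_Ioi_self).const_mul CV) ?_ ?_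
        · exact ((by fun_prop : Measurable fun s : ℝ => Real.exp (-s)).mul
            (measurable_id.mul ((VR_meas R).comp (Ut_meas T)))).aestronglyMeasurable
        · refine (ae_restrict_iff' measurableSet_Ioc).2 (Filter.Eventually.of_forall fun s hs => ?_)
          have hs0 : (0 : ℝ) < s := hs.1
          obtain ⟨b1, b2⟩ := hVb (Ut T s) ((le_max_right _ _).trans (hU s hs))
          rw [Real.norm_eq_abs, abs_of_nonneg (by positivity)]
          calc Real.exp (-s) * (s * VR R (Ut T s)) ≤ Real.exp (-s) * (s * CV) := by gcongr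
            _ = _ := by ring
      rw [← integral_sub k4 k1]
      refine abs_integral_le_integral_abs.trans ?_
      calc ∫ s in Ioc 0 √T, |Real.exp (-s) * (s * VR R (Ut T s)) - Real.exp (-s) * (s * LVp p (Ut T s))| ≤
            ∫ s in Ioc 0 √T, (e * C) * (s * Real.exp (-s)) := by
            refine setIntegral_mono_on (k4.sub k1).abs ((hsi.mono_set Ioc_subset_Ioi_self).const_mul _)
              measurableSet_Ioc fun s hs => ?_
            have hs0 : (0 : ℝ) < s := hs.1
            have h1 := (hU0 (Ut T s) ((le_max_left _ _).trans (hU s hs))).1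
            rw [← mul_sub, ← mul_sub, abs_mul, abs_mul, abs_of_pos (Real.exp_pos _), abs_of_pos hs0]
            calc Real.exp (-s) * (s * |VR R (Ut T s) - LVp p (Ut T s)|) ≤ Real.exp (-s) * (s * (e * C)) := by gcongr
              _ = _ := by ring
        _ = (e * C) * ∫ s in Ioc 0 √T, s * Real.exp (-s) := integral_const_mul _ _
        _ ≤ (e * C) * ∫ s in Ioi 0, s * Real.exp (-s) := by
            refine mul_le_mul_of_nonneg_left ?_ (by positivity)
            refine setIntegral_mono_set hsi ?_ Ioc_subset_Ioi_self.eventuallyLE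
            refine (ae_restrict_iff' measurableSet_Ioi).2 (Filter.Eventually.of_forall fun s hs => ?_)
            have hs0 : (0 : ℝ) < s := hs
            simp only [Pi.zero_apply]
            positivity
        _ = e * C := by rw [exp_mom, mul_one]
    -- the zeros
    have hlow : ∀ t : ℝ, 0 < t → ∀ᶠ T in atTop, |GGp p T t - t * (R ^ 2 / 4)| ≤ t * (e * C) := by
      intro t ht
      have htT : Tendsto (fun T : ℝ => t * T) atTop atTop := tendsto_id.const_mul_atTop ht
      have h1 := (GGp_LF hRH p ht).eventually (Metric.ball_mem_nhds _ (show 0 < t * (e * C) / 4 by positivity))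
      have h2 := (hFR.comp htT).eventually (Metric.ball_mem_nhds _ (show 0 < e * C / 2 by positivity))
      filter_upwards [h1, h2, htT.eventually hp2] with T k1 k2 k3
      rw [Real.dist_eq, sub_zero] at k1
      rw [Real.dist_eq] at k2
      simp only [Function.comp] at k2
      have k4 := abs_lt.1 k1
      have k5 := abs_lt.1 k2
      have k6 := abs_le.1 k3.2
      have a1 : LFp p (t * T) ≤ R ^ 2 / 2 + 3 / 2 * (e * C) := by linarith [k5.2, k6.1]
      have a2 : R ^ 2 / 2 - 3 / 2 * (e * C) ≤ LFp p (t * T) := by linarith [k5.1, k6.2]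
      have a3 := mul_le_mul_of_nonneg_left a1 (show 0 ≤ t / 2 by positivity)
      have a4 := mul_le_mul_of_nonneg_left a2 (show 0 ≤ t / 2 by positivity)
      rw [abs_le]
      constructor <;> nlinarith [k4.1, k4.2]
    have hmain : Tendsto (fun T => ∫ t in Ioi (0 : ℝ), max 0 (|w1 t * GGp p T t - w1 t * t * (R ^ 2 / 4)| -
        (e * C) * (w1 t * t))) atTop (𝓝 (∫ t in Ioi (0 : ℝ), (0 : ℝ))) := by
      refine tendsto_integral_filter_of_dominated_convergence
        (fun t => C' * (w1 t * (t * (1 + |Real.log t|) ^ 4)) + R ^ 2 / 4 * (w1 t * t)) ?_ ?_ ?_ ?_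
      · filter_upwards [q1] with T h1
        exact (continuous_const.max continuous_id).comp_aestronglyMeasurable
          (((h1.sub (w2.mul_const (R ^ 2 / 4))).abs.sub (w2.const_mul (e * C))).aestronglyMeasurable)
      · filter_upwards [eventually_ge_atTop T'] with T hT
        refine (ae_restrict_iff' measurableSet_Ioi).2 (Filter.Eventually.of_forall fun t ht => ?_)
        have ht0 : (0 : ℝ) < t := ht
        have hw := w1_nonneg ht0.le
        have h1 := hdom T t hT ht0
        rw [Real.norm_eq_abs, abs_of_nonneg (le_max_left _ _)]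
        have h2 : |w1 t * GGp p T t| ≤ C' * (w1 t * (t * (1 + |Real.log t|) ^ 4)) := by
          rw [abs_mul, abs_of_nonneg hw]
          calc w1 t * |GGp p T t| ≤ w1 t * (C' * (t * (1 + |Real.log t|) ^ 4)) := by gcongr
            _ = _ := by ring
        have h3 : 0 ≤ w1 t * t * (R ^ 2 / 4) := by positivity
        have h4 := abs_sub (w1 t * GGp p T t) (w1 t * t * (R ^ 2 / 4))
        rw [abs_of_nonneg h3] at h4
        have h5 : 0 ≤ (e * C) * (w1 t * t) := by positivity
        have h6 := abs_nonneg (w1 t * GGp p T t)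
        exact max_le (by linarith) (by linarith)
      · exact (dom_int.const_mul C').add (w2.const_mul (R ^ 2 / 4))
      · refine (ae_restrict_iff' measurableSet_Ioi).2 (Filter.Eventually.of_forall fun t ht => ?_)
        have ht0 : (0 : ℝ) < t := ht
        have hw := w1_nonneg ht0.le
        refine tendsto_const_nhds.congr' ?_
        filter_upwards [hlow t ht0] with T hT
        rw [max_eq_left]
        have e1 : w1 t * GGp p T t - w1 t * t * (R ^ 2 / 4) = w1 t * (GGp p T t - t * (R ^ 2 / 4)) := by ring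
        rw [e1, abs_mul, abs_of_nonneg hw]
        have := mul_le_mul_of_nonneg_left hT hw
        linarith
    rw [integral_zero] at hmain
    filter_upwards [hmain.eventually (gt_mem_nhds he), hP, q3.eventually (Metric.ball_mem_nhds _ he), q1] with T k1 k2 k3 k4
    rw [Real.dist_eq, sub_zero] at k3
    have i1 : IntegrableOn (fun t => w1 t * GGp p T t - w1 t * t * (R ^ 2 / 4)) (Ioi 0) := k4.sub (w2.mul_const _)
    have i2 : IntegrableOn (fun t => (e * C) * (w1 t * t)) (Ioi 0) := w2.const_mul _
    have i3 : IntegrableOn (fun t => max 0 (|w1 t * GGp p T t - w1 t * t * (R ^ 2 / 4)| - (e * C) * (w1 t * t))) (Ioi 0) := by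
      refine Integrable.mono' (i1.abs.sub i2).abs ((continuous_const.max continuous_id).comp_aestronglyMeasurable
        (i1.abs.sub i2).aestronglyMeasurable) (ae_of_all _ fun t => ?_)
      rw [Real.norm_eq_abs, abs_of_nonneg (le_max_left _ _)]
      exact max_le (abs_nonneg _) (le_abs_self _)
    have h1 : |∫ t in Ioi 0, (w1 t * GGp p T t - w1 t * t * (R ^ 2 / 4))| ≤ e + (e * C) * (π / 2) := by
      refine abs_integral_le_integral_abs.trans ?_
      calc ∫ t in Ioi 0, |w1 t * GGp p T t - w1 t * t * (R ^ 2 / 4)| ≤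
          ∫ t in Ioi 0, (max 0 (|w1 t * GGp p T t - w1 t * t * (R ^ 2 / 4)| - (e * C) * (w1 t * t)) +
            (e * C) * (w1 t * t)) := by
            refine integral_mono i1.abs (i3.add i2) fun t => ?_
            simp only
            linarith [le_max_right 0 (|w1 t * GGp p T t - w1 t * t * (R ^ 2 / 4)| - (e * C) * (w1 t * t))]
        _ = (∫ t in Ioi 0, max 0 (|w1 t * GGp p T t - w1 t * t * (R ^ 2 / 4)| - (e * C) * (w1 t * t))) +
            (e * C) * (π / 2) := by rw [integral_add i3 i2, integral_const_mul, w3]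
        _ ≤ _ := by linarith
    rw [integral_sub k4 (w2.mul_const _), integral_mul_const, w3] at h1
    obtain ⟨G, hG⟩ : ∃ G : ℝ, G = ∫ t in Ioi 0, w1 t * GGp p T t := ⟨_, rfl⟩
    obtain ⟨A, hA⟩ : ∃ A : ℝ, A = ∫ s in Ioc 0 √T, Real.exp (-s) * (s * VR R (Ut T s)) := ⟨_, rfl⟩
    obtain ⟨B, hB⟩ : ∃ B : ℝ, B = ∫ s in Ioc 0 √T, Real.exp (-s) * (s * LVp p (Ut T s)) := ⟨_, rfl⟩
    rw [← hG] at h1 k3
    rw [← hB] at k2 k3
    rw [← hA] at k2 ⊢
    have h2 : |4 / π * G - R ^ 2 / 2| ≤ 2 * e + 2 * (e * C) := by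
      have e1 : 4 / π * G - R ^ 2 / 2 = 4 / π * (G - π / 2 * (R ^ 2 / 4)) := by field_simp
      rw [e1, abs_mul, abs_of_pos (by positivity)]
      calc 4 / π * |G - π / 2 * (R ^ 2 / 4)| ≤ 4 / π * (e + e * C * (π / 2)) := by gcongr
        _ = 4 / π * e + 2 * (e * C) := by field_simp; ring
        _ ≤ _ := by
            have : 4 / π ≤ 2 := by rw [div_le_iff₀ hπ]; linarith
            have : 4 / π * e ≤ 2 * e := by gcongr
            linarith
    have a1 := abs_le.1 h2
    have a2 := abs_le.1 k2
    have a3 := abs_lt.1 k3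
    have a4 := abs_le.1 hp1
    rw [abs_le]
    constructor
    · nlinarith [a1.1, a2.1, a3.1, a4.1, a4.2]
    · nlinarith [a1.2, a2.2, a3.2, a4.1, a4.2]
  rw [Metric.tendsto_nhds]
  intro ε hε
  obtain ⟨e, he⟩ : ∃ e : ℝ, e = min 1 (ε / (2 * (4 * C + 6))) := ⟨_, rfl⟩
  have he0 : 0 < e := by rw [he]; exact lt_min one_pos (by positivity)
  have he1 : e ≤ 1 := by rw [he]; exact min_le_left _ _
  have he2 : e * (4 * C + 6) ≤ ε / 2 := by
    have : e ≤ ε / (2 * (4 * C + 6)) := by rw [he]; exact min_le_right _ _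
    rw [le_div_iff₀ (by positivity)] at this
    linarith
  filter_upwards [key e he0 he1] with T hT
  rw [Real.dist_eq]
  linarith

end Pool.Agent.U507.AH
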